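import Pool.Agent.Lib.MP_c95b3b_ag_PT.ExB
import Pool.Agent.Lib.MP_c95b3b_ag_L3.TE

/-! MP_c95b3b_ag, project (P), block (T), module Core: the auxiliary polynomial. -/

set_option autoImplicit false

noncomputable section

namespace Pool.Agent.PT

open Polynomial Finset Pool.Agent.L3

namespace Core

variable {k L : ℕ}

/-- the coefficients of the linear forms -/
theorem form_bound (ρ : ℝ) (hρ : 1 ≤ ρ) (g : (Fin k → Fin (L + 1) × Fin (L + 1)) → ℝ) (W0 : ℝ)
    (hg : ∑ c, |g c| ≤ W0)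
    (p : Fin k → ℝ × ℝ) (hp : ‖p‖ ≤ ρ) (d : ℕ) (hd : d + 1 = k) (b : Fin d → Fin k → ℝ × ℝ)
    (hb : ∀ i, ‖b i‖ ≤ 1) (α : Fin d → ℕ) :
    |∑ c, g c * (Real.exp (2 * TE.dot c p) *
      ∏ i, ((2 * ρ * TE.dot c (b i)) ^ (α i) / ((α i).factorial : ℝ)))| ≤
    W0 * Real.exp (k * (4 * k * L * ρ)) := by
  set r : ℝ := 4 * k * L * ρ with hr
  have hr0 : 0 ≤ r := by positivity
  have hdk : (d : ℝ) + 1 = k := by exact_mod_cast hd
  have h1 : ∀ c : Fin k → Fin (L + 1) × Fin (L + 1), |Real.exp (2 * TE.dot c p) *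
      ∏ i, ((2 * ρ * TE.dot c (b i)) ^ (α i) / ((α i).factorial : ℝ))| ≤ Real.exp (k * r) := by
    intro c
    have hp1 : 2 * TE.dot c p ≤ r := by
      have h1 := TE.abs_dot_le c p
      have h2 : 2 * (k : ℝ) * L * ‖p‖ ≤ 2 * k * L * ρ := by gcongr
      have h3 := le_abs_self (TE.dot c p)
      rw [hr]
      nlinarith
    have hx : ∀ i, |2 * ρ * TE.dot c (b i)| ≤ r := by
      intro i
      have h1 := TE.abs_dot_le c (b i)
      have h2 : 2 * (k : ℝ) * L * ‖b i‖ ≤ 2 * k * L * 1 := by gcongr; exact hb i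
      rw [abs_mul, abs_mul, abs_of_pos (by norm_num : (0 : ℝ) < 2),
        abs_of_pos (by linarith : (0 : ℝ) < ρ)]
      calc 2 * ρ * |TE.dot c (b i)| ≤ 2 * ρ * (2 * k * L * 1) := by
            gcongr
            exact h1.trans h2
        _ = r := by rw [hr]; ring
    rw [abs_mul, abs_of_pos (Real.exp_pos _), Finset.abs_prod]
    have h3 : ∏ i, |(2 * ρ * TE.dot c (b i)) ^ (α i) / ((α i).factorial : ℝ)| ≤
        ∏ _i : Fin d, Real.exp r := by
      refine Finset.prod_le_prod (fun i _ => abs_nonneg _) fun i _ => ?_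
      rw [abs_div, abs_pow, Nat.abs_cast]
      calc |2 * ρ * TE.dot c (b i)| ^ α i / ((α i).factorial : ℝ) ≤
            r ^ α i / ((α i).factorial : ℝ) := by gcongr; exact hx i
        _ ≤ Real.exp r := Real.pow_div_factorial_le_exp r hr0 _
    rw [Finset.prod_const, Finset.card_univ, Fintype.card_fin, ← Real.exp_nat_mul] at h3
    calc Real.exp (2 * TE.dot c p) * ∏ i, |(2 * ρ * TE.dot c (b i)) ^ α i /
          ((α i).factorial : ℝ)|
        ≤ Real.exp r * Real.exp (d * r) := by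
          refine mul_le_mul (Real.exp_le_exp.2 hp1) h3 ?_ (Real.exp_pos _).le
          exact Finset.prod_nonneg fun i _ => abs_nonneg _
      _ = Real.exp (k * r) := by rw [← Real.exp_add, ← hdk]; congr 1; ring
  calc |∑ c, g c * (Real.exp (2 * TE.dot c p) *
      ∏ i, ((2 * ρ * TE.dot c (b i)) ^ (α i) / ((α i).factorial : ℝ)))|
      ≤ ∑ c, |g c| * Real.exp (k * r) := by
        refine (Finset.abs_sum_le_sum_abs _ _).trans (Finset.sum_le_sum fun c _ => ?_)
        rw [abs_mul]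
        exact mul_le_mul_of_nonneg_left (h1 c) (abs_nonneg _)
    _ = (∑ c, |g c|) * Real.exp (k * r) := by rw [Finset.sum_mul]
    _ ≤ W0 * Real.exp (k * r) := by gcongr

/-- the value of the sum near one of the subspaces -/
theorem main_bound {ν : Type} [Fintype ν] (hk : 1 ≤ k) (ρ : ℝ) (hρ : 1 ≤ ρ) (T : ℕ)
    (G : (Fin k → Fin (L + 1) × Fin (L + 1)) → ν → ℝ) (W0 : ℝ)
    (hG : ∀ n, ∑ c, |G c n| ≤ W0) (p : Fin k → ℝ × ℝ) (hp : ‖p‖ ≤ ρ)
    (b : Fin (k - 1) → Fin k → ℝ × ℝ) (hb : ∀ i, ‖b i‖ ≤ 1) (y : Fin (k - 1) → ℝ)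
    (hy : ∀ i, |y i| ≤ ρ) (e : Fin k → ℝ × ℝ) (δ : ℝ) (he : ‖e‖ ≤ δ) (hδ : 4 * k * L * δ ≤ 1)
    (x : ν → ℤ) (H : ℝ) (hH0 : 0 ≤ H) (hx : ∀ n, |((x n : ℤ) : ℝ)| ≤ H) (Z : ℝ)
    (hZ : ∀ α : Fin (k - 1) → Fin T, |∑ n, (∑ c, G c n * (Real.exp (2 * TE.dot c p) *
      ∏ i, ((2 * ρ * TE.dot c (b i)) ^ (α i : ℕ) / ((α i : ℕ).factorial : ℝ)))) * (x n : ℝ)| ≤ Z) :
    |∑ n, (x n : ℝ) * ∑ c, G c n * Real.exp (2 * TE.dot c (p + ∑ i, y i • b i + e))| ≤
      (T : ℝ) ^ (k - 1) * Z + Fintype.card ν * H * (W0 *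
        (Real.exp (k * (4 * k * L * ρ)) * (k * ((4 * k * L * ρ) ^ T / T.factorial) +
          8 * k * L * δ))) := by
  set err : ℝ := Real.exp (k * (4 * k * L * ρ)) * (k * ((4 * k * L * ρ) ^ T / T.factorial) +
          8 * k * L * δ) with herr
  have hδ0 : 0 ≤ δ := (norm_nonneg _).trans he
  have hρ0 : 0 < ρ := by linarith
  have herr0 : 0 ≤ err := by positivity
  have hap : ∀ c : Fin k → Fin (L + 1) × Fin (L + 1),
      |Real.exp (2 * TE.dot c (p + ∑ i, y i • b i + e)) - Real.exp (2 * TE.dot c p) *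
      ∑ α : Fin (k - 1) → Fin T, ∏ i, ((2 * y i * TE.dot c (b i)) ^ (α i : ℕ) /
        (α i : ℕ).factorial)| ≤ err := fun c =>
    TE.exp_approx ρ hρ c p hp (k - 1) (Nat.sub_add_cancel hk) b hb y hy e δ he hδ T
  set mn : ℝ := ∑ n, (x n : ℝ) * ∑ c, G c n * (Real.exp (2 * TE.dot c p) *
      ∑ α : Fin (k - 1) → Fin T, ∏ i, ((2 * y i * TE.dot c (b i)) ^ (α i : ℕ) /
        ((α i : ℕ).factorial : ℝ))) with hmn
  have h1 : mn = ∑ α : Fin (k - 1) → Fin T, (∏ i, (y i / ρ) ^ (α i : ℕ)) *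
      ∑ n, (∑ c, G c n * (Real.exp (2 * TE.dot c p) *
      ∏ i, ((2 * ρ * TE.dot c (b i)) ^ (α i : ℕ) / ((α i : ℕ).factorial : ℝ)))) * (x n : ℝ) := by
    have e1 : ∀ (c : Fin k → Fin (L + 1) × Fin (L + 1)) (α : Fin (k - 1) → Fin T),
        ∏ i, ((2 * y i * TE.dot c (b i)) ^ (α i : ℕ) / ((α i : ℕ).factorial : ℝ)) =
        (∏ i, (y i / ρ) ^ (α i : ℕ)) *
          ∏ i, ((2 * ρ * TE.dot c (b i)) ^ (α i : ℕ) / ((α i : ℕ).factorial : ℝ)) := by
      intro c α
      rw [← Finset.prod_mul_distrib]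
      refine Finset.prod_congr rfl fun i _ => ?_
      have : 2 * y i * TE.dot c (b i) = (y i / ρ) * (2 * ρ * TE.dot c (b i)) := by
        field_simp
      rw [this, mul_pow, mul_div_assoc]
    have e2 : ∀ n : ν, (x n : ℝ) * ∑ c, G c n *
        (Real.exp (2 * TE.dot c p) * ∑ α : Fin (k - 1) → Fin T,
          ∏ i, ((2 * y i * TE.dot c (b i)) ^ (α i : ℕ) / ((α i : ℕ).factorial : ℝ))) =
        ∑ α : Fin (k - 1) → Fin T, (∏ i, (y i / ρ) ^ (α i : ℕ)) *
          ((∑ c, G c n * (Real.exp (2 * TE.dot c p) *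
            ∏ i, ((2 * ρ * TE.dot c (b i)) ^ (α i : ℕ) / ((α i : ℕ).factorial : ℝ)))) *
            (x n : ℝ)) := by
      intro n
      simp only [e1, Finset.mul_sum, Finset.sum_mul]
      rw [Finset.sum_comm]
      refine Finset.sum_congr rfl fun α _ => ?_
      refine Finset.sum_congr rfl fun c _ => ?_
      ring
    rw [hmn, Finset.sum_congr rfl (fun n _ => e2 n), Finset.sum_comm]
    refine Finset.sum_congr rfl fun α _ => ?_
    rw [Finset.mul_sum]
  have h2 : |mn| ≤ (T : ℝ) ^ (k - 1) * Z := by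
    rw [h1]
    refine (Finset.abs_sum_le_sum_abs _ _).trans ?_
    calc ∑ α : Fin (k - 1) → Fin T, |(∏ i, (y i / ρ) ^ (α i : ℕ)) *
      ∑ n, (∑ c, G c n * (Real.exp (2 * TE.dot c p) *
      ∏ i, ((2 * ρ * TE.dot c (b i)) ^ (α i : ℕ) / ((α i : ℕ).factorial : ℝ)))) * (x n : ℝ)|
        ≤ ∑ _α : Fin (k - 1) → Fin T, Z := by
          refine Finset.sum_le_sum fun α _ => ?_
          rw [abs_mul]
          have h3 : |∏ i, (y i / ρ) ^ (α i : ℕ)| ≤ 1 := by
            rw [Finset.abs_prod]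
            refine Finset.prod_le_one (fun i _ => abs_nonneg _) fun i _ => ?_
            rw [abs_pow]
            apply pow_le_one₀ (abs_nonneg _)
            rw [abs_div, abs_of_pos hρ0]
            exact (div_le_one hρ0).2 (hy i)
          calc _ ≤ 1 * Z := mul_le_mul h3 (hZ α) (abs_nonneg _) zero_le_one
            _ = Z := one_mul Z
      _ = (T : ℝ) ^ (k - 1) * Z := by
          rw [Finset.sum_const, Finset.card_univ, Fintype.card_fun, Fintype.card_fin,
            Fintype.card_fin, nsmul_eq_mul]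
          push_cast
          ring
  have h3 : |∑ n, (x n : ℝ) * ∑ c, G c n *
      Real.exp (2 * TE.dot c (p + ∑ i, y i • b i + e)) - mn| ≤
      Fintype.card ν * H * (W0 * err) := by
    rw [hmn, ← Finset.sum_sub_distrib]
    refine (Finset.abs_sum_le_sum_abs _ _).trans ?_
    calc _ ≤ ∑ _n : ν, H * (W0 * err) := by
          refine Finset.sum_le_sum fun n _ => ?_
          rw [← mul_sub, abs_mul, ← Finset.sum_sub_distrib]
          refine mul_le_mul (hx n) ?_ (abs_nonneg _) hH0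
          refine (Finset.abs_sum_le_sum_abs _ _).trans ?_
          calc _ ≤ ∑ c, |G c n| * err := by
                refine Finset.sum_le_sum fun c _ => ?_
                rw [← mul_sub, abs_mul]
                exact mul_le_mul_of_nonneg_left (hap c) (abs_nonneg _)
            _ = (∑ c, |G c n|) * err := by rw [Finset.sum_mul]
            _ ≤ W0 * err := mul_le_mul_of_nonneg_right (hG n) herr0
      _ = Fintype.card ν * H * (W0 * err) := by
          rw [Finset.sum_const, Finset.card_univ, nsmul_eq_mul]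
          ring
  calc _ = |mn + (∑ n, (x n : ℝ) * ∑ c, G c n *
      Real.exp (2 * TE.dot c (p + ∑ i, y i • b i + e)) - mn)| := by congr 1; ring
    _ ≤ |mn| + |∑ n, (x n : ℝ) * ∑ c, G c n *
      Real.exp (2 * TE.dot c (p + ∑ i, y i • b i + e)) - mn| := abs_add_le _ _
    _ ≤ _ := add_le_add h2 h3

/-- the numerical estimates -/
theorem numeric (k q m D : ℕ) (hk : 1 ≤ k) (A ρ : ℝ) (hA : 1 ≤ A) (hρ : 1 ≤ ρ) :
    ∃ M0 : ℕ, ∀ M ≥ M0, ∀ N T : ℕ, N = M ^ (2 * k) → T = M ^ (2 * k + 1) →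
      1 ≤ N ∧ 1 ≤ T ∧ 3 * (2 * q * m ^ k) * T ^ k ≤ N ^ (k + 1) ∧
      4 * k * ((D * N : ℕ) : ℝ) * Real.exp (-(3 * (T : ℝ))) ≤ 1 ∧
      ∀ H Lc : ℝ, 0 ≤ H → H ≤ Real.exp N → Real.exp (2 * T) ≤ Lc →
        2 * ((T : ℝ) ^ (k - 1) * (2 * (N + 1) ^ k * (A ^ (k * N) *
              Real.exp (k * (4 * k * ((D * N : ℕ) : ℝ) * ρ))) * H / Lc) +
            (N + 1) ^ k * H * (A ^ (k * N) * (Real.exp (k * (4 * k * ((D * N : ℕ) : ℝ) * ρ)) *
              (k * ((4 * k * ((D * N : ℕ) : ℝ) * ρ) ^ T / T.factorial) +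
                8 * k * ((D * N : ℕ) : ℝ) * Real.exp (-(3 * (T : ℝ))))))) ≤
        Real.exp (-((T : ℝ) / 2)) := by
  set a : ℝ := Real.log A with ha
  have ha0 : 0 ≤ a := Real.log_nonneg hA
  set B : ℝ := 1 + k + 1 + k * a + 4 * k ^ 2 * D * ρ + (2 * k + 8 * k * D + 3 + k) with hB
  refine ⟨3 * (2 * q * m ^ k) + ⌈84 * k * D * ρ⌉₊ + ⌈B⌉₊ + 4 * k * D + 1, ?_⟩
  intro M hM N T hN hT
  have hM1 : 1 ≤ M := by omega
  have hMq : 3 * (2 * q * m ^ k) ≤ M := by omega
  have hMρ' : ⌈84 * k * D * ρ⌉₊ ≤ M := by omega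
  have hMB' : ⌈B⌉₊ ≤ M := by omega
  have hMD' : 4 * k * D ≤ M := by omega
  have hMρ : 84 * k * D * ρ ≤ M := (Nat.le_ceil _).trans (Nat.cast_le.2 hMρ')
  have hMB : B ≤ M := (Nat.le_ceil _).trans (Nat.cast_le.2 hMB')
  have hMD : 4 * (k : ℝ) * D ≤ M := by exact_mod_cast hMD'
  have hN1 : 1 ≤ N := by rw [hN]; exact Nat.one_le_pow _ _ hM1
  have hTN : T = N * M := by rw [hT, hN, pow_succ]
  have hT1 : 1 ≤ T := by rw [hT]; exact Nat.one_le_pow _ _ hM1
  have hMN : M ≤ N := by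
    rw [hN]
    calc M = M ^ 1 := (pow_one M).symm
      _ ≤ M ^ (2 * k) := Nat.pow_le_pow_right hM1 (by omega)
  have kR : (1 : ℝ) ≤ k := by exact_mod_cast hk
  have NR : (1 : ℝ) ≤ N := by exact_mod_cast hN1
  have MR : (1 : ℝ) ≤ M := by exact_mod_cast hM1
  have TR : (1 : ℝ) ≤ T := by exact_mod_cast hT1
  have DR : (0 : ℝ) ≤ D := Nat.cast_nonneg D
  have hTNR : (T : ℝ) = N * M := by exact_mod_cast hTN
  have hMNR : (M : ℝ) ≤ N := by exact_mod_cast hMN
  have hDN : ((D * N : ℕ) : ℝ) = D * N := by push_cast; ring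
  rw [hDN]
  refine ⟨hN1, hT1, ?_, ?_, ?_⟩
  · -- counting
    have h1 : M ≤ M ^ k := by
      calc M = M ^ 1 := (pow_one M).symm
        _ ≤ M ^ k := Nat.pow_le_pow_right hM1 hk
    calc 3 * (2 * q * m ^ k) * T ^ k = (3 * (2 * q * m ^ k)) * (N ^ k * M ^ k) := by
          rw [hTN, mul_pow]
      _ ≤ M ^ k * (N ^ k * M ^ k) := Nat.mul_le_mul_right _ (hMq.trans h1)
      _ = N ^ k * (M ^ k * M ^ k) := by ring
      _ = N ^ (k + 1) := by
          rw [pow_succ, ← pow_add, hN]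
          congr 2
          ring
  · have h1 : 4 * (k : ℝ) * (D * N) ≤ Real.exp (3 * T) := by
      have h2 : 4 * (k : ℝ) * (D * N) ≤ T := by
        rw [hTNR]
        nlinarith
      have h3 := Real.add_one_le_exp (3 * (T : ℝ))
      linarith
    rw [Real.exp_neg, ← div_eq_mul_inv]
    exact (div_le_one (Real.exp_pos _)).2 h1
  · intro H Lc hH0 hH hL
    have e1 : (2 : ℝ) ≤ Real.exp 1 := by
      have := Real.add_one_le_exp (1 : ℝ); linarith
    have e3 : Real.exp 3 ≤ 21 := by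
      have h := Real.exp_one_lt_d9
      have : Real.exp 3 = Real.exp 1 * Real.exp 1 * Real.exp 1 := by
        rw [← Real.exp_add, ← Real.exp_add]; norm_num
      rw [this]
      have h0 := Real.exp_pos 1
      nlinarith [mul_pos h0 h0]
    have h1 : ((N : ℝ) + 1) ^ k ≤ Real.exp (k * N) := by
      rw [Real.exp_nat_mul]
      have := Real.add_one_le_exp (N : ℝ)
      gcongr
    have h2 : A ^ (k * N) = Real.exp (k * N * a) := by
      have : Real.exp (k * N * a) = (Real.exp a) ^ (k * N) := by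
        rw [← Real.exp_nat_mul]; congr 1; push_cast; ring
      rw [this, ha, Real.exp_log (by linarith)]
    have h4 : (T : ℝ) ^ (k - 1) ≤ Real.exp (2 * k * N) := by
      have a1 : (T : ℝ) ≤ Real.exp (2 * N) := by
        have b1 : (T : ℝ) ≤ N * N := by rw [hTNR]; nlinarith
        have b2 : (N : ℝ) ≤ Real.exp N := by have := Real.add_one_le_exp (N : ℝ); linarith
        have b3 : Real.exp (2 * N) = Real.exp N * Real.exp N := by
          rw [← Real.exp_add]; congr 1; ring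
        rw [b3]
        exact b1.trans (mul_le_mul b2 b2 (by positivity) (Real.exp_pos _).le)
      calc (T : ℝ) ^ (k - 1) ≤ (T : ℝ) ^ k := pow_le_pow_right₀ TR (by omega)
        _ ≤ (Real.exp (2 * N)) ^ k := by gcongr
        _ = Real.exp (2 * k * N) := by rw [← Real.exp_nat_mul]; congr 1; ring
    have h5 : (4 * k * (D * N) * ρ) ^ T / (T.factorial : ℝ) ≤ Real.exp (-(2 * (T : ℝ))) := by
      have a1 : (4 * k * (D * N) * ρ) ^ T / (T.factorial : ℝ) =
          ((4 * k * (D * N) * ρ) / T) ^ T * ((T : ℝ) ^ T / T.factorial) := by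
        rw [div_pow]
        have : (T : ℝ) ^ T ≠ 0 := by positivity
        field_simp
      have a2 : (T : ℝ) ^ T / (T.factorial : ℝ) ≤ Real.exp T :=
        Real.pow_div_factorial_le_exp (T : ℝ) (by positivity) T
      have a3 : (4 * k * (D * N) * ρ) / (T : ℝ) ≤ Real.exp (-3) := by
        rw [div_le_iff₀ (by linarith), Real.exp_neg, hTNR]
        have b1 : (0 : ℝ) < Real.exp 3 := Real.exp_pos _
        rw [inv_mul_eq_div, le_div_iff₀ b1]
        have b2 : 4 * (k : ℝ) * D * ρ * Real.exp 3 ≤ M := by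
          have : 4 * (k : ℝ) * D * ρ * Real.exp 3 ≤ 4 * k * D * ρ * 21 := by gcongr
          linarith
        calc 4 * (k : ℝ) * (D * N) * ρ * Real.exp 3 = N * (4 * (k : ℝ) * D * ρ * Real.exp 3) := by
              ring
          _ ≤ N * M := mul_le_mul_of_nonneg_left b2 (by linarith)
      have a4 : (((4 * k * (D * N) * ρ) / (T : ℝ)) ^ T) ≤ Real.exp (-3 * T) := by
        have : Real.exp (-3 * (T : ℝ)) = (Real.exp (-3)) ^ T := by
          rw [← Real.exp_nat_mul]; congr 1; ring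
        rw [this]
        gcongr
      rw [a1]
      calc ((4 * k * (D * N) * ρ) / (T : ℝ)) ^ T * ((T : ℝ) ^ T / T.factorial) ≤
            Real.exp (-3 * T) * Real.exp T := by gcongr
        _ = Real.exp (-(2 * (T : ℝ))) := by rw [← Real.exp_add]; congr 1; ring
    have hL0 : 0 < Lc := (Real.exp_pos _).trans_le hL
    have h6 : 1 / Lc ≤ Real.exp (-(2 * (T : ℝ))) := by
      rw [Real.exp_neg, ← one_div]
      exact one_div_le_one_div_of_le (Real.exp_pos _) hL
    -- the common factor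
    set W : ℝ := A ^ (k * N) * Real.exp (k * (4 * k * (D * N) * ρ)) with hW
    set G : ℝ := 2 * ((N + 1) ^ k * H * W) with hG
    have hW0 : 0 < W := by positivity
    have hG0 : 0 ≤ G := by positivity
    have hGle : G ≤ Real.exp ((B - (2 * k + 8 * k * D + 3 + k)) * N) := by
      calc G ≤ Real.exp 1 * (Real.exp (k * N) * Real.exp N *
            (Real.exp (k * N * a) * Real.exp (k * (4 * k * (D * N) * ρ)))) := by
            rw [hG, hW, h2]; gcongr
        _ = Real.exp (1 + (k * N + N + (k * N * a +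
              k * (4 * k * (D * N) * ρ)))) := by
            simp only [← Real.exp_add]
        _ ≤ Real.exp ((B - (2 * k + 8 * k * D + 3 + k)) * N) := by
            apply Real.exp_le_exp.2
            rw [hB]
            nlinarith
    have hfac : (T : ℝ) ^ (k - 1) * (2 / Lc) + (k * ((4 * k * (D * N) * ρ) ^ T / T.factorial) +
        8 * k * (D * N) * Real.exp (-(3 * (T : ℝ)))) ≤
        Real.exp ((2 * k + 8 * k * D + 3 + k) * N) * Real.exp (-(2 * (T : ℝ))) := by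
      have c1 : (T : ℝ) ^ (k - 1) * (2 / Lc) ≤ 2 * Real.exp ((2 * k + 8 * k * D + k) * N) *
          Real.exp (-(2 * (T : ℝ))) := by
        have : (T : ℝ) ^ (k - 1) * (2 / Lc) = 2 * (T : ℝ) ^ (k - 1) * (1 / Lc) := by ring
        rw [this]
        have d1 : (T : ℝ) ^ (k - 1) ≤ Real.exp ((2 * k + 8 * k * D + k) * N) := by
          refine h4.trans (Real.exp_le_exp.2 ?_)
          have d2 : (0 : ℝ) ≤ (8 * k * D + k) * N := by positivity
          nlinarith
        gcongr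
      have c2 : k * ((4 * k * (D * N) * ρ) ^ T / (T.factorial : ℝ)) +
          8 * k * (D * N) * Real.exp (-(3 * (T : ℝ))) ≤
            Real.exp ((2 * k + 8 * k * D + k) * N) * Real.exp (-(2 * (T : ℝ))) := by
        have d1 : Real.exp (-(3 * (T : ℝ))) ≤ Real.exp (-(2 * (T : ℝ))) :=
          Real.exp_le_exp.2 (by linarith)
        have d2 : (k : ℝ) + 8 * k * (D * N) ≤ Real.exp ((2 * k + 8 * k * D + k) * N) := by
          have f1 := Real.add_one_le_exp ((2 * k + 8 * k * D + k) * (N : ℝ))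
          have f2 : (k : ℝ) * 1 ≤ k * N := by gcongr
          have f3 : (0 : ℝ) ≤ 2 * k * N := by positivity
          nlinarith
        calc k * ((4 * k * (D * N) * ρ) ^ T / (T.factorial : ℝ)) +
              8 * k * (D * N) * Real.exp (-(3 * (T : ℝ))) ≤
              k * Real.exp (-(2 * (T : ℝ))) + 8 * k * (D * N) * Real.exp (-(2 * (T : ℝ))) := by
                gcongr
          _ = (k + 8 * k * (D * N)) * Real.exp (-(2 * (T : ℝ))) := by ring
          _ ≤ _ := by gcongr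
      have c3 : 3 * Real.exp ((2 * k + 8 * k * D + k) * N) ≤
          Real.exp ((2 * k + 8 * k * D + 3 + k) * N) := by
        have f1 : Real.exp ((2 * k + 8 * k * D + 3 + k) * N) =
            Real.exp (3 * N) * Real.exp ((2 * k + 8 * k * D + k) * N) := by
          rw [← Real.exp_add]; congr 1; ring
        rw [f1]
        have f2 : (3 : ℝ) ≤ Real.exp (3 * N) := by
          have := Real.add_one_le_exp (3 * (N : ℝ))
          linarith
        gcongr
      calc _ ≤ 2 * Real.exp ((2 * k + 8 * k * D + k) * N) * Real.exp (-(2 * (T : ℝ))) +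
            Real.exp ((2 * k + 8 * k * D + k) * N) * Real.exp (-(2 * (T : ℝ))) :=
              add_le_add c1 c2
        _ = 3 * Real.exp ((2 * k + 8 * k * D + k) * N) * Real.exp (-(2 * (T : ℝ))) := by ring
        _ ≤ _ := by gcongr
    have hrew : 2 * ((T : ℝ) ^ (k - 1) * (2 * (N + 1) ^ k * (A ^ (k * N) *
              Real.exp (k * (4 * k * (D * N) * ρ))) * H / Lc) +
            (N + 1) ^ k * H * (A ^ (k * N) * (Real.exp (k * (4 * k * (D * N) * ρ)) *
              (k * ((4 * k * (D * N) * ρ) ^ T / T.factorial) +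
                8 * k * (D * N) * Real.exp (-(3 * (T : ℝ))))))) =
        G * ((T : ℝ) ^ (k - 1) * (2 / Lc) + (k * ((4 * k * (D * N) * ρ) ^ T / T.factorial) +
          8 * k * (D * N) * Real.exp (-(3 * (T : ℝ))))) := by
      rw [hG, hW]; ring
    rw [hrew]
    calc _ ≤ Real.exp ((B - (2 * k + 8 * k * D + 3 + k)) * N) *
          (Real.exp ((2 * k + 8 * k * D + 3 + k) * N) * Real.exp (-(2 * (T : ℝ)))) := by
          refine mul_le_mul hGle hfac ?_ (Real.exp_pos _).le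
          positivity
      _ = Real.exp (B * N - 2 * T) := by
          rw [← Real.exp_add, ← Real.exp_add]; congr 1; ring
      _ ≤ Real.exp (-((T : ℝ) / 2)) := by
          apply Real.exp_le_exp.2
          have : B * N ≤ T := by rw [hTNR]; nlinarith
          linarith

theorem prod_expand (hk : 1 ≤ k) (m N : ℕ) (A : ℝ) (hA : 1 ≤ A) (Φ : Fin k → ℕ → ℕ → ℝ → ℝ → ℂ)
    (hΦ : ∀ i n j, n ≤ N → Ex L (A ^ N) (Φ i n j)) :
    ∃ Γ : (Fin k → Fin m) → (Fin k → Fin (L + 1) × Fin (L + 1)) → (Fin k → Fin (N + 1)) → ℂ,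
      (∀ j n, ∑ c, ‖Γ j c n‖ ≤ A ^ (k * N)) ∧
      ∀ (j : Fin k → Fin m) (n : Fin k → Fin (N + 1)) (v : Fin k → ℝ × ℝ),
        ∏ i, Φ i (n i : ℕ) (j i : ℕ) (ee (v i).1) (ee (v i).2) =
          ∑ c, Γ j c n * ((Real.exp (2 * TE.dot c v) : ℝ) : ℂ) := by
  have h : ∀ (i : Fin k) (n j : ℕ), ∃ γ : Fin (L + 1) × Fin (L + 1) → ℂ, n ≤ N →
      ∑ c, ‖γ c‖ ≤ A ^ N ∧
        ∀ s t : ℝ, Φ i n j s t = ∑ c, γ c * (s : ℂ) ^ (c.1 : ℕ) * (t : ℂ) ^ (c.2 : ℕ) := by
    intro i n j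
    by_cases hn : n ≤ N
    · obtain ⟨γ, h1, h2⟩ := hΦ i n j hn
      exact ⟨γ, fun _ => ⟨h1, h2⟩⟩
    · exact ⟨fun _ => 0, fun h => absurd h hn⟩
  choose γ hγ using h
  refine ⟨fun j c n => ∏ i, γ i (n i : ℕ) (j i : ℕ) (c i), ?_, ?_⟩
  · intro j n
    simp only [norm_prod]
    have h1 : ∑ c : Fin k → Fin (L + 1) × Fin (L + 1),
        ∏ i, ‖γ i (n i : ℕ) (j i : ℕ) (c i)‖ = ∏ i, ∑ c, ‖γ i (n i : ℕ) (j i : ℕ) c‖ := by
      rw [Finset.prod_univ_sum, Fintype.piFinset_univ]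
    rw [h1]
    calc ∏ i, ∑ c, ‖γ i (n i : ℕ) (j i : ℕ) c‖ ≤ ∏ _i : Fin k, A ^ N := by
          refine Finset.prod_le_prod (fun i _ => Finset.sum_nonneg fun c _ => norm_nonneg _) ?_
          intro i _
          exact (hγ i (n i : ℕ) (j i : ℕ) (Nat.lt_succ_iff.mp (n i).2)).1
      _ = A ^ (k * N) := by
          rw [Finset.prod_const, Finset.card_univ, Fintype.card_fin, ← pow_mul, mul_comm]
  · intro j n v
    have h1 : ∀ i, Φ i (n i : ℕ) (j i : ℕ) (ee (v i).1) (ee (v i).2) =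
        ∑ c : Fin (L + 1) × Fin (L + 1), γ i (n i : ℕ) (j i : ℕ) c *
          (((Real.exp (2 * ((((c.1 : ℕ) : ℝ)) * (v i).1 + (((c.2 : ℕ) : ℝ)) * (v i).2)) : ℝ)) :
            ℂ) := by
      intro i
      rw [(hγ i (n i : ℕ) (j i : ℕ) (Nat.lt_succ_iff.mp (n i).2)).2]
      refine Finset.sum_congr rfl fun c _ => ?_
      rw [mul_assoc]
      congr 1
      rw [← Complex.ofReal_pow, ← Complex.ofReal_pow, ← Complex.ofReal_mul]
      congr 1
      unfold ee
      rw [← Real.exp_nat_mul, ← Real.exp_nat_mul, ← Real.exp_add]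
      congr 1
      ring
    simp only [h1]
    rw [Finset.prod_univ_sum, Fintype.piFinset_univ]
    refine Finset.sum_congr rfl fun c _ => ?_
    rw [Finset.prod_mul_distrib]
    congr 1
    rw [← Complex.ofReal_prod, ← Real.exp_sum]
    congr 2
    rw [TE.dot, Finset.mul_sum]

end Core

theorem core (k q m D : ℕ) (hk : 1 ≤ k) (A ρ : ℝ) (hA : 1 ≤ A) (hρ : 1 ≤ ρ) :
    ∃ M0 : ℕ, ∀ M : ℕ, M0 ≤ M → ∀ (p : Fin q → Fin k → ℝ × ℝ)
      (b : Fin q → Fin (k - 1) → Fin k → ℝ × ℝ), (∀ l, ‖p l‖ ≤ ρ) → (∀ l i, ‖b l i‖ ≤ 1) →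
      ∀ Φ : Fin k → ℕ → ℕ → ℝ → ℝ → ℂ,
        (∀ i n j, n ≤ M ^ (2 * k) → Ex (D * M ^ (2 * k)) (A ^ (M ^ (2 * k))) (Φ i n j)) →
        ∃ x : (Fin k → Fin (M ^ (2 * k) + 1)) → ℤ, x ≠ 0 ∧
          (∀ n, |((x n : ℤ) : ℝ)| ≤ Real.exp ((M : ℝ) ^ (2 * k))) ∧
          ∀ (l : Fin q) (y : Fin (k - 1) → ℝ), (∀ i, |y i| ≤ ρ) → ∀ v : Fin k → ℝ × ℝ,
            ‖v - p l - ∑ i, y i • b l i‖ ≤ Real.exp (-(3 * (M : ℝ) ^ (2 * k + 1))) →
            ∀ j : Fin k → Fin m,
              ‖∑ n, (x n : ℂ) * ∏ i, Φ i (n i : ℕ) (j i : ℕ) (ee (v i).1) (ee (v i).2)‖ ≤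
                Real.exp (-((M : ℝ) ^ (2 * k + 1) / 2)) := by
  classical
  obtain ⟨M0, hM0⟩ := Core.numeric k q m D hk A ρ hA hρ
  refine ⟨M0, fun M hM p b hp hb Φ hΦ => ?_⟩
  obtain ⟨N, hN⟩ : ∃ N, N = M ^ (2 * k) := ⟨_, rfl⟩
  obtain ⟨T, hT⟩ : ∃ T, T = M ^ (2 * k + 1) := ⟨_, rfl⟩
  obtain ⟨hN1, hT1, hcount, hδ, hnum⟩ := hM0 M hM N T hN hT
  have hNR : (M : ℝ) ^ (2 * k) = N := by rw [hN]; push_cast; rfl
  have hTR : (M : ℝ) ^ (2 * k + 1) = T := by rw [hT]; push_cast; rfl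
  rw [hNR, hTR]
  rw [← hN] at hΦ ⊢
  obtain ⟨Γ, hΓ, hexp⟩ := Core.prod_expand (L := D * N) hk m N A hA Φ hΦ
  have TR : (1 : ℝ) ≤ T := by exact_mod_cast hT1
  set W : ℝ := A ^ (k * N) * Real.exp (k * (4 * k * ((D * N : ℕ) : ℝ) * ρ)) with hWdef
  have hW0 : 0 < W := by positivity
  -- real and imaginary parts
  let G : Bool → (Fin k → Fin m) → (Fin k → Fin (D * N + 1) × Fin (D * N + 1)) →
      (Fin k → Fin (N + 1)) → ℝ := fun s j c n => if s then (Γ j c n).re else (Γ j c n).im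
  have hG : ∀ s j n, ∑ c, |G s j c n| ≤ A ^ (k * N) := by
    intro s j n
    refine le_trans (Finset.sum_le_sum fun c _ => ?_) (hΓ j n)
    cases s
    · exact Complex.abs_im_le_norm _
    · exact Complex.abs_re_le_norm _
  -- the forms
  let a : Fin q × (Fin k → Fin m) × Bool × (Fin (k - 1) → Fin T) → (Fin k → Fin (N + 1)) → ℝ :=
    fun j n => ∑ c, G j.2.2.1 j.2.1 c n * (Real.exp (2 * TE.dot c (p j.1)) *
      ∏ i, ((2 * ρ * TE.dot c (b j.1 i)) ^ (j.2.2.2 i : ℕ) / ((j.2.2.2 i : ℕ).factorial : ℝ)))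
  have hW : ∀ j n, |a j n| ≤ W := fun j n =>
    Core.form_bound ρ hρ (fun c => G j.2.2.1 j.2.1 c n) _ (hG _ _ _) (p j.1) (hp _) (k - 1)
      (Nat.sub_add_cancel hk) (b j.1) (hb _) (fun i => (j.2.2.2 i : ℕ))
  obtain ⟨H, hH⟩ : ∃ H : ℕ, H = ⌊Real.exp N⌋₊ := ⟨_, rfl⟩
  obtain ⟨L, hL⟩ : ∃ L : ℕ, L = ⌈Real.exp (2 * T)⌉₊ := ⟨_, rfl⟩
  have hHle : (H : ℝ) ≤ Real.exp N := by rw [hH]; exact Nat.floor_le (Real.exp_pos _).le
  have hHlt : Real.exp N < H + 1 := by rw [hH]; exact Nat.lt_floor_add_one _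
  have hLge : Real.exp (2 * T) ≤ L := by rw [hL]; exact Nat.le_ceil _
  have hLle : (L : ℝ) ≤ Real.exp (3 * T) := by
    have h1 : (L : ℝ) < Real.exp (2 * T) + 1 := by
      rw [hL]; exact Nat.ceil_lt_add_one (Real.exp_pos _).le
    have h2 : Real.exp (3 * (T : ℝ)) = Real.exp T * Real.exp (2 * T) := by
      rw [← Real.exp_add]; congr 1; ring
    have h3 : 2 ≤ Real.exp (T : ℝ) := by have := Real.add_one_le_exp (T : ℝ); linarith
    have h4 : 1 ≤ Real.exp (2 * (T : ℝ)) := Real.one_le_exp (by positivity)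
    rw [h2]
    nlinarith
  have hL0 : 0 < L := by
    have : (0 : ℝ) < L := (Real.exp_pos _).trans_le hLge
    exact_mod_cast this
  have hcn : Fintype.card (Fin k → Fin (N + 1)) = (N + 1) ^ k := by
    simp
  have hc : L ^ Fintype.card (Fin q × (Fin k → Fin m) × Bool × (Fin (k - 1) → Fin T)) <
      (H + 1) ^ Fintype.card (Fin k → Fin (N + 1)) := by
    have hcJ : Fintype.card (Fin q × (Fin k → Fin m) × Bool × (Fin (k - 1) → Fin T)) =
        q * (m ^ k * (2 * T ^ (k - 1))) := by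
      simp
    rw [hcJ, hcn]
    have h1 : (L : ℝ) ^ (q * (m ^ k * (2 * T ^ (k - 1)))) ≤ Real.exp ((N : ℝ) ^ (k + 1)) := by
      calc (L : ℝ) ^ (q * (m ^ k * (2 * T ^ (k - 1)))) ≤
            (Real.exp (3 * T)) ^ (q * (m ^ k * (2 * T ^ (k - 1)))) := by gcongr
        _ = Real.exp (((3 * (2 * q * m ^ k) * T ^ k : ℕ) : ℝ)) := by
            rw [← Real.exp_nat_mul]
            congr 1
            have : T ^ k = T ^ (k - 1) * T := by
              rw [← pow_succ, Nat.sub_add_cancel hk]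
            rw [this]
            push_cast
            ring
        _ ≤ Real.exp ((N : ℝ) ^ (k + 1)) := by
            apply Real.exp_le_exp.2
            exact_mod_cast hcount
    have h2 : Real.exp ((N : ℝ) ^ (k + 1)) < ((H : ℝ) + 1) ^ ((N + 1) ^ k) := by
      calc Real.exp ((N : ℝ) ^ (k + 1)) = (Real.exp N) ^ (N ^ k) := by
            rw [← Real.exp_nat_mul]; congr 1; push_cast; ring
        _ ≤ (Real.exp N) ^ ((N + 1) ^ k) := by
            apply pow_le_pow_right₀ (Real.one_le_exp (by positivity))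
            exact Nat.pow_le_pow_left (Nat.le_succ N) k
        _ < ((H : ℝ) + 1) ^ ((N + 1) ^ k) := by
            apply pow_lt_pow_left₀ hHlt (Real.exp_pos _).le
            exact (pow_pos (Nat.succ_pos N) k).ne'
    have h3 := h1.trans_lt h2
    exact_mod_cast h3
  obtain ⟨x, hx0, hxH, hxa⟩ := pigeon a W hW H L hL0 hc
  have hxH' : ∀ n, |((x n : ℤ) : ℝ)| ≤ H := fun n => by exact_mod_cast hxH n
  refine ⟨x, hx0, fun n => (hxH' n).trans hHle, ?_⟩
  intro l y hy v hnear j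
  set e : Fin k → ℝ × ℝ := v - p l - ∑ i, y i • b l i with he
  have hve : v = p l + ∑ i, y i • b l i + e := by rw [he]; abel
  set δ : ℝ := Real.exp (-(3 * (T : ℝ))) with hδd
  set Z : ℝ := 2 * (N + 1) ^ k * W * H / L with hZ
  set X : ℝ := (T : ℝ) ^ (k - 1) * Z + (N + 1) ^ k * H * (A ^ (k * N) *
        (Real.exp (k * (4 * k * ((D * N : ℕ) : ℝ) * ρ)) *
          (k * ((4 * k * ((D * N : ℕ) : ℝ) * ρ) ^ T / T.factorial) +
          8 * k * ((D * N : ℕ) : ℝ) * δ))) with hX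
  have hA' : ∀ s, |∑ n, (x n : ℝ) * ∑ c, G s j c n * Real.exp (2 * TE.dot c v)| ≤ X := by
    intro s
    have h := Core.main_bound hk ρ hρ T (fun c n => G s j c n) (A ^ (k * N))
      (fun n => hG s j n) (p l) (hp l) (b l) (hb l) y hy e δ hnear hδ x H (Nat.cast_nonneg _)
      hxH' Z (by
        intro α
        have h := hxa (l, j, s, α)
        rw [hcn] at h
        push_cast at h
        exact h)
    rw [← hve, hcn] at h
    push_cast at h
    rw [hX]
    push_cast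
    exact h
  have hval : ∑ n, (x n : ℂ) * ∏ i, Φ i (n i : ℕ) (j i : ℕ) (ee (v i).1) (ee (v i).2) =
      ((∑ n, (x n : ℝ) * ∑ c, G true j c n * Real.exp (2 * TE.dot c v) : ℝ) : ℂ) +
      ((∑ n, (x n : ℝ) * ∑ c, G false j c n * Real.exp (2 * TE.dot c v) : ℝ) : ℂ) *
        Complex.I := by
    push_cast
    rw [Finset.sum_mul, ← Finset.sum_add_distrib]
    refine Finset.sum_congr rfl fun n _ => ?_
    rw [hexp, mul_assoc, ← mul_add, Finset.sum_mul, ← Finset.sum_add_distrib]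
    congr 1
    refine Finset.sum_congr rfl fun c _ => ?_
    have h1 : (Γ j c n) = ((G true j c n : ℝ) : ℂ) + ((G false j c n : ℝ) : ℂ) * Complex.I := by
      simp only [G, if_true, Bool.false_eq_true, if_false]
      exact (Complex.re_add_im _).symm
    rw [h1]
    push_cast
    ring
  rw [hval]
  have h3 := hnum H L (Nat.cast_nonneg _) hHle hLge
  have h4 : 2 * X ≤ Real.exp (-((T : ℝ) / 2)) := h3
  refine (norm_add_le _ _).trans ?_
  rw [norm_mul, Complex.norm_I, mul_one, Complex.norm_real, Complex.norm_real,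
    Real.norm_eq_abs, Real.norm_eq_abs]
  have h5 := hA' true
  have h6 := hA' false
  linarith

end Pool.Agent.PT
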