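import Pool.Agent.Lib.MP_c95b3b_ag_PT.Red
import Pool.Agent.Lib.MP_c95b3b_ag_PT.Core
import Pool.Agent.Lib.MP_c95b3b_ag_L3.TG

/-! MP_c95b3b_ag, project (P), block (T), module Cell: Theorem T for one cell. -/

set_option autoImplicit false

noncomputable section

namespace Pool.Agent.PT

open Polynomial Finset Pool.Agent.L3

namespace Cell

theorem ex_bound {L : ℕ} {A : ℝ} {F : ℝ → ℝ → ℂ} (h : Ex L A F) {R s t : ℝ} (hR : 1 ≤ R)
    (hs : |s| ≤ R) (ht : |t| ≤ R) : ‖F s t‖ ≤ A * R ^ (2 * L) := by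
  obtain ⟨γ, hγ, hF⟩ := h
  rw [hF]
  refine (norm_sum_le _ _).trans ?_
  have h1 : ∀ c : Fin (L + 1) × Fin (L + 1),
      ‖γ c * (s : ℂ) ^ (c.1 : ℕ) * (t : ℂ) ^ (c.2 : ℕ)‖ ≤ ‖γ c‖ * R ^ (2 * L) := by
    intro c
    rw [norm_mul, norm_mul, norm_pow, norm_pow, Complex.norm_real, Complex.norm_real,
      Real.norm_eq_abs, Real.norm_eq_abs, mul_assoc, two_mul, pow_add]
    have h2 : |s| ^ (c.1 : ℕ) ≤ R ^ L :=
      (pow_le_pow_left₀ (abs_nonneg _) hs _).trans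
        (pow_le_pow_right₀ hR (Nat.lt_succ_iff.mp c.1.2))
    have h3 : |t| ^ (c.2 : ℕ) ≤ R ^ L :=
      (pow_le_pow_left₀ (abs_nonneg _) ht _).trans
        (pow_le_pow_right₀ hR (Nat.lt_succ_iff.mp c.2.2))
    refine mul_le_mul_of_nonneg_left ?_ (norm_nonneg _)
    exact mul_le_mul h2 h3 (by positivity) (by positivity)
  refine (sum_le_sum fun c _ => h1 c).trans ?_
  rw [← sum_mul]
  exact mul_le_mul_of_nonneg_right hγ (by positivity)

/-- bound for the roots -/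
theorem root_bound {m : ℕ} (hm : 1 ≤ m) {a u : ℂ} {b : ℕ → ℂ} {δ C : ℝ} (hδ : 0 < δ)
    (ha : δ ≤ ‖a‖) (hb : ∀ j ∈ range m, ‖b j‖ ≤ C) (h : a * u ^ m = ∑ j ∈ range m, b j * u ^ j) :
    ‖u‖ ≤ max 1 (m * C / δ) := by
  rcases le_total ‖u‖ 1 with hu | hu
  · exact hu.trans (le_max_left _ _)
  · refine le_trans ?_ (le_max_right _ _)
    rw [le_div_iff₀ hδ]
    obtain ⟨n, rfl⟩ : ∃ n, m = n + 1 := ⟨m - 1, by omega⟩
    have hu0 : 0 < ‖u‖ := lt_of_lt_of_le one_pos hu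
    have h1 : ‖a‖ * ‖u‖ ^ (n + 1) ≤ ((n + 1 : ℕ) : ℝ) * C * ‖u‖ ^ n := by
      rw [← norm_pow, ← norm_mul, h]
      refine (norm_sum_le _ _).trans ?_
      have h2 : ∀ j ∈ range (n + 1), ‖b j * u ^ j‖ ≤ C * ‖u‖ ^ n := by
        intro j hj
        rw [norm_mul, norm_pow]
        have h3 : ‖u‖ ^ j ≤ ‖u‖ ^ n := pow_le_pow_right₀ hu (Nat.lt_succ_iff.mp (mem_range.mp hj))
        exact mul_le_mul (hb j hj) h3 (by positivity) ((norm_nonneg _).trans (hb j hj))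
      refine (sum_le_sum h2).trans ?_
      rw [sum_const, card_range, nsmul_eq_mul, mul_assoc]
    rw [pow_succ, ← mul_assoc] at h1
    have h4 : ‖a‖ * ‖u‖ ≤ ((n + 1 : ℕ) : ℝ) * C := by
      have h5 : ‖a‖ * ‖u‖ * ‖u‖ ^ n ≤ ((n + 1 : ℕ) : ℝ) * C * ‖u‖ ^ n := by
        calc ‖a‖ * ‖u‖ * ‖u‖ ^ n = ‖a‖ * ‖u‖ ^ n * ‖u‖ := by ring
          _ ≤ _ := h1
      exact le_of_mul_le_mul_right h5 (by positivity)
    calc ‖u‖ * δ ≤ ‖u‖ * ‖a‖ := mul_le_mul_of_nonneg_left ha hu0.le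
      _ = ‖a‖ * ‖u‖ := mul_comm _ _
      _ ≤ _ := h4

variable {k : ℕ}

/-- the value of the auxiliary polynomial -/
def qv (N : ℕ) (c : Fin k → ℕ) (q : (Fin k → Fin (N + 1)) → ℤ) {K : Type} [Field K]
    (x : Fin k → K) : K :=
  ∑ n, (q n : K) * ∏ i, (x i - (c i : K)) ^ (N - (n i : ℕ))

/-- the auxiliary polynomial -/
def qp (N : ℕ) (c : Fin k → ℕ) (q : (Fin k → Fin (N + 1)) → ℤ) : MvPolynomial (Fin k) ℤ :=
  ∑ n, MvPolynomial.C (q n) * ∏ i, (MvPolynomial.X i - MvPolynomial.C (c i : ℤ)) ^ (N - (n i : ℕ))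

theorem aeval_qp (N : ℕ) (c : Fin k → ℕ) (q : (Fin k → Fin (N + 1)) → ℤ) {K : Type} [Field K]
    (x : Fin k → K) : MvPolynomial.aeval x (qp N c q) = qv N c q x := by
  unfold qp qv
  rw [map_sum]
  refine sum_congr rfl fun n _ => ?_
  rw [map_mul, map_prod]
  simp

theorem qp_ne_zero (N : ℕ) (c : Fin k → ℕ) (q : (Fin k → Fin (N + 1)) → ℤ) (hq : q ≠ 0) :
    qp N c q ≠ 0 := by
  classical
  intro h
  have h1 : MvPolynomial.aeval (fun i => (MvPolynomial.X i + MvPolynomial.C (c i : ℤ) :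
      MvPolynomial (Fin k) ℤ)) (qp N c q) = 0 := by rw [h, map_zero]
  have h2 : MvPolynomial.aeval (fun i => (MvPolynomial.X i + MvPolynomial.C (c i : ℤ) :
      MvPolynomial (Fin k) ℤ)) (qp N c q) =
      ∑ n, MvPolynomial.C (q n) * ∏ i, (MvPolynomial.X i) ^ (N - (n i : ℕ)) := by
    unfold qp
    rw [map_sum]
    refine sum_congr rfl fun n _ => ?_
    rw [map_mul, map_prod]
    congr 1
    · simp
    · refine prod_congr rfl fun i _ => ?_
      rw [map_pow, map_sub, MvPolynomial.aeval_X]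
      congr 1
      simp
  rw [h2] at h1
  obtain ⟨n0, hn0⟩ := Function.ne_iff.1 hq
  apply hn0
  have h3 := congrArg (MvPolynomial.coeff
    (Finsupp.equivFunOnFinite.symm fun i => N - (n0 i : ℕ))) h1
  rw [MvPolynomial.coeff_sum, MvPolynomial.coeff_zero, sum_eq_single n0] at h3
  · rw [MvPolynomial.coeff_C_mul] at h3
    have h4 : (∏ i, (MvPolynomial.X i : MvPolynomial (Fin k) ℤ) ^ (N - (n0 i : ℕ))) =
        MvPolynomial.monomial (Finsupp.equivFunOnFinite.symm fun i => N - (n0 i : ℕ)) 1 := by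
      rw [MvPolynomial.monomial_eq, Finsupp.prod_fintype]
      · simp
      · intro i
        simp
    rw [h4, MvPolynomial.coeff_monomial, if_pos rfl, mul_one] at h3
    simpa using h3
  · intro n _ hn
    rw [MvPolynomial.coeff_C_mul]
    have h4 : (∏ i, (MvPolynomial.X i : MvPolynomial (Fin k) ℤ) ^ (N - (n i : ℕ))) =
        MvPolynomial.monomial (Finsupp.equivFunOnFinite.symm fun i => N - (n i : ℕ)) 1 := by
      rw [MvPolynomial.monomial_eq, Finsupp.prod_fintype]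
      · simp
      · intro i
        simp
    rw [h4, MvPolynomial.coeff_monomial, if_neg, mul_zero]
    intro h5
    apply hn
    funext i
    have h6 := congrArg (fun z : Fin k →₀ ℕ => z i) h5
    simp only [Finsupp.equivFunOnFinite_symm_apply_apply] at h6
    have h7 := (n i).2
    have h8 := (n0 i).2
    exact Fin.ext (by omega)
  · intro h
    exact absurd (mem_univ _) h

theorem map_qv (N : ℕ) (c : Fin k → ℕ) (q : (Fin k → Fin (N + 1)) → ℤ) {K L : Type} [Field K]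
    [Field L] (σ : K →+* L) (x : Fin k → K) : σ (qv N c q x) = qv N c q (fun i => σ (x i)) := by
  unfold qv
  rw [map_sum]
  refine sum_congr rfl fun n _ => ?_
  rw [map_mul, map_prod, map_intCast]
  simp

theorem qv_mem (N : ℕ) (c : Fin k → ℕ) (q : (Fin k → Fin (N + 1)) → ℤ) {K : Type} [Field K]
    {R : Subring K} {x : Fin k → K} (hx : ∀ i, x i ∈ R) : qv N c q x ∈ R := by
  unfold qv
  exact R.sum_mem fun n _ => R.mul_mem (intCast_mem R _) (R.prod_mem fun i _ =>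
    R.pow_mem (R.sub_mem (hx i) (natCast_mem R _)) _)

/-- the archimedean bound -/
theorem qv_arch (N : ℕ) (c : Fin k → ℕ) (q : (Fin k → Fin (N + 1)) → ℤ) (H E : ℝ) (hE : 1 ≤ E)
    (hH : ∀ n, |((q n : ℤ) : ℝ)| ≤ H) (hc : ∀ i, 1 + (c i : ℝ) ≤ E) (x : Fin k → ℂ) :
    ‖qv N c q x‖ ≤ ((N : ℝ) + 1) ^ k * H * (E ^ (k * N) * ∏ i, max 1 ‖x i‖ ^ N) := by
  have hH0 : 0 ≤ H := (abs_nonneg _).trans (hH 0)
  unfold qv
  refine (norm_sum_le _ _).trans ?_
  have h1 : ∀ n : Fin k → Fin (N + 1), ‖((q n : ℤ) : ℂ) *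
      ∏ i, (x i - ((c i : ℕ) : ℂ)) ^ (N - (n i : ℕ))‖ ≤
      H * (E ^ (k * N) * ∏ i, max 1 ‖x i‖ ^ N) := by
    intro n
    rw [norm_mul, Complex.norm_intCast, norm_prod]
    refine mul_le_mul (hH n) ?_ (prod_nonneg fun i _ => norm_nonneg _) hH0
    have h2 : E ^ (k * N) * ∏ i, max 1 ‖x i‖ ^ N = ∏ i, (E * max 1 ‖x i‖) ^ N := by
      simp only [mul_pow]
      rw [prod_mul_distrib, prod_const, card_univ, Fintype.card_fin, ← pow_mul, mul_comm N k]
    rw [h2]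
    refine prod_le_prod (fun i _ => norm_nonneg _) fun i _ => ?_
    rw [norm_pow]
    have h3 : ‖x i - ((c i : ℕ) : ℂ)‖ ≤ E * max 1 ‖x i‖ := by
      have h4 := norm_sub_le (x i) ((c i : ℕ) : ℂ)
      rw [Complex.norm_natCast] at h4
      have h5 : (1 : ℝ) ≤ max 1 ‖x i‖ := le_max_left _ _
      have h6 : ‖x i‖ ≤ max 1 ‖x i‖ := le_max_right _ _
      have h7 : (0 : ℝ) ≤ c i := Nat.cast_nonneg _
      calc ‖x i - ((c i : ℕ) : ℂ)‖ ≤ ‖x i‖ + c i := h4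
        _ ≤ max 1 ‖x i‖ + c i * max 1 ‖x i‖ := by
            nlinarith
        _ = (1 + c i) * max 1 ‖x i‖ := by ring
        _ ≤ E * max 1 ‖x i‖ := mul_le_mul_of_nonneg_right (hc i) (by linarith)
    have h8 : 1 ≤ E * max 1 ‖x i‖ := by
      have h5 : (1 : ℝ) ≤ max 1 ‖x i‖ := le_max_left _ _
      nlinarith
    calc ‖x i - ((c i : ℕ) : ℂ)‖ ^ (N - (n i : ℕ)) ≤ (E * max 1 ‖x i‖) ^ (N - (n i : ℕ)) :=
          pow_le_pow_left₀ (norm_nonneg _) h3 _
      _ ≤ (E * max 1 ‖x i‖) ^ N := pow_le_pow_right₀ h8 (Nat.sub_le _ _)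
  refine (sum_le_sum fun n _ => h1 n).trans ?_
  rw [sum_const, card_univ, Fintype.card_fun, Fintype.card_fin, Fintype.card_fin, nsmul_eq_mul]
  push_cast
  rw [mul_assoc]

theorem qv_nonarch (N : ℕ) (c : Fin k → ℕ) (q : (Fin k → Fin (N + 1)) → ℤ) {K : Type} [Field K]
    {R : Subring K} (P : Places K R) (j : Fin P.m) (x : Fin k → K) :
    P.v j (qv N c q x) ≤ ∏ i, max 1 (P.v j (x i)) ^ N := by
  have hP : 0 ≤ ∏ i, max 1 (P.v j (x i)) ^ N := prod_nonneg fun i _ => by positivity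
  unfold qv
  refine P.v_sum_le j _ _ hP fun n _ => ?_
  rw [map_mul, map_prod]
  have h1 : ∏ i, P.v j ((x i - (c i : K)) ^ (N - (n i : ℕ))) ≤ ∏ i, max 1 (P.v j (x i)) ^ N := by
    refine prod_le_prod (fun i _ => (P.v j).nonneg _) fun i _ => ?_
    rw [map_pow]
    have h2 : P.v j (x i - (c i : K)) ≤ max 1 (P.v j (x i)) := by
      rw [sub_eq_add_neg]
      refine (P.nonarch j _ _).trans ?_
      rw [AbsoluteValue.map_neg]
      exact max_le (le_max_right _ _) ((P.v_nat j _).trans (le_max_left _ _))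
    calc P.v j (x i - (c i : K)) ^ (N - (n i : ℕ)) ≤ max 1 (P.v j (x i)) ^ (N - (n i : ℕ)) :=
          pow_le_pow_left₀ ((P.v j).nonneg _) h2 _
      _ ≤ max 1 (P.v j (x i)) ^ N := pow_le_pow_right₀ (le_max_left _ _) (Nat.sub_le _ _)
  calc P.v j ((q n : ℤ) : K) * ∏ i, P.v j ((x i - (c i : K)) ^ (N - (n i : ℕ)))
      ≤ 1 * ∏ i, max 1 (P.v j (x i)) ^ N :=
        mul_le_mul (P.v_int j _) h1 (prod_nonneg fun i _ => (P.v j).nonneg _) zero_le_one
    _ = _ := one_mul _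

theorem lg_qv {K : Type} [Field K] {R : Subring K} (P : Places K R) (N : ℕ) (c : Fin k → ℕ)
    (q : (Fin k → Fin (N + 1)) → ℤ) (κ : ℝ) (hκ : 0 ≤ κ)
    (hH : ∀ n, |((q n : ℤ) : ℝ)| ≤ Real.exp N) (hc : ∀ i, 1 + (c i : ℝ) ≤ Real.exp κ)
    (x : Fin k → K) (hne : qv N c q x ≠ 0) (w : P.Pl) :
    P.lg w (qv N c q x) ≤ (k * Real.log (N + 1) + N + k * N * κ) * P.arch w +
      N * ∑ i, |P.lg w (x i)| := by
  rcases w with j | j
  · rw [P.lg_inl, P.arch_inl, mul_one]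
    have h0 : 0 < ‖P.σ j (qv N c q x)‖ := norm_pos_iff.mpr ((map_ne_zero (P.σ j)).mpr hne)
    have h1 := qv_arch N c q (Real.exp N) (Real.exp κ) (Real.one_le_exp hκ) hH hc
      (fun i => P.σ j (x i))
    rw [← map_qv] at h1
    have h2 := Real.log_le_log h0 h1
    have hP : 0 < ∏ i, max 1 ‖P.σ j (x i)‖ ^ N := prod_pos fun i _ => by positivity
    rw [Real.log_mul (by positivity) (by positivity), Real.log_mul (by positivity) (by positivity),
      Real.log_mul (by positivity) hP.ne', Real.log_pow, Real.log_pow, Real.log_exp, Real.log_exp,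
      TG.log_prod_max] at h2
    push_cast at h2
    have h3 : (N : ℝ) * ∑ i, Real.log (max 1 ‖P.σ j (x i)‖) ≤
        N * ∑ i, |P.lg (.inl j) (x i)| := by
      refine mul_le_mul_of_nonneg_left (sum_le_sum fun i _ => ?_) (Nat.cast_nonneg _)
      exact TG.log_max_le _
    linarith
  · rw [P.lg_inr, P.arch_inr, mul_zero, zero_add]
    have h0 : 0 < P.v j (qv N c q x) := (P.v j).pos hne
    have h2 := Real.log_le_log h0 (qv_nonarch N c q P j x)
    rw [TG.log_prod_max] at h2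
    refine h2.trans ?_
    refine mul_le_mul_of_nonneg_left (sum_le_sum fun i _ => ?_) (Nat.cast_nonneg _)
    exact TG.log_max_le _

/-- the value in terms of `u = 1 / (x - c)` -/
theorem qv_eq (N m : ℕ) (c : Fin k → ℕ) (q : (Fin k → Fin (N + 1)) → ℤ) (x a : Fin k → ℂ)
    (hx : ∀ i, x i ≠ (c i : ℂ)) (Φ : Fin k → ℕ → ℕ → ℂ)
    (hΦ : ∀ i, ∀ n ≤ N, a i ^ N * ((x i - (c i : ℂ))⁻¹) ^ n =
      ∑ j ∈ range m, Φ i n j * ((x i - (c i : ℂ))⁻¹) ^ j) :
    (∏ i, a i ^ N) * qv N c q x = (∏ i, (x i - (c i : ℂ)) ^ N) *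
      ∑ j : Fin k → Fin m, (∏ i, ((x i - (c i : ℂ))⁻¹) ^ (j i : ℕ)) *
        ∑ n, (q n : ℂ) * ∏ i, Φ i (n i : ℕ) (j i : ℕ) := by
  have h1 : ∀ n : Fin k → Fin (N + 1), (∏ i, a i ^ N) *
      (((q n : ℤ) : ℂ) * ∏ i, (x i - (c i : ℂ)) ^ (N - (n i : ℕ))) =
      (∏ i, (x i - (c i : ℂ)) ^ N) * ∑ j : Fin k → Fin m,
        (∏ i, ((x i - (c i : ℂ))⁻¹) ^ (j i : ℕ)) *
          (((q n : ℤ) : ℂ) * ∏ i, Φ i (n i : ℕ) (j i : ℕ)) := by
    intro n
    have h2 : ∀ i, (x i - (c i : ℂ)) ^ (N - (n i : ℕ)) =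
        (x i - (c i : ℂ)) ^ N * ((x i - (c i : ℂ))⁻¹) ^ (n i : ℕ) := by
      intro i
      have h3 : x i - (c i : ℂ) ≠ 0 := sub_ne_zero.mpr (hx i)
      have h4 := (n i).2
      rw [inv_pow, pow_sub₀ _ h3 (by omega)]
    have h3 : ∏ i, ∑ j ∈ range m, Φ i (n i : ℕ) j * ((x i - (c i : ℂ))⁻¹) ^ j =
        ∑ j : Fin k → Fin m, ∏ i, (Φ i (n i : ℕ) (j i : ℕ) *
          ((x i - (c i : ℂ))⁻¹) ^ (j i : ℕ)) := by
      have h4 : ∀ i, ∑ j ∈ range m, Φ i (n i : ℕ) j * ((x i - (c i : ℂ))⁻¹) ^ j =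
          ∑ j : Fin m, Φ i (n i : ℕ) (j : ℕ) * ((x i - (c i : ℂ))⁻¹) ^ (j : ℕ) := by
        intro i
        exact sum_range (fun j => Φ i (n i : ℕ) j * ((x i - (c i : ℂ))⁻¹) ^ j)
      simp only [h4]
      rw [prod_univ_sum, Fintype.piFinset_univ]
    calc (∏ i, a i ^ N) * (((q n : ℤ) : ℂ) * ∏ i, (x i - (c i : ℂ)) ^ (N - (n i : ℕ)))
        = (∏ i, (x i - (c i : ℂ)) ^ N) * (((q n : ℤ) : ℂ) *
            ∏ i, (a i ^ N * ((x i - (c i : ℂ))⁻¹) ^ (n i : ℕ))) := by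
          simp only [h2]
          rw [prod_mul_distrib, prod_mul_distrib]
          ring
      _ = (∏ i, (x i - (c i : ℂ)) ^ N) * (((q n : ℤ) : ℂ) *
            ∑ j : Fin k → Fin m, ∏ i, (Φ i (n i : ℕ) (j i : ℕ) *
              ((x i - (c i : ℂ))⁻¹) ^ (j i : ℕ))) := by
          rw [← h3]
          congr 2
          refine prod_congr rfl fun i _ => ?_
          exact hΦ i _ (Nat.lt_succ_iff.mp (n i).2)
      _ = _ := by
          congr 1
          rw [mul_sum]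
          refine sum_congr rfl fun j _ => ?_
          rw [prod_mul_distrib]
          ring
  unfold qv
  rw [mul_sum, sum_congr rfl (fun n _ => h1 n), ← mul_sum, sum_comm]
  congr 1
  refine sum_congr rfl fun j _ => ?_
  rw [mul_sum]

/-- the values at the archimedean places are small -/
theorem small (hk : 1 ≤ k) (m M N : ℕ) (hm : 1 ≤ m) (hN : 1 ≤ N) (κ : ℝ) (hκ : 0 ≤ κ)
    (hM : 4 * κ * (3 * k + k * m) ≤ M) (c : Fin k → ℕ)
    (q : (Fin k → Fin (N + 1)) → ℤ) (x a : Fin k → ℂ)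
    (hx : ∀ i, x i ≠ (c i : ℂ)) (Φ : Fin k → ℕ → ℕ → ℂ)
    (hΦ : ∀ i, ∀ n ≤ N, a i ^ N * ((x i - (c i : ℂ))⁻¹) ^ n =
      ∑ j ∈ range m, Φ i n j * ((x i - (c i : ℂ))⁻¹) ^ j)
    (ha : ∀ i, Real.exp (-κ) ≤ ‖a i‖) (hxc : ∀ i, ‖x i - (c i : ℂ)‖ ≤ Real.exp κ)
    (hu : ∀ i, ‖(x i - (c i : ℂ))⁻¹‖ ≤ Real.exp κ) (hmκ : (m : ℝ) ≤ Real.exp κ)
    (hs : ∀ j : Fin k → Fin m, ‖∑ n, (q n : ℂ) * ∏ i, Φ i (n i : ℕ) (j i : ℕ)‖ ≤
      Real.exp (-((M * N : ℝ) / 2))) :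
    ‖qv N c q x‖ ≤ Real.exp (-((M * N : ℝ) / 4)) := by
  have h1 := congrArg norm (qv_eq N m c q x a hx Φ hΦ)
  rw [norm_mul, norm_mul, norm_prod, norm_prod] at h1
  have h2 : Real.exp (-(k * N * κ)) ≤ ∏ i, ‖a i ^ N‖ := by
    have h3 : Real.exp (-(k * N * κ)) = ∏ _i : Fin k, (Real.exp (-κ)) ^ N := by
      rw [prod_const, card_univ, Fintype.card_fin, ← pow_mul, ← Real.exp_nat_mul]
      congr 1
      push_cast
      ring
    rw [h3]
    refine prod_le_prod (fun i _ => by positivity) fun i _ => ?_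
    rw [norm_pow]
    exact pow_le_pow_left₀ (Real.exp_pos _).le (ha i) _
  have h3 : ∏ i, ‖(x i - (c i : ℂ)) ^ N‖ ≤ Real.exp (k * N * κ) := by
    have h4 : Real.exp (k * N * κ) = ∏ _i : Fin k, (Real.exp κ) ^ N := by
      rw [prod_const, card_univ, Fintype.card_fin, ← pow_mul, ← Real.exp_nat_mul]
      congr 1
      push_cast
      ring
    rw [h4]
    refine prod_le_prod (fun i _ => norm_nonneg _) fun i _ => ?_
    rw [norm_pow]
    exact pow_le_pow_left₀ (norm_nonneg _) (hxc i) _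
  have h4 : ‖∑ j : Fin k → Fin m, (∏ i, ((x i - (c i : ℂ))⁻¹) ^ (j i : ℕ)) *
        ∑ n, (q n : ℂ) * ∏ i, Φ i (n i : ℕ) (j i : ℕ)‖ ≤
      Real.exp (k * κ) * (Real.exp (k * m * κ) * Real.exp (-((M * N : ℝ) / 2))) := by
    refine (norm_sum_le _ _).trans ?_
    have h5 : ∀ j : Fin k → Fin m, ‖(∏ i, ((x i - (c i : ℂ))⁻¹) ^ (j i : ℕ)) *
        ∑ n, (q n : ℂ) * ∏ i, Φ i (n i : ℕ) (j i : ℕ)‖ ≤
        Real.exp (k * m * κ) * Real.exp (-((M * N : ℝ) / 2)) := by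
      intro j
      rw [norm_mul, norm_prod]
      refine mul_le_mul ?_ (hs j) (norm_nonneg _) (Real.exp_pos _).le
      have h6 : Real.exp (k * m * κ) = ∏ _i : Fin k, (Real.exp κ) ^ m := by
        rw [prod_const, card_univ, Fintype.card_fin, ← pow_mul, ← Real.exp_nat_mul]
        congr 1
        push_cast
        ring
      rw [h6]
      refine prod_le_prod (fun i _ => norm_nonneg _) fun i _ => ?_
      rw [norm_pow]
      calc ‖(x i - (c i : ℂ))⁻¹‖ ^ (j i : ℕ) ≤ (Real.exp κ) ^ (j i : ℕ) :=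
            pow_le_pow_left₀ (norm_nonneg _) (hu i) _
        _ ≤ (Real.exp κ) ^ m := pow_le_pow_right₀ (Real.one_le_exp hκ) (j i).2.le
    refine (sum_le_sum fun j _ => h5 j).trans ?_
    rw [sum_const, card_univ, Fintype.card_fun, Fintype.card_fin, Fintype.card_fin,
      nsmul_eq_mul]
    refine mul_le_mul_of_nonneg_right ?_ (by positivity)
    push_cast
    rw [Real.exp_nat_mul]
    exact pow_le_pow_left₀ (Nat.cast_nonneg _) hmκ _
  have h5 : Real.exp (-(k * N * κ)) * ‖qv N c q x‖ ≤ Real.exp (k * N * κ) *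
      (Real.exp (k * κ) * (Real.exp (k * m * κ) * Real.exp (-((M * N : ℝ) / 2)))) := by
    calc Real.exp (-(k * N * κ)) * ‖qv N c q x‖ ≤ (∏ i, ‖a i ^ N‖) * ‖qv N c q x‖ :=
          mul_le_mul_of_nonneg_right h2 (norm_nonneg _)
      _ = _ := h1
      _ ≤ _ := mul_le_mul h3 h4 (norm_nonneg _) (Real.exp_pos _).le
  have h6 : ‖qv N c q x‖ ≤ Real.exp (k * N * κ) * (Real.exp (k * N * κ) *
      (Real.exp (k * κ) * (Real.exp (k * m * κ) * Real.exp (-((M * N : ℝ) / 2))))) := by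
    have h7 : ‖qv N c q x‖ = Real.exp (k * N * κ) * (Real.exp (-(k * N * κ)) *
        ‖qv N c q x‖) := by
      rw [← mul_assoc, ← Real.exp_add, add_neg_cancel, Real.exp_zero, one_mul]
    rw [h7]
    exact mul_le_mul_of_nonneg_left h5 (Real.exp_pos _).le
  refine h6.trans ?_
  simp only [← Real.exp_add]
  apply Real.exp_le_exp.2
  have hNR : (1 : ℝ) ≤ N := by exact_mod_cast hN
  have h8 : 4 * κ * (3 * k + k * m) * N ≤ M * N := mul_le_mul_of_nonneg_right hM (by linarith)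
  have h9 : (k : ℝ) * κ * 1 ≤ k * κ * N := mul_le_mul_of_nonneg_left hNR (by positivity)
  have h10 : (k : ℝ) * m * κ * 1 ≤ k * m * κ * N := mul_le_mul_of_nonneg_left hNR (by positivity)
  nlinarith

end Cell

open Cell in
theorem T_cell (k q m D : ℕ) (hk : 1 ≤ k) (hm : 1 ≤ m) (a : Fin k → ℝ → ℝ → ℂ)
    (b : Fin k → ℕ → ℝ → ℝ → ℂ) (c : Fin k → ℕ) (ha : ∀ i, ∃ A, Ex D A (a i))
    (hb : ∀ i j, ∃ A, Ex D A (b i j)) (B θ δ : ℝ) (hθ : 0 < θ) (hδ : 0 < δ) :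
    ∃ η : ℝ, 0 < η ∧ ∃ 𝒬 : Finset (MvPolynomial (Fin k) ℤ), (∀ Q ∈ 𝒬, Q ≠ 0) ∧
      ∀ (K : Type) [Field K] (R : Subring K) (P : Places K R) (x y : Fin k → K),
        (∀ i, x i ∈ R) → (∀ i, x i ≠ 0 ∧ y i ≠ 0) →
        P.avg (fun w => ∑ i, (|P.lg w (x i)| + |P.lg w (y i)|)) ≤ B →
        ∀ (p : Fin q → Fin k → ℝ × ℝ) (E : Fin q → Submodule ℝ (Fin k → ℝ × ℝ))
          (s : Finset (Fin P.D)),
          (∀ l, Module.finrank ℝ (E l) < k) → θ * P.D ≤ s.card →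
          (∀ i ∈ s, ∀ l, P.σ i (x l) ≠ (c l : ℂ) ∧
            δ ≤ ‖a l (‖P.σ i (x l)‖ ^ 2) (‖P.σ i (y l)‖ ^ 2)‖ ∧
            a l (‖P.σ i (x l)‖ ^ 2) (‖P.σ i (y l)‖ ^ 2) * ((P.σ i (x l) - (c l : ℂ))⁻¹) ^ m =
              ∑ j ∈ range m, b l j (‖P.σ i (x l)‖ ^ 2) (‖P.σ i (y l)‖ ^ 2) *
                ((P.σ i (x l) - (c l : ℂ))⁻¹) ^ j) →
          (∀ i ∈ s, ∃ l, ∃ e ∈ E l,
            ‖(fun a => (P.lg (.inl i) (x a), P.lg (.inl i) (y a))) - p l - e‖ ≤ η) →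
          ∃ Q ∈ 𝒬, MvPolynomial.aeval x Q = 0 := by
  classical
  obtain ⟨B', hB', hB1⟩ : ∃ B', B ≤ B' ∧ 1 ≤ B' := ⟨max B 1, le_max_left _ _, le_max_right _ _⟩
  have hk' : (1 : ℝ) ≤ k := by exact_mod_cast hk
  obtain ⟨lam, hlam⟩ : ∃ lam : ℝ, lam = 2 * B' / θ := ⟨_, rfl⟩
  have hlam0 : 0 < lam := by
    rw [hlam]
    positivity
  have hlamθ : lam * θ = 2 * B' := by
    rw [hlam]
    field_simp
  set ρ : ℝ := 2 * k * (2 * lam + 1) with hρ
  have hρ2 : lam ≤ ρ := by nlinarith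
  have hρ1 : 1 ≤ ρ := by nlinarith
  -- the reduction of powers
  choose A1 hA1 hA2 using fun i => pow_red m D hm (a i) (b i) (ha i) (hb i)
  obtain ⟨A, hA, hA1A⟩ : ∃ A : ℝ, 1 ≤ A ∧ ∀ i, A1 i ≤ A := by
    refine ⟨1 + ∑ i, A1 i, ?_, fun i => ?_⟩
    · have : 0 ≤ ∑ i, A1 i := sum_nonneg fun i _ => by linarith [hA1 i]
      linarith
    · have := single_le_sum (f := A1) (fun i _ => by linarith [hA1 i]) (mem_univ i)
      linarith
  -- bounds for the `b i j`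
  choose Ab hAb using hb
  obtain ⟨Cb, hCb⟩ : ∃ Cb : ℝ, ∀ i, ∀ j ∈ range m, Ab i j * (Real.exp (2 * lam)) ^ (2 * D) ≤ Cb := by
    refine ⟨∑ i, ∑ j ∈ range m, |Ab i j * (Real.exp (2 * lam)) ^ (2 * D)|, fun i j hj => ?_⟩
    calc Ab i j * (Real.exp (2 * lam)) ^ (2 * D) ≤ |Ab i j * (Real.exp (2 * lam)) ^ (2 * D)| :=
          le_abs_self _
      _ ≤ ∑ j ∈ range m, |Ab i j * (Real.exp (2 * lam)) ^ (2 * D)| :=
          single_le_sum (f := fun j => |Ab i j * (Real.exp (2 * lam)) ^ (2 * D)|)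
            (fun _ _ => abs_nonneg _) hj
      _ ≤ _ := single_le_sum (f := fun i => ∑ j ∈ range m,
            |Ab i j * (Real.exp (2 * lam)) ^ (2 * D)|)
            (fun _ _ => sum_nonneg fun _ _ => abs_nonneg _) (mem_univ i)
  -- the constant `κ`
  obtain ⟨κ, hκ0, hκδ, hκx, hκu, hκm, hκc⟩ : ∃ κ : ℝ, 0 ≤ κ ∧ Real.exp (-κ) ≤ δ ∧
      (∀ i, Real.exp lam + (c i : ℝ) ≤ Real.exp κ) ∧ max 1 (m * Cb / δ) ≤ Real.exp κ ∧
      (m : ℝ) ≤ Real.exp κ ∧ ∀ i, 1 + (c i : ℝ) ≤ Real.exp κ := by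
    obtain ⟨Y, hY⟩ : ∃ Y : ℝ, Y = 1 + δ⁻¹ + (Real.exp lam + ∑ i, (c i : ℝ)) +
        max 1 (m * Cb / δ) + m := ⟨_, rfl⟩
    have h1 : 0 < δ⁻¹ := by positivity
    have h2 : 0 ≤ ∑ i, (c i : ℝ) := sum_nonneg fun i _ => Nat.cast_nonneg _
    have h3 : (1 : ℝ) ≤ max 1 (m * Cb / δ) := le_max_left _ _
    have h4 : (0 : ℝ) ≤ m := Nat.cast_nonneg _
    have h5 : 0 < Real.exp lam := Real.exp_pos _
    have hY1 : 1 ≤ Y := by rw [hY]; linarith
    have h6 : ∀ i, (c i : ℝ) ≤ ∑ i, (c i : ℝ) := fun i =>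
      single_le_sum (f := fun i => (c i : ℝ)) (fun i _ => Nat.cast_nonneg _) (mem_univ i)
    refine ⟨Real.log Y, Real.log_nonneg hY1, ?_, ?_, ?_, ?_, ?_⟩
    · rw [Real.exp_neg, Real.exp_log (by linarith)]
      apply inv_le_of_inv_le₀ hδ
      rw [hY]
      linarith
    · intro i
      rw [Real.exp_log (by linarith), hY]
      linarith [h6 i]
    · rw [Real.exp_log (by linarith), hY]
      linarith
    · rw [Real.exp_log (by linarith), hY]
      linarith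
    · intro i
      rw [Real.exp_log (by linarith), hY]
      linarith [h6 i]
  obtain ⟨M0, hM0⟩ := core k q m D hk A ρ hA hρ1
  obtain ⟨M, hM, hM1, hMκ, hMB⟩ : ∃ M : ℕ, M0 ≤ M ∧ 1 ≤ M ∧ 4 * κ * (3 * k + k * m) ≤ M ∧
      8 * (1 + k + k * κ + B') / θ < M := by
    refine ⟨max (max M0 1) (⌈4 * κ * (3 * k + k * m)⌉₊ + ⌈8 * (1 + k + k * κ + B') / θ⌉₊ + 1),
      ?_, ?_, ?_, ?_⟩
    · exact (le_max_left _ _).trans (le_max_left _ _)
    · exact (le_max_right _ _).trans (le_max_left _ _)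
    · have h1 := Nat.le_ceil (4 * κ * (3 * (k : ℝ) + k * m))
      have h2 : ((⌈4 * κ * (3 * k + k * m)⌉₊ + ⌈8 * (1 + k + k * κ + B') / θ⌉₊ + 1 : ℕ) : ℝ) ≤
          ((max (max M0 1) (⌈4 * κ * (3 * k + k * m)⌉₊ +
            ⌈8 * (1 + k + k * κ + B') / θ⌉₊ + 1) : ℕ) : ℝ) := by
        exact_mod_cast le_max_right _ _
      have h3 : (0 : ℝ) ≤ ⌈8 * (1 + k + k * κ + B') / θ⌉₊ := Nat.cast_nonneg _
      push_cast at h2 ⊢
      linarith
    · have h1 := Nat.le_ceil (8 * (1 + (k : ℝ) + k * κ + B') / θ)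
      have h2 : ((⌈4 * κ * (3 * k + k * m)⌉₊ + ⌈8 * (1 + k + k * κ + B') / θ⌉₊ + 1 : ℕ) : ℝ) ≤
          ((max (max M0 1) (⌈4 * κ * (3 * k + k * m)⌉₊ +
            ⌈8 * (1 + k + k * κ + B') / θ⌉₊ + 1) : ℕ) : ℝ) := by
        exact_mod_cast le_max_right _ _
      have h3 : (0 : ℝ) ≤ ⌈4 * κ * (3 * k + k * m)⌉₊ := Nat.cast_nonneg _
      push_cast at h2 ⊢
      linarith
  obtain ⟨N, hN⟩ : ∃ N : ℕ, N = M ^ (2 * k) := ⟨_, rfl⟩
  have hN1 : 1 ≤ N := by rw [hN]; exact Nat.one_le_pow _ _ hM1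
  have hNR : (1 : ℝ) ≤ N := by exact_mod_cast hN1
  have hNM : ((M : ℝ) ^ (2 * k)) = N := by rw [hN]; push_cast; rfl
  have hTM : ((M : ℝ) ^ (2 * k + 1)) = M * N := by rw [pow_succ, hNM]; ring
  -- the reduced powers
  choose Bf hBf1 hBf2 using fun i => hA2 i N
  specialize hM0 M hM
  rw [← hN] at hM0
  set δ' : ℝ := Real.exp (-(3 * (M : ℝ) ^ (2 * k + 1))) with hδ'
  have hδ0 : 0 < δ' := Real.exp_pos _
  have hδ1 : δ' ≤ 1 := by
    rw [hδ']
    refine Real.exp_le_one_iff.mpr ?_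
    have : 0 ≤ (M : ℝ) ^ (2 * k + 1) := by positivity
    linarith
  -- the finite set of polynomials
  have hfin : {q : (Fin k → Fin (N + 1)) → ℤ | q ≠ 0 ∧
      ∀ n, |((q n : ℤ) : ℝ)| ≤ Real.exp N}.Finite := by
    obtain ⟨H, hH⟩ := exists_nat_ge (Real.exp N)
    refine Set.Finite.subset (Set.Finite.pi' fun _ : Fin k → Fin (N + 1) =>
      Set.finite_Icc (-(H : ℤ)) H) ?_
    rintro q ⟨-, hq⟩ n
    have h3 := (hq n).trans hH
    have h4 : |q n| ≤ (H : ℤ) := by exact_mod_cast h3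
    exact abs_le.mp h4
  refine ⟨δ' / 2, by positivity, hfin.toFinset.image (qp N c), ?_, ?_⟩
  · intro Q hQ
    obtain ⟨q', hq', rfl⟩ := mem_image.mp hQ
    exact qp_ne_zero N c q' (hfin.mem_toFinset.mp hq').1
  intro K _ R P x y hxR hxy havg p E s hE hs hcell hnear
  have hD := P.D_cast_pos
  set S : P.Pl → ℝ := fun w => ∑ i, (|P.lg w (x i)| + |P.lg w (y i)|) with hS
  have hS0 : ∀ w, 0 ≤ S w := fun w => sum_nonneg fun i _ =>
    add_nonneg (abs_nonneg _) (abs_nonneg _)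
  have hSsum : ∑ w, S w ≤ B' * P.D := P.sum_le_of_avg_le (havg.trans hB')
  set good : Finset (Fin P.D) := s.filter fun i => S (.inl i) ≤ lam with hgood
  -- Markov
  have hcard : (P.D : ℝ) * (θ / 2) ≤ good.card := by
    have h1 : ∑ i ∈ s.filter (fun i : Fin P.D => ¬ S (.inl i) ≤ lam), lam ≤
        ∑ i, S (.inl i) := by
      refine (Finset.sum_le_sum (g := fun i => S (.inl i)) ?_).trans
        (Finset.sum_le_sum_of_subset_of_nonneg (Finset.subset_univ _) fun i _ _ => hS0 _)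
      intro i hi
      exact (not_le.mp (Finset.mem_filter.mp hi).2).le
    rw [Finset.sum_const, nsmul_eq_mul] at h1
    have h2 := (h1.trans (P.sum_inl_le hS0)).trans hSsum
    have h3 := Finset.card_filter_add_card_filter_not (s := s)
      (fun i => S (.inl i) ≤ lam)
    have h4 : ((good.card : ℝ)) + ((s.filter
      (fun i : Fin P.D => ¬ S (.inl i) ≤ lam)).card : ℝ) = s.card := by exact_mod_cast h3
    have hB0 : 0 < B' := by linarith
    have h5 : ((s.filter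
      (fun i : Fin P.D => ¬ S (.inl i) ≤ lam)).card : ℝ) ≤ P.D * (θ / 2) := by
      by_contra hcon
      have h6 := mul_lt_mul_of_pos_right (not_le.mp hcon) hlam0
      have h7 : (P.D : ℝ) * (θ / 2) * lam = B' * P.D := by
        calc (P.D : ℝ) * (θ / 2) * lam = (lam * θ) * P.D / 2 := by ring
          _ = B' * P.D := by rw [hlamθ]; ring
      linarith
    have h8 : θ * (P.D : ℝ) ≤ s.card := hs
    linarith
  have hgl : ∀ i ∈ good, ∀ l, |P.lg (.inl i) (x l)| ≤ lam ∧ |P.lg (.inl i) (y l)| ≤ lam := by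
    intro i hi l
    have h1 : S (.inl i) ≤ lam := (mem_filter.mp hi).2
    have h2 : |P.lg (.inl i) (x l)| + |P.lg (.inl i) (y l)| ≤ S (.inl i) :=
      single_le_sum (f := fun l => |P.lg (.inl i) (x l)| + |P.lg (.inl i) (y l)|)
        (fun _ _ => add_nonneg (abs_nonneg _) (abs_nonneg _)) (mem_univ l)
    have h3 := abs_nonneg (P.lg (.inl i) (x l))
    have h4 := abs_nonneg (P.lg (.inl i) (y l))
    exact ⟨by linarith, by linarith⟩
  set V : Fin P.D → Fin k → ℝ × ℝ :=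
    fun i a => (P.lg (.inl i) (x a), P.lg (.inl i) (y a)) with hV
  have hVn : ∀ i ∈ good, ‖V i‖ ≤ lam := by
    intro i hi
    rw [pi_norm_le_iff_of_nonneg hlam0.le]
    intro l
    rw [Prod.norm_def]
    obtain ⟨h1, h2⟩ := hgl i hi l
    exact max_le h1 h2
  -- data for the points `p l`
  have hdata : ∀ l : Fin q, ∃ p' : Fin k → ℝ × ℝ, ‖p'‖ ≤ lam ∧
      ∀ i ∈ good, ∀ e ∈ E l, ‖V i - p l - e‖ ≤ δ' / 2 →
        ∃ e' ∈ E l, ‖V i - p' - e'‖ ≤ δ' ∧ ‖e'‖ ≤ 2 * lam + 1 := by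
    intro l
    by_cases h : ∃ i ∈ good, ∃ e ∈ E l, ‖V i - p l - e‖ ≤ δ' / 2
    · obtain ⟨i0, hi0, e0, he0, h0⟩ := h
      refine ⟨V i0, hVn i0 hi0, fun i hi e he hie =>
        ⟨e - e0, (E l).sub_mem he he0, ?_, ?_⟩⟩
      · have h1 : V i - V i0 - (e - e0) = (V i - p l - e) - (V i0 - p l - e0) := by abel
        rw [h1]
        refine (norm_sub_le _ _).trans ?_
        linarith
      · have h1 : e - e0 = V i - V i0 - ((V i - p l - e) - (V i0 - p l - e0)) := by abel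
        rw [h1]
        refine (norm_sub_le _ _).trans ?_
        have h2 := norm_sub_le (V i) (V i0)
        have h3 := norm_sub_le (V i - p l - e) (V i0 - p l - e0)
        have h4 := hVn i hi
        have h5 := hVn i0 hi0
        linarith
    · refine ⟨0, by rw [norm_zero]; linarith, fun i hi e he hie => absurd ⟨i, hi, e, he, hie⟩ h⟩
  choose p' hp' hp2 using hdata
  choose bb hbb hbb2 using fun l => exists_basis_bdd k (k - 1) (E l) (by have := hE l; omega)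
  obtain ⟨qq, hqq0, hqqH, hqqs⟩ := hM0 p' bb (fun l => (hp' l).trans hρ2) hbb Bf (by
    intro i n j hn
    refine (hBf1 i n hn j).le ?_
    exact pow_le_pow_left₀ (by linarith [hA1 i]) (hA1A i) _)
  rw [hNM] at hqqH
  have hmem : qp N c qq ∈ hfin.toFinset.image (qp N c) :=
    mem_image_of_mem _ (hfin.mem_toFinset.mpr ⟨hqq0, hqqH⟩)
  refine ⟨_, hmem, ?_⟩
  rw [aeval_qp]
  by_contra hne
  have hpos := P.avg_lg_nonneg (qv_mem N c qq hxR) hne
  have hlg := lg_qv P N c qq κ hκ0 hqqH hκc x hne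
  set C : ℝ := k * Real.log (N + 1) + N + k * N * κ with hC
  have hlog0 : 0 ≤ Real.log ((N : ℝ) + 1) := Real.log_nonneg (by linarith)
  have hC0 : 0 ≤ C := by positivity
  have hC1 : C ≤ (1 + k + k * κ) * N := by
    have h1 : Real.log ((N : ℝ) + 1) ≤ N := by
      have := Real.log_le_sub_one_of_pos (show (0 : ℝ) < N + 1 by positivity)
      linarith
    rw [hC]
    nlinarith
  set τ : ℝ := (M * N : ℝ) / 4 with hτ
  have hτ0 : 0 ≤ τ := by positivity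
  have hsmall : ∀ i ∈ good, P.lg (.inl i) (qv N c qq x) ≤ -τ := by
    intro i hi
    have his : i ∈ s := (mem_filter.mp hi).1
    obtain ⟨l, e, he, hle⟩ := hnear i his
    obtain ⟨e', he', h1, h2⟩ := hp2 l i hi e he hle
    obtain ⟨yy, hy1, hy2⟩ := hbb2 l e' he'
    have hy : ∀ i, |yy i| ≤ ρ := fun i => (hy2 i).trans (by
      rw [hρ]
      exact mul_le_mul_of_nonneg_left h2 (by positivity))
    have h3 := hqqs l yy hy (V i) (by rw [← hy1]; exact h1)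
    rw [hTM] at h3
    have hee1 : ∀ l, ee (V i l).1 = ‖P.σ i (x l)‖ ^ 2 := by
      intro l
      have h5 : 0 < ‖P.σ i (x l)‖ := norm_pos_iff.mpr ((map_ne_zero (P.σ i)).mpr (hxy l).1)
      simp only [ee, hV, P.lg_inl]
      rw [two_mul, Real.exp_add, Real.exp_log h5, sq]
    have hee2 : ∀ l, ee (V i l).2 = ‖P.σ i (y l)‖ ^ 2 := by
      intro l
      have h5 : 0 < ‖P.σ i (y l)‖ := norm_pos_iff.mpr ((map_ne_zero (P.σ i)).mpr (hxy l).2)
      simp only [ee, hV, P.lg_inl]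
      rw [two_mul, Real.exp_add, Real.exp_log h5, sq]
    simp only [hee1, hee2] at h3
    have hle : ∀ z : K, z ≠ 0 → |P.lg (.inl i) z| ≤ lam → ‖P.σ i z‖ ≤ Real.exp lam := by
      intro z hz hzl
      have h5 : 0 < ‖P.σ i z‖ := norm_pos_iff.mpr ((map_ne_zero (P.σ i)).mpr hz)
      rw [P.lg_inl] at hzl
      rw [← Real.exp_log h5]
      exact Real.exp_le_exp.2 ((le_abs_self _).trans hzl)
    have hsq : ∀ z : K, z ≠ 0 → |P.lg (.inl i) z| ≤ lam →
        |‖P.σ i z‖ ^ 2| ≤ Real.exp (2 * lam) := by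
      intro z hz hzl
      rw [abs_of_nonneg (by positivity), two_mul, Real.exp_add, ← sq]
      exact pow_le_pow_left₀ (norm_nonneg _) (hle z hz hzl) _
    have h4 := small hk m M N hm hN1 κ hκ0 hMκ c qq (fun l => P.σ i (x l))
      (fun l => a l (‖P.σ i (x l)‖ ^ 2) (‖P.σ i (y l)‖ ^ 2)) (fun l => (hcell i his l).1)
      (fun l n j => Bf l n j (‖P.σ i (x l)‖ ^ 2) (‖P.σ i (y l)‖ ^ 2))
      (fun l n hn => hBf2 l n hn _ _ _ (hcell i his l).2.2)
      (fun l => hκδ.trans (hcell i his l).2.1)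
      (fun l => by
        refine (norm_sub_le _ _).trans (le_trans ?_ (hκx l))
        rw [Complex.norm_natCast]
        exact add_le_add (hle _ (hxy l).1 (hgl i hi l).1) le_rfl)
      (fun l => by
        refine le_trans ?_ hκu
        refine root_bound hm hδ (hcell i his l).2.1 (fun j hj => ?_) (hcell i his l).2.2
        refine (ex_bound (hAb l j) (Real.one_le_exp (by linarith)) (hsq _ (hxy l).1
          (hgl i hi l).1) (hsq _ (hxy l).2 (hgl i hi l).2)).trans (hCb l j hj))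
      hκm h3
    rw [← map_qv] at h4
    rw [P.lg_inl]
    have h5 : 0 < ‖P.σ i (qv N c qq x)‖ := norm_pos_iff.mpr
      ((map_ne_zero (P.σ i)).mpr hne)
    have h6 := Real.log_le_log h5 h4
    rwa [Real.log_exp] at h6
  have hSx : ∀ w, ∑ i, |P.lg w (x i)| ≤ S w := fun w => sum_le_sum fun i _ => by
    linarith [abs_nonneg (P.lg w (y i))]
  have hlg' : ∀ w, P.lg w (qv N c qq x) ≤ C * P.arch w + N * S w := fun w =>
    (hlg w).trans (add_le_add le_rfl (mul_le_mul_of_nonneg_left (hSx w) (Nat.cast_nonneg _)))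
  have hsum : ∑ w, P.lg w (qv N c qq x) ≤
      ∑ w, (C * P.arch w + N * S w) - ∑ i ∈ good, τ := by
    have h1 : ∑ i ∈ good, τ = ∑ i : Fin P.D, if i ∈ good then τ else 0 := by
      rw [Finset.sum_ite_mem, Finset.univ_inter]
    rw [h1, Fintype.sum_sum_type, Fintype.sum_sum_type]
    have h2 : ∑ i : Fin P.D, P.lg (.inl i) (qv N c qq x) ≤
        ∑ i : Fin P.D, (C * P.arch (.inl i) + N * S (.inl i)) -
          ∑ i : Fin P.D, if i ∈ good then τ else 0 := by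
      rw [← Finset.sum_sub_distrib]
      refine Finset.sum_le_sum fun i _ => ?_
      by_cases hi : i ∈ good
      · rw [if_pos hi]
        have h3 := hsmall i hi
        have h4 : 0 ≤ C * P.arch (.inl i) + N * S (.inl i) :=
          add_nonneg (mul_nonneg hC0 (P.arch_nonneg _)) (mul_nonneg (Nat.cast_nonneg _) (hS0 _))
        linarith
      · rw [if_neg hi, sub_zero]
        exact hlg' _
    have h3 : ∑ j : Fin P.m, P.lg (.inr j) (qv N c qq x) ≤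
        ∑ j : Fin P.m, (C * P.arch (.inr j) + N * S (.inr j)) :=
      Finset.sum_le_sum fun j _ => hlg' _
    linarith
  have harch : ∑ w, P.arch w = P.D := by
    simp [Places.arch, Fintype.sum_sum_type]
  rw [Finset.sum_add_distrib, ← Finset.mul_sum, ← Finset.mul_sum, harch, Finset.sum_const,
    nsmul_eq_mul] at hsum
  have hpos' : 0 ≤ ∑ w, P.lg w (qv N c qq x) := by
    have h1 : P.avg (fun w => P.lg w (qv N c qq x)) * P.D =
        ∑ w, P.lg w (qv N c qq x) := by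
      rw [Places.avg, div_mul_cancel₀ _ hD.ne']
    rw [← h1]
    exact mul_nonneg hpos hD.le
  have h1 : (N : ℝ) * ∑ w, S w ≤ N * (B' * P.D) := mul_le_mul_of_nonneg_left hSsum (by positivity)
  have h2 : (P.D : ℝ) * (θ / 2) * τ ≤ good.card * τ := mul_le_mul_of_nonneg_right hcard hτ0
  have h3 : C * P.D ≤ (1 + k + k * κ) * N * P.D := mul_le_mul_of_nonneg_right hC1 hD.le
  have h4 : 0 ≤ (1 + (k : ℝ) + k * κ) * N * P.D + N * (B' * P.D) - P.D * (θ / 2) * τ := by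
    linarith
  rw [hτ] at h4
  have h5 : (1 + (k : ℝ) + k * κ) * N * P.D + N * (B' * P.D) - P.D * (θ / 2) * (M * N / 4) =
      (N * P.D) * ((1 + k + k * κ + B') - M * θ / 8) := by ring
  rw [h5] at h4
  have h6 : 0 < (N : ℝ) * P.D := by positivity
  have h7 : (1 + k + k * κ + B') - (M : ℝ) * θ / 8 < 0 := by
    have h8 := (div_lt_iff₀ hθ).1 hMB
    linarith
  nlinarith

end Pool.Agent.PT
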