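import Pool.Agent.Lib.MP_c95b3b_ag_PT.ExB

/-! MP_c95b3b_ag, project (P), block (T), module Cells: compactness.

PROOF. If there is a pair `(s, t)` of positive real numbers with `rv m r s t x = 0` for all `x` let `Z` be the (finite, `hfin` with `a = √s`, `b = √t`) set of first coordinates of
the points of the curve with `|x|² = s`, `|y|² = t`; otherwise `Z = ∅`. Given `ρ`, `ε`:
`S = {(x, y) : f (x, y) = 0, e^(-ρ) ≤ |x|, |y| ≤ e^ρ, |x - z| ≥ ε for all z ∈ Z}` is compact and `g (x, y) = ∑_{c ≤ m} ‖rv m r (‖x‖²) (‖y‖²) c‖` is continuous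
(`Ex.continuous`) and positive on `S`: if it is `0` at `(x, y)` then the polynomial `rv m r s t` of degree `≤ m` has the `m + 1` zeros `0, .., m`, so it vanishes identically, `(s, t)` is the exceptional pair
(`Rel.exc`), and `x ∈ Z`, contradiction to `|x - z| ≥ ε`. So `g ≥ (m + 1) δ` on `S` (empty `S`: `δ = 1`). -/

set_option autoImplicit false

noncomputable section

namespace Pool.Agent.PT

open Polynomial Finset

theorem cells_evalEval_continuous (f : ℂ[X][X]) :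
    Continuous fun p : ℂ × ℂ => f.evalEval p.1 p.2 := by
  have h : (fun p : ℂ × ℂ => f.evalEval p.1 p.2) =
      fun p : ℂ × ℂ => ∑ i ∈ range (f.natDegree + 1), (f.coeff i).eval p.1 * p.2 ^ i := by
    funext p
    rw [Polynomial.evalEval, eval_eq_sum_range (p := f), eval_finsetSum]
    refine sum_congr rfl fun i _ => ?_
    rw [eval_mul, ← C_pow, eval_C]
  rw [h]
  refine continuous_finsetSum _ fun i _ => ?_
  exact ((f.coeff i).continuous.comp continuous_fst).mul (continuous_snd.pow i)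

/-- `m + 1` zeros -/
theorem cells_rv_zero (m : ℕ) (r : ℕ → ℝ → ℝ → ℂ) (s t : ℝ)
    (h : ∀ c ∈ range (m + 1), rv m r s t (c : ℂ) = 0) (x : ℂ) : rv m r s t x = 0 := by
  set P : ℂ[X] := ∑ j ∈ range (m + 1), C (r j s t) * X ^ j with hP
  have h1 : ∀ z : ℂ, P.eval z = rv m r s t z := by
    intro z
    rw [hP, eval_finsetSum]
    simp [rv]
  have h2 : P.natDegree ≤ m := by
    rw [hP]
    refine natDegree_sum_le_of_forall_le _ _ fun j hj => ?_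
    have h3 : j < m + 1 := mem_range.1 hj
    exact (natDegree_C_mul_X_pow_le _ _).trans (by omega)
  have h4 : P = 0 := by
    refine eq_zero_of_natDegree_lt_card_of_eval_eq_zero P (ι := Fin (m + 1))
      (f := fun i => ((i : ℕ) : ℂ)) ?_ ?_ ?_
    · intro i j hij
      simp only [Nat.cast_inj] at hij
      exact Fin.ext hij
    · intro i
      rw [h1]
      exact h _ (mem_range.2 i.2)
    · rw [Fintype.card_fin]
      omega
  rw [← h1, h4, eval_zero]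

theorem cells_aux (f : ℂ[X][X]) (m D : ℕ) (r : ℕ → ℝ → ℝ → ℂ) (hr : Rel f m D r)
    (Z : Finset ℂ)
    (hZ : ∀ x y : ℂ, x ≠ 0 → y ≠ 0 → f.evalEval x y = 0 →
      (∀ z, rv m r (‖x‖ ^ 2) (‖y‖ ^ 2) z = 0) → x ∈ Z) (ρ ε : ℝ) (hε : 0 < ε) :
    ∃ δ : ℝ, 0 < δ ∧ ∀ x y : ℂ, x ≠ 0 → y ≠ 0 →
      f.evalEval x y = 0 → |Real.log ‖x‖| ≤ ρ → |Real.log ‖y‖| ≤ ρ →
      (∃ z ∈ Z, ‖x - z‖ ≤ ε) ∨ ∃ c ∈ range (m + 1), δ ≤ ‖rv m r (‖x‖ ^ 2) (‖y‖ ^ 2) (c : ℂ)‖ := by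
  classical
  set S : Set (ℂ × ℂ) := {p | f.evalEval p.1 p.2 = 0 ∧ Real.exp (-ρ) ≤ ‖p.1‖ ∧
    ‖p.1‖ ≤ Real.exp ρ ∧ Real.exp (-ρ) ≤ ‖p.2‖ ∧ ‖p.2‖ ≤ Real.exp ρ ∧
    ∀ z ∈ Z, ε ≤ ‖p.1 - z‖} with hS
  have hSc : IsCompact S := by
    refine Metric.isCompact_of_isClosed_isBounded ?_ ?_
    · have e1 : IsClosed {p : ℂ × ℂ | f.evalEval p.1 p.2 = 0} :=
        isClosed_eq (cells_evalEval_continuous f) continuous_const
      have e2 : IsClosed {p : ℂ × ℂ | Real.exp (-ρ) ≤ ‖p.1‖} :=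
        isClosed_le continuous_const continuous_fst.norm
      have e3 : IsClosed {p : ℂ × ℂ | ‖p.1‖ ≤ Real.exp ρ} :=
        isClosed_le continuous_fst.norm continuous_const
      have e4 : IsClosed {p : ℂ × ℂ | Real.exp (-ρ) ≤ ‖p.2‖} :=
        isClosed_le continuous_const continuous_snd.norm
      have e5 : IsClosed {p : ℂ × ℂ | ‖p.2‖ ≤ Real.exp ρ} :=
        isClosed_le continuous_snd.norm continuous_const
      have e6 : IsClosed {p : ℂ × ℂ | ∀ z ∈ Z, ε ≤ ‖p.1 - z‖} := by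
        have : {p : ℂ × ℂ | ∀ z ∈ Z, ε ≤ ‖p.1 - z‖} =
            ⋂ z ∈ Z, {p : ℂ × ℂ | ε ≤ ‖p.1 - z‖} := by
          ext p
          simp
        rw [this]
        refine isClosed_biInter fun z _ => ?_
        exact isClosed_le continuous_const (continuous_fst.sub continuous_const).norm
      have e : S = {p : ℂ × ℂ | f.evalEval p.1 p.2 = 0} ∩ ({p : ℂ × ℂ | Real.exp (-ρ) ≤ ‖p.1‖} ∩
          ({p : ℂ × ℂ | ‖p.1‖ ≤ Real.exp ρ} ∩ ({p : ℂ × ℂ | Real.exp (-ρ) ≤ ‖p.2‖} ∩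
          ({p : ℂ × ℂ | ‖p.2‖ ≤ Real.exp ρ} ∩ {p : ℂ × ℂ | ∀ z ∈ Z, ε ≤ ‖p.1 - z‖})))) := by
        ext p
        simp only [hS, Set.mem_ofPred_eq, Set.mem_inter_iff]
      rw [e]
      exact e1.inter (e2.inter (e3.inter (e4.inter (e5.inter e6))))
    · refine (Metric.isBounded_closedBall (x := (0 : ℂ × ℂ)) (r := Real.exp ρ)).subset ?_
      rintro ⟨x, y⟩ hp
      simp only [hS, Set.mem_ofPred_eq] at hp
      rw [mem_closedBall_zero_iff, Prod.norm_def]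
      exact max_le hp.2.2.1 hp.2.2.2.2.1
  set g : ℂ × ℂ → ℝ := fun p => ∑ c ∈ range (m + 1), ‖rv m r (‖p.1‖ ^ 2) (‖p.2‖ ^ 2) (c : ℂ)‖
    with hg
  have hgc : Continuous g := by
    refine continuous_finsetSum _ fun c _ => ?_
    refine Continuous.norm ?_
    unfold rv
    refine continuous_finsetSum _ fun j _ => ?_
    refine Continuous.mul ?_ continuous_const
    obtain ⟨A, hA⟩ := hr.ex j
    have h1 := hA.continuous
    have h2 : Continuous fun p : ℂ × ℂ => ((‖p.1‖ ^ 2, ‖p.2‖ ^ 2) : ℝ × ℝ) :=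
      (continuous_fst.norm.pow 2).prodMk (continuous_snd.norm.pow 2)
    exact h1.comp h2
  have hg0 : ∀ p, 0 ≤ g p := fun p => sum_nonneg fun _ _ => norm_nonneg _
  have hgpos : ∀ p ∈ S, 0 < g p := by
    rintro ⟨x, y⟩ hp
    simp only [hS, Set.mem_ofPred_eq] at hp
    obtain ⟨p1, p2, p3, p4, p5, p6⟩ := hp
    have hx : x ≠ 0 := by
      rw [← norm_pos_iff]
      exact (Real.exp_pos _).trans_le p2
    have hy : y ≠ 0 := by
      rw [← norm_pos_iff]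
      exact (Real.exp_pos _).trans_le p4
    rcases (hg0 (x, y)).lt_or_eq with h | h
    · exact h
    exfalso
    have h1 : ∀ c ∈ range (m + 1), ‖rv m r (‖x‖ ^ 2) (‖y‖ ^ 2) (c : ℂ)‖ = 0 :=
      (sum_eq_zero_iff_of_nonneg fun _ _ => norm_nonneg _).1 h.symm
    have h2 : x ∈ Z := hZ x y hx hy p1
      (cells_rv_zero m r _ _ fun c hc => norm_eq_zero.1 (h1 c hc))
    have h3 := p6 x h2
    rw [sub_self, norm_zero] at h3
    linarith
  obtain ⟨δ₀, hδ₀, hδg⟩ : ∃ δ₀ : ℝ, 0 < δ₀ ∧ ∀ p ∈ S, δ₀ ≤ g p := by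
    rcases S.eq_empty_or_nonempty with h | h
    · exact ⟨1, one_pos, fun p hp => by rw [h] at hp; exact absurd hp (Set.notMem_empty p)⟩
    · obtain ⟨p, hp, hmin⟩ := hSc.exists_isMinOn h hgc.continuousOn
      exact ⟨g p, hgpos p hp, fun q hq => hmin hq⟩
  have hm : (0 : ℝ) < (m : ℝ) + 1 := by positivity
  refine ⟨δ₀ / (m + 1), div_pos hδ₀ hm, ?_⟩
  intro x y hx hy hf hlx hly
  by_cases hc : ∃ z ∈ Z, ‖x - z‖ ≤ ε
  · exact Or.inl hc
  right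
  push Not at hc
  have hnx : 0 < ‖x‖ := norm_pos_iff.2 hx
  have hny : 0 < ‖y‖ := norm_pos_iff.2 hy
  obtain ⟨hx1, hx2⟩ := abs_le.1 hlx
  obtain ⟨hy1, hy2⟩ := abs_le.1 hly
  have hmem : (x, y) ∈ S := by
    simp only [hS, Set.mem_ofPred_eq]
    refine ⟨hf, (Real.le_log_iff_exp_le hnx).1 hx1, (Real.log_le_iff_le_exp hnx).1 hx2,
      (Real.le_log_iff_exp_le hny).1 hy1, (Real.log_le_iff_le_exp hny).1 hy2, ?_⟩
    intro z hz
    exact (hc z hz).le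
  by_contra hcon
  push Not at hcon
  have h1 : g (x, y) < ∑ c ∈ range (m + 1), δ₀ / (m + 1) :=
    sum_lt_sum_of_nonempty ⟨0, mem_range.2 (Nat.succ_pos m)⟩ fun c hc => hcon c hc
  rw [sum_const, card_range, nsmul_eq_mul] at h1
  push_cast at h1
  rw [mul_div_cancel₀ _ hm.ne'] at h1
  exact absurd (hδg _ hmem) (not_le.2 h1)

theorem cells (f : ℂ[X][X]) (hfin : LogFin f) (m D : ℕ) (r : ℕ → ℝ → ℝ → ℂ) (hr : Rel f m D r) :
    ∃ Z : Finset ℂ, ∀ ρ ε : ℝ, 0 < ε → ∃ δ : ℝ, 0 < δ ∧ ∀ x y : ℂ, x ≠ 0 → y ≠ 0 →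
      f.evalEval x y = 0 → |Real.log ‖x‖| ≤ ρ → |Real.log ‖y‖| ≤ ρ →
      (∃ z ∈ Z, ‖x - z‖ ≤ ε) ∨ ∃ c ∈ range (m + 1), δ ≤ ‖rv m r (‖x‖ ^ 2) (‖y‖ ^ 2) (c : ℂ)‖ := by
  classical
  by_cases hst : ∃ s t : ℝ, 0 < s ∧ 0 < t ∧ ∀ x, rv m r s t x = 0
  · obtain ⟨s, t, hs, ht, h0⟩ := hst
    have hF := hfin (Real.sqrt s) (Real.sqrt t) (Real.sqrt_pos.2 hs) (Real.sqrt_pos.2 ht)
    refine ⟨hF.toFinset.image Prod.fst, fun ρ ε hε => cells_aux f m D r hr _ ?_ ρ ε hε⟩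
    intro x y hx hy hf hz
    have hnx : 0 < ‖x‖ := norm_pos_iff.2 hx
    have hny : 0 < ‖y‖ := norm_pos_iff.2 hy
    obtain ⟨e1, e2⟩ := hr.exc (‖x‖ ^ 2) (‖y‖ ^ 2) s t (by positivity) (by positivity) hs ht hz h0
    rw [mem_image]
    refine ⟨(x, y), ?_, rfl⟩
    rw [Set.Finite.mem_toFinset]
    refine ⟨hf, ?_, ?_⟩
    · rw [← e1, Real.sqrt_sq hnx.le]
    · rw [← e2, Real.sqrt_sq hny.le]
  · refine ⟨∅, fun ρ ε hε => cells_aux f m D r hr _ ?_ ρ ε hε⟩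
    intro x y hx hy _ hz
    have hnx : 0 < ‖x‖ := norm_pos_iff.2 hx
    have hny : 0 < ‖y‖ := norm_pos_iff.2 hy
    exact absurd ⟨‖x‖ ^ 2, ‖y‖ ^ 2, by positivity, by positivity, hz⟩ hst

end Pool.Agent.PT
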