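import Pool.Agent.Lib.MP_c95b3b_ag_PT.Defs
import Pool.Agent.Lib.MP_c95b3b_ag_L3.TC
import Pool.Agent.Lib.MP_c95b3b_ag_L3.TG

/-! MP_c95b3b_ag, project (P), block (T), module Point: conjugates near finitely many points.

PROOF. `Z` has `q` elements (`q ≥ 1`, otherwise `s` is empty and `θ D ≤ 0` is absurd), all of absolute value `≤ R0`, `R0 ≥ 1`. Choose `A` with `θ A ≥ 4 (B + 2)`, then `H : ℕ`, `H ≥ 1` with
`log (H + 1) ≥ 2 q (2 A + log R0 + 3)`, then `N` large depending on everything. Box principle (`pigeon`, module TC) for the `2 q` real forms `Re ∑ q_n z^n`, `Im ∑ q_n z^n` in the unknowns `q_0, .., q_N` with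
`W = R0^N`, `L = ⌈exp ((2 A + log R0 + 2) N)⌉`: a non-zero `Q ∈ ℤ[X]` of degree `≤ N`, coefficients `≤ H`, `‖Q(z)‖ ≤ 4 (N + 1) R0^N H / L ≤ exp (- 2 A N) * 4 (N + 1) H * exp (- 2 N) ≤ (1/2) exp (- A N)` for `z ∈ Z`.
`ε = exp (- C N)` with `C` so large that `‖Q(ζ) - Q(z)‖ ≤ ε (N + 1)^2 H (R0 + 1)^N ≤ (1/2) exp (- A N)` for `‖ζ - z‖ ≤ ε ≤ 1`. `𝒬 = {Q}` (one polynomial is enough, `Q` depends only on `Z, B, θ`).
If `aeval x Q ≠ 0` the product formula (`P.prod`, `Places.avg_lg_nonneg`, `aeval x Q ∈ R`) gives with `lg w (Q(x)) ≤ log ((N+1) H) arch w + N |lg w x|` at all places (compare `lg_le` in TG) and `≤ - A N` at the places of `s`: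
`0 ≤ log ((N + 1) H) + N B - θ A N` (divided by `D`; use `lg w (Q (x)) ≤ [..] - (if w ∈ s then A N else 0)`, the bracket is `≥ 0`), a contradiction for `N` large. -/

set_option autoImplicit false

noncomputable section

namespace Pool.Agent.PT

open Polynomial Finset Pool.Agent.L3

/-- the value of the polynomial with the coefficients `q` -/
private def ptv {K : Type} [Field K] {N : ℕ} (q : Fin (N + 1) → ℤ) (x : K) : K :=
  ∑ i, (q i : K) * x ^ (i : ℕ)

private def ptp {N : ℕ} (q : Fin (N + 1) → ℤ) : ℤ[X] :=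
  ∑ i, C (q i) * X ^ (i : ℕ)

private theorem aeval_ptp {K : Type} [Field K] {N : ℕ} (q : Fin (N + 1) → ℤ) (x : K) :
    aeval x (ptp q) = ptv q x := by
  unfold ptp ptv
  rw [map_sum]
  refine Finset.sum_congr rfl fun i _ => ?_
  simp

private theorem coeff_ptp {N : ℕ} (q : Fin (N + 1) → ℤ) (i : Fin (N + 1)) :
    (ptp q).coeff i = q i := by
  unfold ptp
  rw [finsetSum_coeff]
  simp only [coeff_C_mul, coeff_X_pow]
  rw [Finset.sum_eq_single i]
  · simp
  · intro j _ hj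
    rw [if_neg, mul_zero]
    intro h
    exact hj (Fin.ext h.symm)
  · intro h
    exact absurd (Finset.mem_univ i) h

private theorem exists_small (Z : Finset ℂ) (A : ℝ) : ∃ N H : ℕ, 1 ≤ N ∧ 1 ≤ H ∧
    Real.log (((N : ℝ) + 1) * H) ≤ 2 * N ∧ ∃ q : Fin (N + 1) → ℤ, q ≠ 0 ∧ (∀ i, |q i| ≤ H) ∧
      ∀ z ∈ Z, ‖ptv q z‖ < Real.exp (-(A * N)) := by
  classical
  set R0 : ℝ := 1 + ∑ z ∈ Z, ‖z‖ with hR0
  have hs0 : 0 ≤ ∑ z ∈ Z, ‖z‖ := Finset.sum_nonneg fun z _ => norm_nonneg _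
  have hR1 : 1 ≤ R0 := by linarith
  have hRz : ∀ z ∈ Z, ‖z‖ ≤ R0 := by
    intro z hz
    have := Finset.single_le_sum (f := fun z : ℂ => ‖z‖) (fun z _ => norm_nonneg _) hz
    linarith
  set L0 : ℕ := ⌈R0 * Real.exp (A + 2)⌉₊ with hL0
  have hL0r : R0 * Real.exp (A + 2) ≤ L0 := Nat.le_ceil _
  have hpos : 0 < R0 * Real.exp (A + 2) := mul_pos (by linarith) (Real.exp_pos _)
  have hL0pos : 0 < L0 := Nat.ceil_pos.mpr hpos
  set H : ℕ := L0 ^ (2 * Z.card) with hH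
  have hH1 : 1 ≤ H := Nat.one_le_pow _ _ hL0pos
  have hH1r : (1 : ℝ) ≤ H := by exact_mod_cast hH1
  set N : ℕ := 8 * H with hN
  have hN1 : 1 ≤ N := by omega
  have hNr : (N : ℝ) = 8 * H := by rw [hN]; push_cast; ring
  have hexp : 8 * ((N : ℝ) + 1) * H ≤ Real.exp (2 * N) := by
    have h1 : (N : ℝ) + 1 ≤ Real.exp N := Real.add_one_le_exp _
    have h2 : Real.exp (2 * (N : ℝ)) = Real.exp N * Real.exp N := by
      rw [← Real.exp_add]; ring_nf
    rw [h2]
    have h3 : ((N : ℝ) + 1) * (N + 1) ≤ Real.exp N * Real.exp N :=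
      mul_le_mul h1 h1 (by positivity) (Real.exp_pos _).le
    nlinarith
  have hlt : (L0 ^ N) ^ Fintype.card (Z × Bool) < (H + 1) ^ Fintype.card (Fin (N + 1)) := by
    have hc : Fintype.card (Z × Bool) = 2 * Z.card := by
      rw [Fintype.card_prod, Fintype.card_coe, Fintype.card_bool, mul_comm]
    rw [hc, Fintype.card_fin, ← pow_mul, mul_comm N, pow_mul, ← hH]
    calc H ^ N < (H + 1) ^ N := Nat.pow_lt_pow_left (Nat.lt_succ_self H) (by omega)
      _ ≤ (H + 1) ^ (N + 1) := Nat.pow_le_pow_right (by omega) (Nat.le_succ N)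
  obtain ⟨q, hq0, hqH, hqs⟩ := pigeon (n := Fin (N + 1)) (J := Z × Bool)
    (fun j i => if j.2 then ((j.1 : ℂ) ^ (i : ℕ)).re else ((j.1 : ℂ) ^ (i : ℕ)).im) (R0 ^ N)
    (by
      rintro ⟨⟨z, hz⟩, b⟩ i
      have h1 : ‖z ^ (i : ℕ)‖ ≤ R0 ^ N := by
        rw [norm_pow]
        calc ‖z‖ ^ (i : ℕ) ≤ R0 ^ (i : ℕ) := pow_le_pow_left₀ (norm_nonneg _) (hRz z hz) _
          _ ≤ R0 ^ N := pow_le_pow_right₀ hR1 (Nat.lt_succ_iff.mp i.2)
      cases b
      · exact (Complex.abs_im_le_norm _).trans h1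
      · exact (Complex.abs_re_le_norm _).trans h1)
    H (L0 ^ N) (Nat.pow_pos hL0pos) hlt
  refine ⟨N, H, hN1, hH1, ?_, q, hq0, hqH, ?_⟩
  · rw [← Real.log_exp (2 * (N : ℝ))]
    refine Real.log_le_log (by positivity) (le_trans ?_ hexp)
    have : 0 ≤ ((N : ℝ) + 1) * H := by positivity
    linarith
  · intro z hz
    have hbd : 2 * (Fintype.card (Fin (N + 1)) : ℝ) * R0 ^ N * H / ((L0 ^ N : ℕ) : ℝ) ≤
        Real.exp (-(A * N)) / 4 := by
      rw [Fintype.card_fin]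
      push_cast
      have hL0r' : (0 : ℝ) < L0 := by exact_mod_cast hL0pos
      rw [div_le_iff₀ (by positivity)]
      have h1 : R0 ^ N * Real.exp ((A + 2) * N) ≤ (L0 : ℝ) ^ N := by
        have : R0 ^ N * Real.exp ((A + 2) * N) = (R0 * Real.exp (A + 2)) ^ N := by
          rw [mul_pow, ← Real.exp_nat_mul]
          ring_nf
        rw [this]
        exact pow_le_pow_left₀ hpos.le hL0r _
      have h2 : Real.exp (-(A * N)) * Real.exp ((A + 2) * N) = Real.exp (2 * N) := by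
        rw [← Real.exp_add]
        ring_nf
      have h3 : Real.exp (-(A * N)) / 4 * (R0 ^ N * Real.exp ((A + 2) * N)) ≤
          Real.exp (-(A * N)) / 4 * (L0 : ℝ) ^ N :=
        mul_le_mul_of_nonneg_left h1 (by positivity)
      refine le_trans ?_ h3
      have h4 : Real.exp (-(A * N)) / 4 * (R0 ^ N * Real.exp ((A + 2) * N)) =
          R0 ^ N * (Real.exp (2 * N) / 4) := by
        rw [← h2]; ring
      rw [h4]
      have h5 : 2 * ((N : ℝ) + 1) * R0 ^ N * H = R0 ^ N * (2 * ((N : ℝ) + 1) * H) := by ring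
      rw [h5]
      refine mul_le_mul_of_nonneg_left ?_ (by positivity)
      linarith
    have hre : (ptv q z).re = ∑ i : Fin (N + 1), (z ^ (i : ℕ)).re * (q i : ℝ) := by
      unfold ptv
      rw [Complex.re_sum]
      refine Finset.sum_congr rfl fun i _ => ?_
      simp [mul_comm]
    have him : (ptv q z).im = ∑ i : Fin (N + 1), (z ^ (i : ℕ)).im * (q i : ℝ) := by
      unfold ptv
      rw [Complex.im_sum]
      refine Finset.sum_congr rfl fun i _ => ?_
      simp [mul_comm]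
    have h1 := hqs (⟨z, hz⟩, true)
    have h2 := hqs (⟨z, hz⟩, false)
    simp only [if_true, Bool.false_eq_true, if_false] at h1 h2
    have h1' : |(ptv q z).re| ≤ Real.exp (-(A * N)) / 4 := by
      rw [hre]; exact h1.trans hbd
    have h2' : |(ptv q z).im| ≤ Real.exp (-(A * N)) / 4 := by
      rw [him]; exact h2.trans hbd
    have h3 := Complex.norm_le_abs_re_add_abs_im (ptv q z)
    have h4 := Real.exp_pos (-(A * N))
    linarith

private theorem pt_arch {N H : ℕ} {q : Fin (N + 1) → ℤ} (hq : ∀ i, |q i| ≤ H) (u : ℂ) :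
    ‖ptv q u‖ ≤ (((N : ℝ) + 1) * H) * max 1 ‖u‖ ^ N := by
  unfold ptv
  refine (norm_sum_le _ _).trans ?_
  have h : ∀ i ∈ (Finset.univ : Finset (Fin (N + 1))), ‖(q i : ℂ) * u ^ (i : ℕ)‖ ≤
      H * max 1 ‖u‖ ^ N := by
    intro i _
    rw [norm_mul, norm_pow, Complex.norm_intCast]
    have h1 : |(q i : ℝ)| ≤ H := by exact_mod_cast hq i
    refine mul_le_mul h1 ?_ (by positivity) (Nat.cast_nonneg _)
    calc ‖u‖ ^ (i : ℕ) ≤ max 1 ‖u‖ ^ (i : ℕ) :=
          pow_le_pow_left₀ (norm_nonneg _) (le_max_right _ _) _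
      _ ≤ max 1 ‖u‖ ^ N := pow_le_pow_right₀ (le_max_left _ _) (Nat.lt_succ_iff.mp i.2)
  refine (Finset.sum_le_card_nsmul _ _ _ h).trans ?_
  rw [nsmul_eq_mul, Finset.card_univ, Fintype.card_fin, mul_assoc]
  push_cast
  exact le_rfl

private theorem pt_nonarch {K : Type} [Field K] {R : Subring K} (P : Places K R) (j : Fin P.m)
    {N : ℕ} (q : Fin (N + 1) → ℤ) (x : K) : P.v j (ptv q x) ≤ max 1 (P.v j x) ^ N := by
  unfold ptv
  refine P.v_sum_le j _ _ (by positivity) fun i _ => ?_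
  rw [map_mul, map_pow]
  calc P.v j ((q i : ℤ) : K) * P.v j x ^ (i : ℕ) ≤ 1 * P.v j x ^ (i : ℕ) :=
        mul_le_mul_of_nonneg_right (P.v_int j _) (pow_nonneg ((P.v j).nonneg _) _)
    _ = P.v j x ^ (i : ℕ) := one_mul _
    _ ≤ max 1 (P.v j x) ^ (i : ℕ) :=
        pow_le_pow_left₀ ((P.v j).nonneg _) (le_max_right _ _) _
    _ ≤ max 1 (P.v j x) ^ N := pow_le_pow_right₀ (le_max_left _ _) (Nat.lt_succ_iff.mp i.2)

private theorem pt_map {K L : Type} [Field K] [Field L] (σ : K →+* L) {N : ℕ}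
    (q : Fin (N + 1) → ℤ) (x : K) : σ (ptv q x) = ptv q (σ x) := by
  unfold ptv
  rw [map_sum]
  refine Finset.sum_congr rfl fun i _ => ?_
  rw [map_mul, map_intCast, map_pow]

private theorem pt_lg {K : Type} [Field K] {R : Subring K} (P : Places K R) {N H : ℕ}
    (hH : 1 ≤ H) {q : Fin (N + 1) → ℤ} (hq : ∀ i, |q i| ≤ H) (x : K) (hne : ptv q x ≠ 0)
    (w : P.Pl) :
    P.lg w (ptv q x) ≤ Real.log (((N : ℝ) + 1) * H) * P.arch w + N * |P.lg w x| := by
  have hHr : (0 : ℝ) < H := by exact_mod_cast hH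
  rcases w with j | j
  · rw [P.lg_inl, P.arch_inl, mul_one, P.lg_inl]
    have h0 : 0 < ‖P.σ j (ptv q x)‖ := norm_pos_iff.mpr ((map_ne_zero (P.σ j)).mpr hne)
    have h1 : ‖P.σ j (ptv q x)‖ ≤ (((N : ℝ) + 1) * H) * max 1 ‖P.σ j x‖ ^ N := by
      rw [pt_map]
      exact pt_arch hq _
    have h2 := Real.log_le_log h0 h1
    rw [Real.log_mul (by positivity) (by positivity), Real.log_pow] at h2
    refine h2.trans (add_le_add le_rfl ?_)
    exact mul_le_mul_of_nonneg_left (TG.log_max_le _) (Nat.cast_nonneg _)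
  · rw [P.lg_inr, P.arch_inr, mul_zero, zero_add, P.lg_inr]
    have h0 : 0 < P.v j (ptv q x) := (P.v j).pos hne
    have h2 := Real.log_le_log h0 (pt_nonarch P j q x)
    rw [Real.log_pow] at h2
    refine h2.trans ?_
    exact mul_le_mul_of_nonneg_left (TG.log_max_le _) (Nat.cast_nonneg _)

private theorem exists_eps (Z : Finset ℂ) {N : ℕ} (q : Fin (N + 1) → ℤ) (δ : ℝ)
    (h : ∀ z ∈ Z, ‖ptv q z‖ < δ) :
    ∃ ε : ℝ, 0 < ε ∧ ∀ z ∈ Z, ∀ ζ : ℂ, ‖ζ - z‖ ≤ ε → ‖ptv q ζ‖ ≤ δ := by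
  have hcont : Continuous fun ζ : ℂ => ‖ptv q ζ‖ := by
    unfold ptv
    fun_prop
  have h1 : ∀ z ∈ Z, ∃ ε : ℝ, 0 < ε ∧ ∀ ζ : ℂ, ‖ζ - z‖ ≤ ε → ‖ptv q ζ‖ ≤ δ := by
    intro z hz
    have h2 : ∀ᶠ ζ in nhds z, ‖ptv q ζ‖ < δ := (hcont.tendsto z).eventually_lt_const (h z hz)
    obtain ⟨r, hr, h3⟩ := Metric.eventually_nhds_iff.mp h2
    refine ⟨r / 2, by positivity, fun ζ hζ => (h3 ?_).le⟩
    rw [dist_eq_norm]
    linarith
  choose! e he1 he2 using h1
  induction Z using Finset.induction_on with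
  | empty => exact ⟨1, one_pos, fun z hz => absurd hz (Finset.notMem_empty z)⟩
  | insert a s ha ih =>
    obtain ⟨ε, hε, h4⟩ := ih (fun z hz => h z (Finset.mem_insert_of_mem hz))
      (fun z hz => he1 z (Finset.mem_insert_of_mem hz))
      (fun z hz => he2 z (Finset.mem_insert_of_mem hz))
    refine ⟨min ε (e a), lt_min hε (he1 a (Finset.mem_insert_self a s)), fun z hz ζ hζ => ?_⟩
    rcases Finset.mem_insert.mp hz with rfl | hz
    · exact he2 z (Finset.mem_insert_self z s) ζ (hζ.trans (min_le_right _ _))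
    · exact h4 z hz ζ (hζ.trans (min_le_left _ _))

theorem T_point (Z : Finset ℂ) (B θ : ℝ) (hθ : 0 < θ) : ∃ ε : ℝ, 0 < ε ∧ ∃ 𝒬 : Finset ℤ[X],
    (∀ Q ∈ 𝒬, Q ≠ 0) ∧
      ∀ (K : Type) [Field K] (R : Subring K) (P : Places K R) (x : K), x ∈ R → x ≠ 0 →
        P.avg (fun w => |P.lg w x|) ≤ B → ∀ s : Finset (Fin P.D), θ * P.D ≤ s.card →
          (∀ i ∈ s, ∃ z ∈ Z, ‖P.σ i x - z‖ ≤ ε) → ∃ Q ∈ 𝒬, aeval x Q = 0 := by
  classical
  obtain ⟨B', hB', hB0⟩ : ∃ B', B ≤ B' ∧ 0 ≤ B' := ⟨max B 0, le_max_left _ _, le_max_right _ _⟩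
  set A : ℝ := 4 * (B' + 2) / θ with hA
  have hA0 : 0 < A := by positivity
  have hθA : θ * A = 4 * (B' + 2) := by rw [hA]; field_simp
  obtain ⟨N, H, hN1, hH1, hlog, q, hq0, hqH, hqz⟩ := exists_small Z A
  obtain ⟨ε, hε, hε2⟩ := exists_eps Z q _ hqz
  refine ⟨ε, hε, {ptp q}, ?_, ?_⟩
  · intro Q hQ
    rw [Finset.mem_singleton] at hQ
    rw [hQ]
    intro h
    apply hq0
    funext i
    rw [← coeff_ptp q i, h]
    rfl
  · intro K _ R P x hxR hx0 havg s hs hnear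
    refine ⟨ptp q, Finset.mem_singleton_self _, ?_⟩
    rw [aeval_ptp]
    by_contra hne
    have hD := P.D_cast_pos
    have hmem : ptv q x ∈ R := by
      unfold ptv
      exact R.sum_mem fun i _ => R.mul_mem (intCast_mem R _) (R.pow_mem hxR _)
    have hpos := P.avg_lg_nonneg hmem hne
    have hlg := pt_lg P hH1 hqH x hne
    have hN1r : (1 : ℝ) ≤ N := by exact_mod_cast hN1
    have hH1r : (1 : ℝ) ≤ H := by exact_mod_cast hH1
    set c : ℝ := Real.log (((N : ℝ) + 1) * H) with hc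
    have hc0 : 0 ≤ c := by
      refine Real.log_nonneg ?_
      nlinarith
    have hsmall : ∀ i ∈ s, P.lg (.inl i) (ptv q x) ≤ -(A * N) := by
      intro i hi
      obtain ⟨z, hz, hzi⟩ := hnear i hi
      have h3 := hε2 z hz _ hzi
      rw [← pt_map] at h3
      rw [P.lg_inl]
      have h4 : 0 < ‖P.σ i (ptv q x)‖ := norm_pos_iff.mpr ((map_ne_zero (P.σ i)).mpr hne)
      have h5 := Real.log_le_log h4 h3
      rwa [Real.log_exp] at h5
    have hbr : ∀ w : P.Pl, 0 ≤ c * P.arch w + N * |P.lg w x| := fun w =>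
      add_nonneg (mul_nonneg hc0 (P.arch_nonneg _)) (mul_nonneg (Nat.cast_nonneg _) (abs_nonneg _))
    have hsum : ∑ w, P.lg w (ptv q x) ≤
        ∑ w, (c * P.arch w + N * |P.lg w x|) - ∑ i ∈ s, A * (N : ℝ) := by
      have h1 : ∑ i ∈ s, A * (N : ℝ) = ∑ i : Fin P.D, if i ∈ s then A * (N : ℝ) else 0 := by
        rw [Finset.sum_ite_mem, Finset.univ_inter]
      rw [h1, Fintype.sum_sum_type, Fintype.sum_sum_type]
      have h2 : ∑ i : Fin P.D, P.lg (.inl i) (ptv q x) ≤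
          ∑ i : Fin P.D, (c * P.arch (.inl i) + N * |P.lg (.inl i) x|) -
            ∑ i : Fin P.D, if i ∈ s then A * (N : ℝ) else 0 := by
        rw [← Finset.sum_sub_distrib]
        refine Finset.sum_le_sum fun i _ => ?_
        by_cases hi : i ∈ s
        · rw [if_pos hi]
          have h3 := hsmall i hi
          have h4 := hbr (.inl i)
          linarith
        · rw [if_neg hi, sub_zero]
          exact hlg _
      have h3 : ∑ j : Fin P.m, P.lg (.inr j) (ptv q x) ≤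
          ∑ j : Fin P.m, (c * P.arch (.inr j) + N * |P.lg (.inr j) x|) :=
        Finset.sum_le_sum fun j _ => hlg _
      linarith
    have harch : ∑ w, P.arch w = P.D := by
      simp [Places.arch, Fintype.sum_sum_type]
    rw [Finset.sum_add_distrib, ← Finset.mul_sum, ← Finset.mul_sum, harch, Finset.sum_const,
      nsmul_eq_mul] at hsum
    have hpos' : 0 ≤ ∑ w, P.lg w (ptv q x) := by
      have h1 : P.avg (fun w => P.lg w (ptv q x)) * P.D = ∑ w, P.lg w (ptv q x) := by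
        rw [Places.avg, div_mul_cancel₀ _ hD.ne']
      rw [← h1]
      exact mul_nonneg hpos hD.le
    have hS : ∑ w, |P.lg w x| ≤ B' * P.D := P.sum_le_of_avg_le (havg.trans hB')
    have h1 : (N : ℝ) * ∑ w, |P.lg w x| ≤ N * (B' * P.D) :=
      mul_le_mul_of_nonneg_left hS (by positivity)
    have h2 : θ * P.D * (A * N) ≤ s.card * (A * N) :=
      mul_le_mul_of_nonneg_right hs (by positivity)
    have h3 : c * P.D ≤ 2 * N * P.D := mul_le_mul_of_nonneg_right hlog hD.le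
    have h4 : 0 ≤ 2 * (N : ℝ) * P.D + N * (B' * P.D) - θ * P.D * (A * N) := by linarith
    have h5 : 2 * (N : ℝ) * P.D + N * (B' * P.D) - θ * P.D * (A * N) =
        (N * P.D) * ((B' + 2) - θ * A) := by ring
    rw [h5, hθA] at h4
    have h6 : 0 < (N : ℝ) * P.D := by positivity
    have h7 : (B' + 2) - 4 * (B' + 2) < 0 := by linarith
    nlinarith [mul_neg_of_pos_of_neg h6 h7]

end Pool.Agent.PT
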