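import Pool.Agent.Lib.MP_c95b3b_ag_PT.ExB

/-! MP_c95b3b_ag, project (P), block (T), module Res: the relation for the first coordinate.

If there is no point `(x, y)` with `x ≠ 0`, `y ≠ 0`, `f (x, y) = 0` take `m = 1`, `r 0 = 1`, `r j = 0` otherwise. So let `(x0, y0)` be such a point.
Then `d = deg_Y f ≥ 1`: otherwise `f = C p`, `p` irreducible of degree 1, `f = 0` is `x = x0`, and `{x = x0, |y| = 1}` is infinite; in the same way
`e = deg_X f = max_j deg f_j ≥ 1` is not needed. `f_0 ≠ 0` (otherwise `Y | f`, `f = const * Y`, no point with `y ≠ 0`).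

`f = ∑_{j ≤ d} f_j(X) Y^j`. For real `s, t` let `g_{s,t} = ∑_{j ≤ d} (∑_{i ≤ e} conj (f_ij) s^i X^(e-i)) t^j Y^(d-j)`
(`f_ij` = coefficient of `X^i Y^j`), i.e. `g_{s,t}(x, y) = x^e y^d conj(f)(s/x, t/y)`, and
`R_{s,t} = resultant f g_{s,t} d d` in `ℂ[X]` (`Polynomial.resultant`). Work with the ring `A = MvPolynomial (Fin 3) ℂ`
(variables `X, S, T`) or with `ℂ[X][S][T]`: `F, G ∈ A[Y]`, `resultant F G d d ∈ A`; the ring homomorphisms `A → ℂ[X]`
(`S, T ↦ s, t`) and `A → ℂ` give (`resultant_map_map`) that `R_{s,t}(x)` is polynomial in `x, s, t`: take for `r j s t` the coefficient of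
`X^j` and for `D` a bound for the degrees (`Ex.of_finset`).
(zero) `(x, y)` with `f (x, y) = 0`: `g_{|x|²,|y|²}(x, y) = x^e y^d conj (f (x, y)) = 0` since `|x|²/x = conj x`. A common root `y` of the two polynomials
`f(x, ·)`, `g(x, ·)` in `ℂ[Y]` (`exists_mul_add_mul_eq_C_resultant`, natDegree ≤ d both, `0 < d`) gives resultant `= 0`.
(exc) If `R_{s,t} = 0` in `ℂ[X]` (`s, t > 0`): then `f`, `g = g_{s,t}` are not coprime over the field `ℂ(X)` (natDegree of both is `d`:
coefficient of `Y^d` in `g` is `∑ conj (f_i0) s^i X^(e-i) ≠ 0`; `resultant_eq_zero_iff` or `resultant_ne_zero`), `f` is primitive (irreducible of degree `≥ 1` in `Y`) and irreducible over `ℂ(X)`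
(Gauss, `Polynomial.IsPrimitive.irreducible_iff_irreducible_map_fraction_map`), so `f | g` over `ℂ(X)` and in `ℂ[X][Y]`
(`IsPrimitive.dvd_iff_fraction_map_dvd_fraction_map`); comparing degrees in `Y` and in `X` (at an `f_j` of maximal degree `e`): `g = c f`, `c ∈ ℂ`, `c ≠ 0`, i.e.
`conj (f_ij) s^i t^j = c f_{e-i,d-j}` for all `i ≤ e`, `j ≤ d`. For two such pairs `(s, t)`, `(s', t')` this gives
`(s/s')^i (t/t')^j = c/c'` for all `(i, j)` with `f_ij ≠ 0`, so `i λ + j μ = κ` with `λ = log (s/s')`, `μ = log (t/t')`, and for every real `τ`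
`f (x0 e^(i τ λ), y0 e^(i τ μ)) = e^(i τ κ) f (x0, y0) = 0`. If `(λ, μ) ≠ 0` these are infinitely many points with the same absolute values: contradiction to `LogFin`.
(pos) if necessary increase `m` (coefficients `0`). -/

set_option autoImplicit false

noncomputable section

namespace Pool.Agent.PT

open Polynomial Finset

/-! ### polynomials whose coefficients are polynomials in two real variables -/

private def PEx (e L : ℕ) (P : ℝ → ℝ → ℂ[X]) : Prop :=
  (∀ s t, (P s t).natDegree ≤ e) ∧ ∀ j, ∃ A, Ex L A (fun s t => (P s t).coeff j)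

private theorem PEx.const {e L : ℕ} (p : ℂ[X]) (hp : p.natDegree ≤ e) :
    PEx e L (fun _ _ => p) :=
  ⟨fun _ _ => hp, fun j => ⟨_, Ex.const L (p.coeff j)⟩⟩

private theorem PEx.mono {e L e' L' : ℕ} {P : ℝ → ℝ → ℂ[X]} (h : PEx e L P) (he : e ≤ e')
    (hL : L ≤ L') : PEx e' L' P := by
  refine ⟨fun s t => (h.1 s t).trans he, fun j => ?_⟩
  obtain ⟨A, hA⟩ := h.2 j
  exact ⟨A, hA.mono hL le_rfl⟩

private theorem PEx.mul {e L e' L' : ℕ} {P Q : ℝ → ℝ → ℂ[X]} (h : PEx e L P)
    (h' : PEx e' L' Q) : PEx (e + e') (L + L') (fun s t => P s t * Q s t) := by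
  refine ⟨fun s t => natDegree_mul_le.trans (add_le_add (h.1 s t) (h'.1 s t)), fun j => ?_⟩
  choose A hA using h.2
  choose B hB using h'.2
  refine ⟨_, (Ex.sum (antidiagonal j) (fun x => A x.1 * B x.2)
    (fun x s t => (P s t).coeff x.1 * (Q s t).coeff x.2) fun x _ =>
      (hA x.1).mul (hB x.2)).congr fun s t => ?_⟩
  rw [coeff_mul]

private theorem PEx.sum {e L : ℕ} {ι : Type} (S : Finset ι) (P : ι → ℝ → ℝ → ℂ[X])
    (h : ∀ i ∈ S, PEx e L (P i)) : PEx e L (fun s t => ∑ i ∈ S, P i s t) := by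
  refine ⟨fun s t => natDegree_sum_le_of_forall_le _ _ fun i hi => (h i hi).1 s t, fun j => ?_⟩
  have h1 : ∀ i, ∃ A, i ∈ S → Ex L A (fun s t => (P i s t).coeff j) := by
    intro i
    by_cases hi : i ∈ S
    · obtain ⟨A, hA⟩ := (h i hi).2 j
      exact ⟨A, fun _ => hA⟩
    · exact ⟨0, fun h => absurd h hi⟩
  choose A hA using h1
  refine ⟨_, (Ex.sum S A (fun i s t => (P i s t).coeff j) fun i hi => hA i hi).congr
    fun s t => ?_⟩
  rw [finsetSum_coeff]

private theorem PEx.prod {e L : ℕ} {ι : Type} (S : Finset ι) (P : ι → ℝ → ℝ → ℂ[X])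
    (h : ∀ i ∈ S, PEx e L (P i)) :
    PEx (S.card * e) (S.card * L) (fun s t => ∏ i ∈ S, P i s t) := by
  classical
  induction S using Finset.induction_on with
  | empty =>
    simp only [prod_empty]
    exact PEx.const 1 (by simp)
  | insert a S ha ih =>
    have h1 := (h a (mem_insert_self a S)).mul (ih fun i hi => h i (mem_insert_of_mem hi))
    simp only [prod_insert ha]
    refine h1.mono (le_of_eq ?_) (le_of_eq ?_)
    · rw [card_insert_of_notMem ha]; ring
    · rw [card_insert_of_notMem ha]; ring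

private theorem PEx.det {e L n : ℕ} (M : ℝ → ℝ → Matrix (Fin n) (Fin n) ℂ[X])
    (h : ∀ i j, PEx e L (fun s t => M s t i j)) :
    PEx (n * e) (n * L) (fun s t => (M s t).det) := by
  simp only [Matrix.det_apply']
  refine PEx.sum _ (fun (σ : Equiv.Perm (Fin n)) s t =>
    ((Equiv.Perm.sign σ : ℤ) : ℂ[X]) * ∏ i, M s t (σ i) i) fun σ _ => ?_
  have h1 := PEx.prod univ (fun (i : Fin n) s t => M s t (σ i) i) fun i _ => h (σ i) i
  rw [card_univ, Fintype.card_fin] at h1
  have h2 : PEx 0 0 (fun (_ _ : ℝ) => ((Equiv.Perm.sign σ : ℤ) : ℂ[X])) :=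
    PEx.const _ (by simp)
  exact (h2.mul h1).mono (by omega) (by omega)

/-! ### the conjugate polynomial -/

/-- the coefficient of `X ^ l` in the coefficient of `Y ^ k` -/
private def gc (f : ℂ[X][X]) (d e : ℕ) (s t : ℝ) (k l : ℕ) : ℂ :=
  starRingEnd ℂ ((f.coeff (d - k)).coeff (e - l)) * (s : ℂ) ^ (e - l) * (t : ℂ) ^ (d - k)

private def gp (f : ℂ[X][X]) (d e : ℕ) (s t : ℝ) : ℂ[X][X] :=
  ∑ k ∈ range (d + 1), C (∑ l ∈ range (e + 1), C (gc f d e s t k l) * X ^ l) * X ^ k

private theorem gp_coeff (f : ℂ[X][X]) (d e : ℕ) (s t : ℝ) (k : ℕ) :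
    (gp f d e s t).coeff k =
      if k ≤ d then ∑ l ∈ range (e + 1), C (gc f d e s t k l) * X ^ l else 0 := by
  rw [gp, finsetSum_coeff]
  simp only [coeff_C_mul, coeff_X_pow, mul_ite, mul_one, mul_zero]
  rw [sum_ite_eq]
  simp only [mem_range, Nat.lt_succ_iff]

private theorem gp_coeff_coeff (f : ℂ[X][X]) (d e : ℕ) (s t : ℝ) (k l : ℕ) :
    ((gp f d e s t).coeff k).coeff l =
      if k ≤ d ∧ l ≤ e then gc f d e s t k l else 0 := by
  rw [gp_coeff]
  by_cases hk : k ≤ d
  · rw [if_pos hk, finsetSum_coeff]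
    simp only [coeff_C_mul, coeff_X_pow, mul_ite, mul_one, mul_zero]
    rw [sum_ite_eq]
    simp only [mem_range, Nat.lt_succ_iff, hk, true_and]
  · rw [if_neg hk, if_neg (fun h => hk h.1), coeff_zero]

private theorem gp_natDegree_le (f : ℂ[X][X]) (d e : ℕ) (s t : ℝ) :
    (gp f d e s t).natDegree ≤ d := by
  rw [natDegree_le_iff_coeff_eq_zero]
  intro k hk
  rw [gp_coeff, if_neg (not_le.2 hk)]

private theorem gp_pex (f : ℂ[X][X]) (d e : ℕ) (k : ℕ) :
    PEx e (max d e) (fun s t => (gp f d e s t).coeff k) := by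
  constructor
  · intro s t
    rw [natDegree_le_iff_coeff_eq_zero]
    intro l hl
    rw [gp_coeff_coeff, if_neg (fun h => absurd h.2 (not_le.2 hl))]
  · intro l
    by_cases h : k ≤ d ∧ l ≤ e
    · refine ⟨_, (Ex.mon (max d e) (e - l) (d - k) ?_ ?_
        (starRingEnd ℂ ((f.coeff (d - k)).coeff (e - l)))).congr fun s t => ?_⟩
      · exact (Nat.sub_le _ _).trans (le_max_right _ _)
      · exact (Nat.sub_le _ _).trans (le_max_left _ _)
      · rw [gp_coeff_coeff, if_pos h, gc]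
    · refine ⟨0, (Ex.zero _).congr fun s t => ?_⟩
      rw [gp_coeff_coeff, if_neg h]

/-- the resultant -/
private def res (f : ℂ[X][X]) (d e : ℕ) (s t : ℝ) : ℂ[X] := resultant f (gp f d e s t) d d

private theorem res_pex (f : ℂ[X][X]) (d e : ℕ) (hfe : ∀ j, (f.coeff j).natDegree ≤ e) :
    PEx ((d + d) * e) ((d + d) * max d e) (res f d e) := by
  refine PEx.det (fun s t => sylvester f (gp f d e s t) d d) fun i j => ?_
  unfold sylvester
  simp only [Matrix.of_apply]
  induction j using Fin.addCases with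
  | left j =>
    simp only [Fin.addCases_left]
    split_ifs
    · exact gp_pex f d e _
    · exact PEx.const 0 (by simp)
  | right j =>
    simp only [Fin.addCases_right]
    split_ifs
    · exact PEx.const _ (hfe _)
    · exact PEx.const 0 (by simp)

/-! ### evaluation -/

private theorem evalEval_eq_sum (f : ℂ[X][X]) (d e : ℕ) (hd : f.natDegree ≤ d)
    (hfe : ∀ j, (f.coeff j).natDegree ≤ e) (x y : ℂ) :
    f.evalEval x y = ∑ j ∈ range (d + 1), ∑ i ∈ range (e + 1),
      (f.coeff j).coeff i * x ^ i * y ^ j := by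
  rw [evalEval, eval_eq_sum_range' (Nat.lt_succ_of_le hd), eval_finsetSum]
  refine sum_congr rfl fun j _ => ?_
  rw [eval_mul, eval_pow, eval_C, eval_eq_sum_range' (Nat.lt_succ_of_le (hfe j)), sum_mul]

private theorem evalEval_gp (f : ℂ[X][X]) (d e : ℕ) (s t : ℝ) (x y : ℂ) :
    (gp f d e s t).evalEval x y = ∑ k ∈ range (d + 1), ∑ l ∈ range (e + 1),
      gc f d e s t k l * x ^ l * y ^ k := by
  rw [evalEval_eq_sum (gp f d e s t) d e (gp_natDegree_le f d e s t)
    (fun j => (gp_pex f d e j).1 s t)]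
  refine sum_congr rfl fun k hk => sum_congr rfl fun l hl => ?_
  rw [mem_range, Nat.lt_succ_iff] at hk hl
  rw [gp_coeff_coeff, if_pos ⟨hk, hl⟩]

private theorem gp_zero (f : ℂ[X][X]) (d e : ℕ) (hd : f.natDegree ≤ d)
    (hfe : ∀ j, (f.coeff j).natDegree ≤ e) (x y : ℂ) (h : f.evalEval x y = 0) :
    (gp f d e (‖x‖ ^ 2) (‖y‖ ^ 2)).evalEval x y = 0 := by
  have h1 : (gp f d e (‖x‖ ^ 2) (‖y‖ ^ 2)).evalEval x y =
      x ^ e * y ^ d * starRingEnd ℂ (f.evalEval x y) := by
    rw [evalEval_gp, evalEval_eq_sum f d e hd hfe, map_sum, mul_sum,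
      ← sum_range_reflect _ (d + 1)]
    refine sum_congr rfl fun k hk => ?_
    rw [map_sum, mul_sum, ← sum_range_reflect _ (e + 1)]
    refine sum_congr rfl fun l hl => ?_
    rw [mem_range, Nat.lt_succ_iff] at hk hl
    have e1 : d + 1 - 1 - k = d - k := by omega
    have e2 : e + 1 - 1 - l = e - l := by omega
    have e3 : d - (d - k) = k := by omega
    have e4 : e - (e - l) = l := by omega
    rw [e1, e2, gc, e3, e4]
    have hx : ((‖x‖ ^ 2 : ℝ) : ℂ) = x * starRingEnd ℂ x := by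
      rw [Complex.mul_conj, Complex.normSq_eq_norm_sq]
    have hy : ((‖y‖ ^ 2 : ℝ) : ℂ) = y * starRingEnd ℂ y := by
      rw [Complex.mul_conj, Complex.normSq_eq_norm_sq]
    rw [hx, hy, map_mul, map_mul, map_pow, map_pow, mul_pow, mul_pow]
    have e5 : x ^ e = x ^ l * x ^ (e - l) := by rw [← pow_add]; congr 1; omega
    have e6 : y ^ d = y ^ k * y ^ (d - k) := by rw [← pow_add]; congr 1; omega
    rw [e5, e6]
    ring
  rw [h1, h, map_zero, mul_zero]

private theorem res_eval_zero (f : ℂ[X][X]) (d e : ℕ) (hd : f.natDegree ≤ d) (hd0 : d ≠ 0)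
    (hfe : ∀ j, (f.coeff j).natDegree ≤ e) (x y : ℂ) (h : f.evalEval x y = 0) :
    (res f d e (‖x‖ ^ 2) (‖y‖ ^ 2)).eval x = 0 := by
  obtain ⟨p, q, -, -, hpq⟩ := exists_mul_add_mul_eq_C_resultant (m := d) (n := d) f
    (gp f d e (‖x‖ ^ 2) (‖y‖ ^ 2)) hd (gp_natDegree_le f d e _ _) (Or.inl hd0)
  have h1 := congrArg (fun F : ℂ[X][X] => F.evalEval x y) hpq
  simp only [evalEval_add, evalEval_mul, h, gp_zero f d e hd hfe x y h, zero_mul, add_zero,
    evalEval_C] at h1
  exact h1.symm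

/-! ### the exceptional case -/

private theorem exc_aux (f : ℂ[X][X]) (hf : Irreducible f) (d e : ℕ) (hd : f.natDegree = d)
    (hd0 : d ≠ 0) (hf0 : f.coeff 0 ≠ 0) (hfe : ∀ j, (f.coeff j).natDegree ≤ e)
    (j0 : ℕ) (hj0 : (f.coeff j0).coeff e ≠ 0) (s t : ℝ) (hs : 0 < s)
    (h : res f d e s t = 0) :
    ∃ c : ℂ, c ≠ 0 ∧ ∀ k l, k ≤ d → l ≤ e → gc f d e s t k l = c * (f.coeff k).coeff l := by
  have hg0 : (gp f d e s t).coeff d ≠ 0 := by
    intro h0
    apply hf0
    ext i
    rw [coeff_zero]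
    by_cases hi : i ≤ e
    · have h1 := gp_coeff_coeff f d e s t d (e - i)
      rw [h0, coeff_zero, if_pos ⟨le_rfl, Nat.sub_le _ _⟩, gc, Nat.sub_self, pow_zero, mul_one,
        show e - (e - i) = i by omega] at h1
      have h2 : (s : ℂ) ^ i ≠ 0 := pow_ne_zero _ (by exact_mod_cast hs.ne')
      have h3 := (mul_eq_zero.1 h1.symm).resolve_right h2
      exact (map_eq_zero _).1 h3
    · exact coeff_eq_zero_of_natDegree_lt ((hfe 0).trans_lt (not_le.1 hi))
  have hgd : (gp f d e s t).natDegree = d :=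
    le_antisymm (gp_natDegree_le f d e s t) (le_natDegree_of_ne_zero hg0)
  have hprim : f.IsPrimitive := hf.isPrimitive (by rw [hd]; exact hd0)
  have hdvd : f ∣ gp f d e s t := by
    apply hprim.dvd_of_fraction_map_dvd_fraction_map (K := RatFunc ℂ)
    have hinj : Function.Injective (algebraMap ℂ[X] (RatFunc ℂ)) :=
      IsFractionRing.injective _ _
    have h1 : Irreducible (f.map (algebraMap ℂ[X] (RatFunc ℂ))) :=
      hprim.irreducible_iff_irreducible_map_fraction_map.1 hf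
    by_contra hnd
    have h2 := h1.coprime_iff_not_dvd.2 hnd
    have h3 := resultant_ne_zero _ _ h2
    apply h3
    rw [natDegree_map_eq_of_injective hinj, natDegree_map_eq_of_injective hinj, hd, hgd,
      resultant_map_map]
    have h4 : resultant f (gp f d e s t) d d = 0 := h
    rw [h4, map_zero]
  obtain ⟨q, hq⟩ := hdvd
  have hf1 : f ≠ 0 := hf.ne_zero
  have hg1 : gp f d e s t ≠ 0 := fun h0 => hg0 (by rw [h0, coeff_zero])
  have hq1 : q ≠ 0 := by
    rintro rfl
    exact hg1 (by rw [hq, mul_zero])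
  have hqd : q.natDegree = 0 := by
    have h1 := natDegree_mul hf1 hq1
    rw [← hq, hgd, hd] at h1
    omega
  obtain ⟨q0, rfl⟩ : ∃ q0, q = C q0 := ⟨_, eq_C_of_natDegree_eq_zero hqd⟩
  have hq0 : q0 ≠ 0 := fun h0 => hq1 (by rw [h0, C_0])
  have hcoef : ∀ k, (gp f d e s t).coeff k = f.coeff k * q0 := by
    intro k
    rw [hq, coeff_mul_C]
  have hj1 : f.coeff j0 ≠ 0 := fun h0 => hj0 (by rw [h0, coeff_zero])
  have hj2 : (f.coeff j0).natDegree = e :=
    le_antisymm (hfe j0) (le_natDegree_of_ne_zero hj0)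
  have hq0d : q0.natDegree = 0 := by
    have h1 := natDegree_mul hj1 hq0
    rw [← hcoef, hj2] at h1
    have h2 := (gp_pex f d e j0).1 s t
    simp only at h2
    omega
  obtain ⟨c, rfl⟩ : ∃ c, q0 = C c := ⟨_, eq_C_of_natDegree_eq_zero hq0d⟩
  refine ⟨c, fun h0 => hq0 (by rw [h0, C_0]), fun k l hk hl => ?_⟩
  have h1 := gp_coeff_coeff f d e s t k l
  rw [if_pos ⟨hk, hl⟩, hcoef, coeff_mul_C] at h1
  rw [← h1, mul_comm]

/-- for all exponents in the support the same relation -/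
private theorem exc_rel (f : ℂ[X][X]) (hf : Irreducible f) (d e : ℕ) (hd : f.natDegree = d)
    (hd0 : d ≠ 0) (hf0 : f.coeff 0 ≠ 0) (hfe : ∀ j, (f.coeff j).natDegree ≤ e)
    (j0 : ℕ) (hj0 : (f.coeff j0).coeff e ≠ 0) (s t s' t' : ℝ) (hs : 0 < s) (ht : 0 < t)
    (hs' : 0 < s') (ht' : 0 < t') (h : res f d e s t = 0) (h' : res f d e s' t' = 0) :
    ∃ κ : ℝ, ∀ i j : ℕ, (f.coeff j).coeff i ≠ 0 →
      i * Real.log (s / s') + j * Real.log (t / t') = κ := by
  obtain ⟨c, hc, h1⟩ := exc_aux f hf d e hd hd0 hf0 hfe j0 hj0 s t hs h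
  obtain ⟨c', hc', h1'⟩ := exc_aux f hf d e hd hd0 hf0 hfe j0 hj0 s' t' hs' h'
  have key : ∀ i j : ℕ, (f.coeff j).coeff i ≠ 0 →
      (((s / s') ^ i * (t / t') ^ j : ℝ) : ℂ) = c / c' := by
    intro i j hij
    have hi : i ≤ e := by
      by_contra hi
      exact hij (coeff_eq_zero_of_natDegree_lt ((hfe j).trans_lt (not_le.1 hi)))
    have hj : j ≤ d := by
      by_contra hj
      apply hij
      rw [show f.coeff j = 0 from coeff_eq_zero_of_natDegree_lt (by omega), coeff_zero]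
    have h2 := h1 (d - j) (e - i) (Nat.sub_le _ _) (Nat.sub_le _ _)
    have h2' := h1' (d - j) (e - i) (Nat.sub_le _ _) (Nat.sub_le _ _)
    rw [gc, show d - (d - j) = j by omega, show e - (e - i) = i by omega] at h2 h2'
    have hs1 : (s : ℂ) ≠ 0 := by exact_mod_cast hs.ne'
    have ht1 : (t : ℂ) ≠ 0 := by exact_mod_cast ht.ne'
    have hs1' : (s' : ℂ) ≠ 0 := by exact_mod_cast hs'.ne'
    have ht1' : (t' : ℂ) ≠ 0 := by exact_mod_cast ht'.ne'
    have h3 : starRingEnd ℂ ((f.coeff j).coeff i) ≠ 0 := by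
      rw [Ne, map_eq_zero]
      exact hij
    have h4 : (f.coeff (d - j)).coeff (e - i) ≠ 0 := by
      intro h0
      rw [h0, mul_zero] at h2
      exact mul_ne_zero (mul_ne_zero h3 (pow_ne_zero _ hs1)) (pow_ne_zero _ ht1) h2
    push_cast
    rw [div_pow, div_pow]
    have h5 : (s : ℂ) ^ i * (t : ℂ) ^ j * (c' * (f.coeff (d - j)).coeff (e - i)) =
        (s' : ℂ) ^ i * (t' : ℂ) ^ j * (c * (f.coeff (d - j)).coeff (e - i)) := by
      rw [← h2, ← h2']
      ring
    have h6 : (s : ℂ) ^ i * (t : ℂ) ^ j * c' = (s' : ℂ) ^ i * (t' : ℂ) ^ j * c := by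
      apply mul_right_cancel₀ h4
      linear_combination h5
    have h7 : (s' : ℂ) ^ i ≠ 0 := pow_ne_zero _ hs1'
    have h8 : (t' : ℂ) ^ j ≠ 0 := pow_ne_zero _ ht1'
    field_simp
    linear_combination h6
  refine ⟨Real.log (‖c / c'‖), fun i j hij => ?_⟩
  have h2 := key i j hij
  have h3 : 0 < (s / s') ^ i * (t / t') ^ j := by positivity
  rw [← h2, Complex.norm_real, Real.norm_of_nonneg h3.le,
    Real.log_mul (by positivity) (by positivity), Real.log_pow, Real.log_pow]

private theorem infinite_of_rel (f : ℂ[X][X]) (hfin : LogFin f) (x0 y0 : ℂ) (hx0 : x0 ≠ 0)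
    (hy0 : y0 ≠ 0) (h0 : f.evalEval x0 y0 = 0) (lam mu κ : ℝ)
    (h : ∀ i j : ℕ, (f.coeff j).coeff i ≠ 0 → i * lam + j * mu = κ) : lam = 0 ∧ mu = 0 := by
  set F : ℝ → ℂ × ℂ := fun τ => (x0 * Complex.exp ((τ * lam : ℝ) * Complex.I),
    y0 * Complex.exp ((τ * mu : ℝ) * Complex.I)) with hF
  have hmem : ∀ τ, F τ ∈ {p : ℂ × ℂ | f.evalEval p.1 p.2 = 0 ∧ ‖p.1‖ = ‖x0‖ ∧
      ‖p.2‖ = ‖y0‖} := by
    intro τ
    refine ⟨?_, ?_, ?_⟩
    · set e := (range (f.natDegree + 1)).sup fun j => (f.coeff j).natDegree with he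
      have hfe : ∀ j, (f.coeff j).natDegree ≤ e := by
        intro j
        by_cases hj : j ∈ range (f.natDegree + 1)
        · exact le_sup (f := fun j => (f.coeff j).natDegree) hj
        · rw [mem_range, Nat.lt_succ_iff, not_le] at hj
          rw [coeff_eq_zero_of_natDegree_lt hj]
          simp
      have h1 : f.evalEval (F τ).1 (F τ).2 =
          Complex.exp ((τ * κ : ℝ) * Complex.I) * f.evalEval x0 y0 := by
        rw [evalEval_eq_sum f f.natDegree e le_rfl hfe, evalEval_eq_sum f f.natDegree e le_rfl hfe,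
          mul_sum]
        refine sum_congr rfl fun j _ => ?_
        rw [mul_sum]
        refine sum_congr rfl fun i _ => ?_
        by_cases hij : (f.coeff j).coeff i = 0
        · rw [hij]
          ring
        · have h2 := h i j hij
          have h3 : Complex.exp ((τ * κ : ℝ) * Complex.I) =
              Complex.exp ((τ * lam : ℝ) * Complex.I) ^ i *
              Complex.exp ((τ * mu : ℝ) * Complex.I) ^ j := by
            rw [← Complex.exp_nat_mul, ← Complex.exp_nat_mul, ← Complex.exp_add, ← h2]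
            congr 1
            push_cast
            ring
          rw [h3, hF]
          simp only [mul_pow]
          ring
      rw [h1, h0, mul_zero]
    · rw [hF]
      simp only [norm_mul, Complex.norm_exp_ofReal_mul_I, mul_one]
    · rw [hF]
      simp only [norm_mul, Complex.norm_exp_ofReal_mul_I, mul_one]
  have hfinite := hfin ‖x0‖ ‖y0‖ (norm_pos_iff.2 hx0) (norm_pos_iff.2 hy0)
  have hcont : ∀ (z : ℂ) (a : ℝ), z ≠ 0 → a ≠ 0 →
      Set.InjOn (fun τ : ℝ => z * Complex.exp ((τ * a : ℝ) * Complex.I))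
        (Set.Ioo 0 (1 / |a|)) := by
    intro z a hz ha τ hτ τ' hτ' heq
    have h1 := mul_left_cancel₀ hz heq
    rw [Complex.exp_eq_exp_iff_exists_int] at h1
    obtain ⟨n, hn⟩ := h1
    have h2 : τ * a = τ' * a + n * (2 * Real.pi) := by
      have h3 := congrArg Complex.im hn
      simp at h3
      linear_combination h3
    have ha' : 0 < |a| := abs_pos.2 ha
    have h4 : |τ * a - τ' * a| < 1 := by
      rw [← sub_mul, abs_mul]
      have h5 : |τ - τ'| < 1 / |a| := by
        rw [abs_lt]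
        obtain ⟨h6, h7⟩ := hτ
        obtain ⟨h8, h9⟩ := hτ'
        constructor <;> linarith
      calc |τ - τ'| * |a| < 1 / |a| * |a| := mul_lt_mul_of_pos_right h5 ha'
        _ = 1 := by field_simp
    have h5 : n = 0 := by
      by_contra hn0
      have h6 : (1 : ℝ) ≤ |(n : ℝ)| := by
        exact_mod_cast Int.one_le_abs hn0
      have h7 : |τ * a - τ' * a| = |(n : ℝ)| * (2 * Real.pi) := by
        rw [h2, add_sub_cancel_left, abs_mul, abs_of_pos (by positivity : 0 < 2 * Real.pi)]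
      have h8 := Real.pi_gt_three
      nlinarith
    rw [h5] at h2
    simp only [Int.cast_zero, zero_mul, add_zero] at h2
    exact mul_right_cancel₀ ha h2
  have hinf : ∀ a : ℝ, a ≠ 0 → (Set.Ioo 0 (1 / |a|)).Infinite := fun a ha =>
    Set.Ioo_infinite (by positivity)
  have hno : ∀ a : ℝ, a ≠ 0 → Set.InjOn F (Set.Ioo 0 (1 / |a|)) → False := by
    intro a ha hinj
    exact ((hinf a ha).image hinj) (hfinite.subset (by
      rintro _ ⟨τ, -, rfl⟩
      exact hmem τ))
  constructor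
  · by_contra ha
    refine hno lam ha fun τ hτ τ' hτ' heq => hcont x0 lam hx0 ha hτ hτ' ?_
    exact congrArg Prod.fst heq
  · by_contra ha
    refine hno mu ha fun τ hτ τ' hτ' heq => hcont y0 mu hy0 ha hτ hτ' ?_
    exact congrArg Prod.snd heq

theorem exists_rel (f : ℂ[X][X]) (hf : Irreducible f) (hfin : LogFin f) :
    ∃ (m D : ℕ) (r : ℕ → ℝ → ℝ → ℂ), Rel f m D r := by
  by_cases hpt : ∃ x0 y0 : ℂ, x0 ≠ 0 ∧ y0 ≠ 0 ∧ f.evalEval x0 y0 = 0
  swap
  · push Not at hpt
    refine ⟨1, 0, fun j _ _ => if j = 0 then 1 else 0, le_rfl, ?_, ?_, ?_⟩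
    · intro j
      exact ⟨_, Ex.const 0 _⟩
    · intro x y hx hy h
      exact absurd h (hpt x y hx hy)
    · intro s t s' t' _ _ _ _ h _
      have h1 := h 0
      rw [rv, sum_range_succ, sum_range_succ] at h1
      simp at h1
  obtain ⟨x0, y0, hx0, hy0, h0⟩ := hpt
  have hd0 : f.natDegree ≠ 0 := by
    intro hd
    obtain ⟨p, rfl⟩ : ∃ p, f = C p := ⟨_, eq_C_of_natDegree_eq_zero hd⟩
    rw [evalEval_C] at h0
    have h1 := infinite_of_rel (C p) hfin x0 y0 hx0 hy0 (by rw [evalEval_C]; exact h0) 0 1 0 (by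
      intro i j hij
      have hj : j = 0 := by
        by_contra hj
        rw [coeff_C, if_neg hj, coeff_zero] at hij
        exact hij rfl
      rw [hj]
      simp)
    exact one_ne_zero h1.2
  have hf0 : f.coeff 0 ≠ 0 := by
    intro hc
    obtain ⟨u, hu⟩ := X_dvd_iff.2 hc
    have hX : ¬ IsUnit (X : ℂ[X][X]) := not_isUnit_X
    have hunit := (hf.isUnit_or_isUnit hu).resolve_left hX
    rw [hu, evalEval_mul, evalEval_X] at h0
    have h1 := (mul_eq_zero.1 h0).resolve_left hy0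
    have h2 := hunit.map (evalEvalRingHom x0 y0)
    rw [coe_evalEvalRingHom, h1] at h2
    exact not_isUnit_zero h2
  obtain ⟨e, hfe, j0, hj0⟩ : ∃ e : ℕ, (∀ j, (f.coeff j).natDegree ≤ e) ∧
      ∃ j0, (f.coeff j0).coeff e ≠ 0 := by
    have hne : f.support.Nonempty := nonempty_support_iff.2 hf.ne_zero
    obtain ⟨j0, hj0, hmax⟩ := exists_max_image f.support (fun j => (f.coeff j).natDegree) hne
    refine ⟨(f.coeff j0).natDegree, ?_, j0, ?_⟩
    · intro j
      by_cases hj : j ∈ f.support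
      · exact hmax j hj
      · rw [notMem_support_iff.1 hj]
        simp
    · rw [coeff_natDegree, Ne, leadingCoeff_eq_zero]
      exact mem_support_iff.1 hj0
  have hpex := res_pex f f.natDegree e hfe
  set d := f.natDegree with hd
  have hrv : ∀ s t x, rv ((d + d) * e + 1) (fun j s t => (res f d e s t).coeff j) s t x =
      (res f d e s t).eval x := by
    intro s t x
    rw [rv, eval_eq_sum_range' (n := (d + d) * e + 1 + 1)]
    have := hpex.1 s t
    omega
  refine ⟨(d + d) * e + 1, (d + d) * max d e, fun j s t => (res f d e s t).coeff j, by omega,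
    hpex.2, ?_, ?_⟩
  · intro x y _ _ h
    rw [hrv]
    exact res_eval_zero f d e le_rfl hd0 hfe x y h
  · intro s t s' t' hs ht hs' ht' h h'
    have h1 : res f d e s t = 0 := Polynomial.funext fun x => by rw [← hrv, h, eval_zero]
    have h1' : res f d e s' t' = 0 := Polynomial.funext fun x => by rw [← hrv, h', eval_zero]
    obtain ⟨κ, hκ⟩ := exc_rel f hf d e rfl hd0 hf0 hfe j0 hj0 s t s' t' hs ht hs' ht' h1 h1'
    obtain ⟨h2, h3⟩ := infinite_of_rel f hfin x0 y0 hx0 hy0 h0 _ _ κ hκ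
    have h4 : ∀ a b : ℝ, 0 < a → 0 < b → Real.log (a / b) = 0 → a = b := by
      intro a b ha hb hab
      have h5 : a / b = 1 := Real.eq_one_of_pos_of_log_eq_zero (div_pos ha hb) hab
      exact (div_eq_one_iff_eq hb.ne').1 h5
    exact ⟨h4 s s' hs hs' h2, h4 t t' ht ht' h3⟩

end Pool.Agent.PT
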