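import Pool.Agent.Lib.MP_c95b3b_ag_PT.Red
import Pool.Agent.Lib.MP_c95b3b_ag_PT.Res
import Pool.Agent.Lib.MP_c95b3b_ag_PT.Cells
import Pool.Agent.Lib.MP_c95b3b_ag_PT.Point
import Pool.Agent.Lib.MP_c95b3b_ag_PT.Cell

/-! MP_c95b3b_ag, project (P), block (T), module Main: Theorem T for products of plane curves. -/

set_option autoImplicit false

noncomputable section

namespace Pool.Agent.PT

open Polynomial Finset Pool.Agent.L3

namespace Main

/-- a positive lower bound for finitely many positive numbers -/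
theorem exists_min {ι : Type} [Fintype ι] (g : ι → ℝ) (hg : ∀ i, 0 < g i) :
    ∃ δ : ℝ, 0 < δ ∧ ∀ i, δ ≤ g i := by
  classical
  rcases isEmpty_or_nonempty ι with h | h
  · exact ⟨1, one_pos, fun i => h.elim i⟩
  · refine ⟨univ.inf' univ_nonempty g, ?_, fun i => inf'_le g (mem_univ i)⟩
    obtain ⟨i, -, hi⟩ := exists_mem_eq_inf' (univ_nonempty (α := ι)) g
    rw [hi]
    exact hg i

theorem pad (m n : ℕ) (hn : n ≤ m) (a u : ℂ) (b : ℕ → ℂ)
    (h : a * u ^ n = ∑ j ∈ range n, b j * u ^ j) :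
    a * u ^ m = ∑ j ∈ range m, (if m - n ≤ j then b (j - (m - n)) else 0) * u ^ j := by
  obtain ⟨d, rfl⟩ := Nat.exists_eq_add_of_le hn
  have e : n + d - n = d := by omega
  rw [e, add_comm n d, pow_add, sum_range_add]
  have h1 : ∑ j ∈ range d, (if d ≤ j then b (j - d) else 0) * u ^ j = 0 := by
    refine sum_eq_zero fun j hj => ?_
    rw [if_neg (by have := mem_range.mp hj; omega), zero_mul]
  rw [h1, zero_add]
  calc a * (u ^ d * u ^ n) = u ^ d * (a * u ^ n) := by ring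
    _ = ∑ j ∈ range n, (if d ≤ d + j then b (d + j - d) else 0) * u ^ (d + j) := by
        rw [h, mul_sum]
        refine sum_congr rfl fun j _ => ?_
        rw [if_pos (Nat.le_add_right _ _), Nat.add_sub_cancel_left, pow_add]
        ring

theorem lift_ne {k : ℕ} (i : Fin k) (Q : ℤ[X]) (hQ : Q ≠ 0) :
    aeval (MvPolynomial.X i : MvPolynomial (Fin k) ℤ) Q ≠ 0 := by
  intro h
  apply hQ
  have h1 := congrArg (MvPolynomial.aeval (fun _ : Fin k => (X : ℤ[X]))) h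
  rw [map_zero, ← Polynomial.aeval_algHom_apply, MvPolynomial.aeval_X] at h1
  simpa using h1

theorem lift_eval {k : ℕ} (i : Fin k) (Q : ℤ[X]) {K : Type} [Field K] (x : Fin k → K) :
    MvPolynomial.aeval x (aeval (MvPolynomial.X i : MvPolynomial (Fin k) ℤ) Q) =
      aeval (x i) Q := by
  rw [← Polynomial.aeval_algHom_apply, MvPolynomial.aeval_X]

theorem lin_ne {k : ℕ} (i : Fin k) (c : ℕ) :
    (MvPolynomial.X i - MvPolynomial.C (c : ℤ) : MvPolynomial (Fin k) ℤ) ≠ 0 := by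
  intro h
  have h1 := congrArg (MvPolynomial.aeval (fun _ : Fin k => ((c : ℤ) + 1))) h
  rw [map_zero, map_sub, MvPolynomial.aeval_X] at h1
  simp at h1

theorem sum_sq_nonneg {k : ℕ} {K : Type} [Field K] {R : Subring K} (P : Places K R)
    (x y : Fin k → K) (w : P.Pl) : 0 ≤ ∑ i, (|P.lg w (x i)| + |P.lg w (y i)|) :=
  sum_nonneg fun i _ => add_nonneg (abs_nonneg _) (abs_nonneg _)

end Main

open Main in
theorem T_curves (k q : ℕ) (hk : 1 ≤ k) (f : Fin k → ℂ[X][X]) (hf : ∀ i, Irreducible (f i))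
    (hfin : ∀ i, LogFin (f i)) (B θ : ℝ) (hθ : 0 < θ) : ∃ η : ℝ, 0 < η ∧
    ∃ 𝒬 : Finset (MvPolynomial (Fin k) ℤ), (∀ Q ∈ 𝒬, Q ≠ 0) ∧
      ∀ (K : Type) [Field K] (R : Subring K) (P : Places K R) (x y : Fin k → K),
        (∀ i, x i ∈ R) → (∀ i, x i ≠ 0 ∧ y i ≠ 0) →
        P.avg (fun w => ∑ i, (|P.lg w (x i)| + |P.lg w (y i)|)) ≤ B →
        ∀ (p : Fin q → Fin k → ℝ × ℝ) (E : Fin q → Submodule ℝ (Fin k → ℝ × ℝ))
          (s : Finset (Fin P.D)),
          (∀ l, Module.finrank ℝ (E l) < k) → θ * P.D ≤ s.card →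
          (∀ i ∈ s, ∀ a, (f a).evalEval (P.σ i (x a)) (P.σ i (y a)) = 0) →
          (∀ i ∈ s, ∃ l, ∃ e ∈ E l,
            ‖(fun a => (P.lg (.inl i) (x a), P.lg (.inl i) (y a))) - p l - e‖ ≤ η) →
          ∃ Q ∈ 𝒬, MvPolynomial.aeval x Q = 0 := by
  classical
  have hk' : (1 : ℝ) ≤ k := by exact_mod_cast hk
  have hk0 : (0 : ℝ) < k := by linarith
  obtain ⟨B', hB', hB1⟩ : ∃ B', B ≤ B' ∧ 1 ≤ B' := ⟨max B 1, le_max_left _ _, le_max_right _ _⟩
  choose mi Di ri hri using fun i => exists_rel (f i) (hf i) (hfin i)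
  choose Z hZ using fun i => cells (f i) (hfin i) (mi i) (Di i) (ri i) (hri i)
  obtain ⟨θ1, hθ1d⟩ : ∃ θ1, θ1 = θ / (4 * k) := ⟨_, rfl⟩
  have hθ1 : 0 < θ1 := by rw [hθ1d]; positivity
  obtain ⟨lam, hlam⟩ : ∃ lam : ℝ, lam = 4 * B' / θ := ⟨_, rfl⟩
  have hlam0 : 0 < lam := by rw [hlam]; positivity
  choose ε hε 𝒬p h𝒬p hpt using fun i => T_point (Z i) B' θ1 hθ1
  choose δ hδ hcell using fun i => hZ i lam (ε i) (hε i)
  obtain ⟨δ0, hδ0, hδ0le⟩ := exists_min δ hδ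
  obtain ⟨m, hm⟩ : ∃ m, m = ∑ i, mi i := ⟨_, rfl⟩
  obtain ⟨D, hD⟩ : ∃ D, D = ∑ i, Di i := ⟨_, rfl⟩
  have hmi : ∀ i, mi i ≤ m := fun i => by
    rw [hm]
    exact single_le_sum (f := mi) (fun _ _ => Nat.zero_le _) (mem_univ i)
  have hDi : ∀ i, Di i ≤ D := fun i => by
    rw [hD]
    exact single_le_sum (f := Di) (fun _ _ => Nat.zero_le _) (mem_univ i)
  have hm1 : 1 ≤ m := (hri ⟨0, hk⟩).pos.trans (hmi _)
  obtain ⟨θ2, hθ2d⟩ : ∃ θ2 : ℝ, θ2 = θ / (2 * (m + 1) ^ k) := ⟨_, rfl⟩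
  have hθ2 : 0 < θ2 := by rw [hθ2d]; positivity
  choose bb hbb hrel using fun (i : Fin k) (c : ℕ) =>
    (cell_rel (mi i) (Di i) (ri i) (hri i).ex (c : ℂ)).2
  have hea : ∀ (i : Fin k) (c : ℕ), ∃ A, Ex D A (fun s t => rv (mi i) (ri i) s t (c : ℂ)) := by
    intro i c
    obtain ⟨A, hA⟩ := (cell_rel (mi i) (Di i) (ri i) (hri i).ex (c : ℂ)).1
    exact ⟨A, hA.mono (hDi i) le_rfl⟩
  have heb : ∀ (i : Fin k) (c j : ℕ), ∃ A, Ex D A
      (fun s t => if m - mi i ≤ j then bb i c (j - (m - mi i)) s t else 0) := by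
    intro i c j
    by_cases h : m - mi i ≤ j
    · obtain ⟨A, hA⟩ := hbb i c (j - (m - mi i))
      exact ⟨A, (hA.mono (hDi i) le_rfl).congr fun s t => by rw [if_pos h]⟩
    · exact ⟨0, (Ex.zero D).congr fun s t => by rw [if_neg h]⟩
  choose η hη 𝒬c h𝒬c hT using fun c : Fin k → Fin (m + 1) =>
    T_cell k q m D hk hm1 (fun i s t => rv (mi i) (ri i) s t ((c i : ℕ) : ℂ))
      (fun i j s t => if m - mi i ≤ j then bb i (c i : ℕ) (j - (m - mi i)) s t else 0)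
      (fun i => (c i : ℕ)) (fun i => hea i _) (fun i j => heb i _ j) B' θ2 δ0 hθ2 hδ0
  obtain ⟨η0, hη0, hη0le⟩ := exists_min η hη
  refine ⟨η0, hη0, univ.biUnion 𝒬c ∪ ((univ.biUnion fun i => (𝒬p i).image
    (fun Q => aeval (MvPolynomial.X i : MvPolynomial (Fin k) ℤ) Q)) ∪
      univ.biUnion fun i => (range (m + 1)).image
        (fun c : ℕ => (MvPolynomial.X i - MvPolynomial.C (c : ℤ) : MvPolynomial (Fin k) ℤ))),
    ?_, ?_⟩
  · intro Q hQ
    rcases mem_union.mp hQ with hQ | hQ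
    · obtain ⟨c, -, hQ⟩ := mem_biUnion.mp hQ
      exact h𝒬c c Q hQ
    · rcases mem_union.mp hQ with hQ | hQ
      · obtain ⟨i, -, hQ⟩ := mem_biUnion.mp hQ
        obtain ⟨Q', hQ', rfl⟩ := mem_image.mp hQ
        exact lift_ne i Q' (h𝒬p i Q' hQ')
      · obtain ⟨i, -, hQ⟩ := mem_biUnion.mp hQ
        obtain ⟨c, -, rfl⟩ := mem_image.mp hQ
        exact lin_ne i c
  intro K _ R P x y hxR hxy havg p E s hE hs hon hnear
  have hDp := P.D_cast_pos
  by_cases hex : ∃ i, ∃ c ∈ range (m + 1), x i = ((c : ℕ) : K)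
  · obtain ⟨i, c, hc, hxc⟩ := hex
    refine ⟨MvPolynomial.X i - MvPolynomial.C (c : ℤ), ?_, ?_⟩
    · exact mem_union_right _ (mem_union_right _ (mem_biUnion.mpr ⟨i, mem_univ i,
        mem_image.mpr ⟨c, hc, rfl⟩⟩))
    · rw [map_sub, MvPolynomial.aeval_X, hxc]
      simp
  have hex' : ∀ i, ∀ c : ℕ, c < m + 1 → x i ≠ ((c : ℕ) : K) := fun i c hc h =>
    hex ⟨i, c, mem_range.mpr hc, h⟩
  set S : P.Pl → ℝ := fun w => ∑ i, (|P.lg w (x i)| + |P.lg w (y i)|) with hS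
  have hS0 : ∀ w, 0 ≤ S w := fun w => sum_sq_nonneg P x y w
  have hSavg : P.avg S ≤ B' := havg.trans hB'
  have hSsum : ∑ w, S w ≤ B' * P.D := P.sum_le_of_avg_le hSavg
  -- points near the exceptional points
  by_cases hpt' : ∃ i, θ1 * P.D ≤
      ((s.filter fun j => ∃ z ∈ Z i, ‖P.σ j (x i) - z‖ ≤ ε i).card : ℝ)
  · obtain ⟨i, hi⟩ := hpt'
    have h1 : P.avg (fun w => |P.lg w (x i)|) ≤ B' := by
      refine (P.avg_mono fun w => ?_).trans hSavg
      have h2 : |P.lg w (x i)| + |P.lg w (y i)| ≤ S w :=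
        single_le_sum (f := fun l => |P.lg w (x l)| + |P.lg w (y l)|)
          (fun _ _ => add_nonneg (abs_nonneg _) (abs_nonneg _)) (mem_univ i)
      linarith [abs_nonneg (P.lg w (y i))]
    obtain ⟨Q, hQ, hQ0⟩ := hpt i K R P (x i) (hxR i) (hxy i).1 h1 _ hi
      (fun j hj => (mem_filter.mp hj).2)
    refine ⟨aeval (MvPolynomial.X i : MvPolynomial (Fin k) ℤ) Q, ?_, ?_⟩
    · exact mem_union_right _ (mem_union_left _ (mem_biUnion.mpr ⟨i, mem_univ i,
        mem_image.mpr ⟨Q, hQ, rfl⟩⟩))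
    · rw [lift_eval]
      exact hQ0
  have hpt'' : ∀ i, ((s.filter fun j => ∃ z ∈ Z i, ‖P.σ j (x i) - z‖ ≤ ε i).card : ℝ) ≤
      θ1 * P.D := fun i => (not_le.mp fun h => hpt' ⟨i, h⟩).le
  -- the good embeddings
  set s' : Finset (Fin P.D) := s.filter fun j => S (.inl j) ≤ lam ∧
    ∀ i, ¬ ∃ z ∈ Z i, ‖P.σ j (x i) - z‖ ≤ ε i with hs'
  have hbad : ((s.filter fun j => ¬ S (.inl j) ≤ lam).card : ℝ) ≤ P.D * (θ / 4) := by
    have h1 : ∑ i ∈ s.filter (fun i : Fin P.D => ¬ S (.inl i) ≤ lam), lam ≤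
        ∑ i, S (.inl i) := by
      refine (Finset.sum_le_sum (g := fun i => S (.inl i)) ?_).trans
        (Finset.sum_le_sum_of_subset_of_nonneg (Finset.subset_univ _) fun i _ _ => hS0 _)
      intro i hi
      exact (not_le.mp (Finset.mem_filter.mp hi).2).le
    rw [Finset.sum_const, nsmul_eq_mul] at h1
    have h2 := (h1.trans (P.sum_inl_le hS0)).trans hSsum
    by_contra hcon
    have h6 := mul_lt_mul_of_pos_right (not_le.mp hcon) hlam0
    have h7 : (P.D : ℝ) * (θ / 4) * lam = B' * P.D := by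
      rw [hlam]
      field_simp
    linarith
  have hs'card : (P.D : ℝ) * (θ / 2) ≤ s'.card := by
    have h1 : s ⊆ s' ∪ ((s.filter fun j => ¬ S (.inl j) ≤ lam) ∪
        univ.biUnion fun i => s.filter fun j => ∃ z ∈ Z i, ‖P.σ j (x i) - z‖ ≤ ε i) := by
      intro j hj
      by_cases h2 : S (.inl j) ≤ lam
      · by_cases h3 : ∀ i, ¬ ∃ z ∈ Z i, ‖P.σ j (x i) - z‖ ≤ ε i
        · exact mem_union_left _ (mem_filter.mpr ⟨hj, h2, h3⟩)
        · push Not at h3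
          obtain ⟨i, hi⟩ := h3
          exact mem_union_right _ (mem_union_right _ (mem_biUnion.mpr ⟨i, mem_univ i,
            mem_filter.mpr ⟨hj, hi⟩⟩))
      · exact mem_union_right _ (mem_union_left _ (mem_filter.mpr ⟨hj, h2⟩))
    have h2 := card_le_card h1
    have h3 := h2.trans ((card_union_le _ _).trans (add_le_add le_rfl
      ((card_union_le _ _).trans (add_le_add le_rfl card_biUnion_le))))
    have h4 : (s.card : ℝ) ≤ s'.card + (((s.filter fun j => ¬ S (.inl j) ≤ lam).card : ℝ) +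
        ∑ i, ((s.filter fun j => ∃ z ∈ Z i, ‖P.σ j (x i) - z‖ ≤ ε i).card : ℝ)) := by
      exact_mod_cast h3
    have h5 : ∑ i, ((s.filter fun j => ∃ z ∈ Z i, ‖P.σ j (x i) - z‖ ≤ ε i).card : ℝ) ≤
        k * (θ1 * P.D) := by
      refine (sum_le_sum fun i _ => hpt'' i).trans ?_
      rw [sum_const, card_univ, Fintype.card_fin, nsmul_eq_mul]
    have h6 : (k : ℝ) * (θ1 * P.D) = P.D * (θ / 4) := by
      rw [hθ1d]
      field_simp
    rw [h6] at h5
    have h7 : θ * (P.D : ℝ) = P.D * (θ / 2) + (P.D * (θ / 4) + P.D * (θ / 4)) := by ring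
    linarith
  -- the cells
  have hcc : ∀ j : Fin P.D, ∃ c : Fin k → Fin (m + 1), j ∈ s' → ∀ i,
      δ0 ≤ ‖rv (mi i) (ri i) (‖P.σ j (x i)‖ ^ 2) (‖P.σ j (y i)‖ ^ 2) ((c i : ℕ) : ℂ)‖ := by
    intro j
    by_cases hj : j ∈ s'
    · obtain ⟨hjs, hj1, hj2⟩ := mem_filter.mp hj
      have h1 : ∀ i, ∃ c : Fin (m + 1),
          δ0 ≤ ‖rv (mi i) (ri i) (‖P.σ j (x i)‖ ^ 2) (‖P.σ j (y i)‖ ^ 2) ((c : ℕ) : ℂ)‖ := by
        intro i
        have h2 : |P.lg (.inl j) (x i)| + |P.lg (.inl j) (y i)| ≤ S (.inl j) :=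
          single_le_sum (f := fun l => |P.lg (.inl j) (x l)| + |P.lg (.inl j) (y l)|)
            (fun _ _ => add_nonneg (abs_nonneg _) (abs_nonneg _)) (mem_univ i)
        have h3 := abs_nonneg (P.lg (.inl j) (x i))
        have h4 := abs_nonneg (P.lg (.inl j) (y i))
        rcases hcell i (P.σ j (x i)) (P.σ j (y i)) ((map_ne_zero (P.σ j)).mpr (hxy i).1)
          ((map_ne_zero (P.σ j)).mpr (hxy i).2) (hon j hjs i)
          (by rw [← P.lg_inl]; linarith) (by rw [← P.lg_inl]; linarith) with h5 | h5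
        · exact absurd h5 (hj2 i)
        · obtain ⟨c, hc, hc2⟩ := h5
          have h6 : c < m + 1 := lt_of_lt_of_le (mem_range.mp hc) (Nat.succ_le_succ (hmi i))
          exact ⟨⟨c, h6⟩, (hδ0le i).trans hc2⟩
      choose c hc using h1
      exact ⟨c, fun _ => hc⟩
    · exact ⟨fun _ => 0, fun h => absurd h hj⟩
  choose cc hcc using hcc
  obtain ⟨c, -, hc⟩ := exists_le_card_fiber_of_nsmul_le_card_of_maps_to
    (s := s') (t := (univ : Finset (Fin k → Fin (m + 1)))) (f := cc) (b := θ2 * P.D)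
    (fun _ _ => mem_univ _) univ_nonempty (by
      rw [card_univ, Fintype.card_fun, Fintype.card_fin, Fintype.card_fin, nsmul_eq_mul]
      push_cast
      have h1 : ((m : ℝ) + 1) ^ k * (θ2 * P.D) = P.D * (θ / 2) := by
        rw [hθ2d]
        field_simp
      rw [h1]
      exact hs'card)
  obtain ⟨Q, hQ, hQ0⟩ := hT c K R P x y hxR hxy (havg.trans hB') p E
    (s'.filter fun j => cc j = c) hE hc (by
      intro j hj l
      obtain ⟨hj1, hj2⟩ := mem_filter.mp hj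
      have hjs : j ∈ s := (mem_filter.mp hj1).1
      have h1 : P.σ j (x l) ≠ (((c l : ℕ)) : ℂ) := by
        intro h
        apply hex' l (c l) (c l).2
        apply (P.σ j).injective
        rw [h, map_natCast]
      refine ⟨h1, ?_, ?_⟩
      · rw [← hj2]
        exact hcc j hj1 l
      · refine (pad m (mi l) (hmi l) _ _ (fun i => bb l (c l : ℕ) i (‖P.σ j (x l)‖ ^ 2)
          (‖P.σ j (y l)‖ ^ 2)) ?_)
        exact hrel l (c l : ℕ) _ _ (P.σ j (x l)) h1 ((hri l).zero _ _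
          ((map_ne_zero (P.σ j)).mpr (hxy l).1) ((map_ne_zero (P.σ j)).mpr (hxy l).2)
          (hon j hjs l)))
    (by
      intro j hj
      obtain ⟨hj1, hj2⟩ := mem_filter.mp hj
      obtain ⟨l, e, he, hle⟩ := hnear j (mem_filter.mp hj1).1
      exact ⟨l, e, he, hle.trans (hη0le c)⟩)
  exact ⟨Q, mem_union_left _ (mem_biUnion.mpr ⟨c, mem_univ c, hQ⟩), hQ0⟩

end Pool.Agent.PT
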