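import Mathlib
import Pool.Agent.Lib.MP_c95b3b_ag_L3.Defs

/-! MP_c95b3b_ag, project (P), block (T) for products of plane curves: definitions. -/

set_option autoImplicit false

noncomputable section

namespace Pool.Agent.PT

open Polynomial Finset

/-- the curve `f = 0` (`X` is the inner and `Y` the outer variable) contains no infinite set of
points with the same absolute values of both coordinates -/
def LogFin (f : ℂ[X][X]) : Prop :=
  ∀ a b : ℝ, 0 < a → 0 < b →
    {p : ℂ × ℂ | f.evalEval p.1 p.2 = 0 ∧ ‖p.1‖ = a ∧ ‖p.2‖ = b}.Finite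

/-- `F` is a complex polynomial in two real variables, of degree at most `L` in each of them, and
the sum of the absolute values of its coefficients is at most `A` -/
def Ex (L : ℕ) (A : ℝ) (F : ℝ → ℝ → ℂ) : Prop :=
  ∃ γ : Fin (L + 1) × Fin (L + 1) → ℂ, ∑ c, ‖γ c‖ ≤ A ∧
    ∀ s t : ℝ, F s t = ∑ c, γ c * (s : ℂ) ^ (c.1 : ℕ) * (t : ℂ) ^ (c.2 : ℕ)

/-- the value at `x` of the polynomial with the coefficients `r j s t`, `j ≤ m` -/
def rv (m : ℕ) (r : ℕ → ℝ → ℝ → ℂ) (s t : ℝ) (x : ℂ) : ℂ :=
  ∑ j ∈ range (m + 1), r j s t * x ^ j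

/-- `r` is a relation for the first coordinate on the curve `f = 0` in terms of the squares of the
absolute values of the coordinates, it is not identically zero except possibly for one pair `(s, t)`
of positive real numbers -/
structure Rel (f : ℂ[X][X]) (m D : ℕ) (r : ℕ → ℝ → ℝ → ℂ) : Prop where
  pos : 1 ≤ m
  ex : ∀ j, ∃ A, Ex D A (r j)
  zero : ∀ x y : ℂ, x ≠ 0 → y ≠ 0 → f.evalEval x y = 0 → rv m r (‖x‖ ^ 2) (‖y‖ ^ 2) x = 0
  exc : ∀ s t s' t' : ℝ, 0 < s → 0 < t → 0 < s' → 0 < t' → (∀ x, rv m r s t x = 0) →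
    (∀ x, rv m r s' t' x = 0) → s = s' ∧ t = t'

/-- the logarithm of the vector of the squares of the absolute values is `2 * v` -/
def ee (v : ℝ) : ℝ := Real.exp (2 * v)

end Pool.Agent.PT
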