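import Pool.Agent.Lib.MP_c95b3b_ag_PT.Defs

/-! MP_c95b3b_ag, project (P), block (T), module ExB: operations on polynomials in two real
variables. -/

set_option autoImplicit false

noncomputable section

namespace Pool.Agent.PT

open Polynomial Finset

theorem Ex.nonneg {L : ℕ} {A : ℝ} {F : ℝ → ℝ → ℂ} (h : Ex L A F) : 0 ≤ A := by
  obtain ⟨γ, hγ, -⟩ := h
  exact (sum_nonneg fun c _ => norm_nonneg _).trans hγ

theorem Ex.congr {L : ℕ} {A : ℝ} {F G : ℝ → ℝ → ℂ} (h : Ex L A F) (hFG : ∀ s t, F s t = G s t) :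
    Ex L A G := by
  obtain ⟨γ, hγ, hF⟩ := h
  exact ⟨γ, hγ, fun s t => by rw [← hFG, hF]⟩

theorem Ex.le {L : ℕ} {A A' : ℝ} {F : ℝ → ℝ → ℂ} (h : Ex L A F) (hA : A ≤ A') : Ex L A' F := by
  obtain ⟨γ, hγ, hF⟩ := h
  exact ⟨γ, hγ.trans hA, hF⟩

/-- a polynomial given by its coefficients on a larger index set -/
theorem Ex.of_finset {L : ℕ} {A : ℝ} {F : ℝ → ℝ → ℂ} {ι : Type} (S : Finset ι) (γ : ι → ℂ)
    (e : ι → ℕ × ℕ) (he : ∀ i ∈ S, (e i).1 ≤ L ∧ (e i).2 ≤ L) (hA : ∑ i ∈ S, ‖γ i‖ ≤ A)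
    (hF : ∀ s t : ℝ, F s t = ∑ i ∈ S, γ i * (s : ℂ) ^ (e i).1 * (t : ℂ) ^ (e i).2) :
    Ex L A F := by
  classical
  refine ⟨fun c => ∑ i ∈ S, if e i = ((c.1 : ℕ), (c.2 : ℕ)) then γ i else 0, ?_, ?_⟩
  · have h1 : ∀ c : Fin (L + 1) × Fin (L + 1),
        ‖∑ i ∈ S, if e i = ((c.1 : ℕ), (c.2 : ℕ)) then γ i else 0‖ ≤
        ∑ i ∈ S, if e i = ((c.1 : ℕ), (c.2 : ℕ)) then ‖γ i‖ else 0 := by
      intro c
      refine (norm_sum_le _ _).trans (sum_le_sum fun i _ => ?_)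
      split_ifs
      · exact le_rfl
      · rw [norm_zero]
    refine (sum_le_sum fun c _ => h1 c).trans ?_
    rw [sum_comm]
    refine (sum_le_sum fun i hi => ?_).trans hA
    obtain ⟨h2, h3⟩ := he i hi
    rw [sum_eq_single ((⟨(e i).1, by omega⟩ : Fin (L + 1)), (⟨(e i).2, by omega⟩ : Fin (L + 1)))]
    · simp
    · rintro ⟨c1, c2⟩ - hc
      rw [if_neg]
      intro h4
      apply hc
      rw [Prod.ext_iff] at h4
      simp only at h4
      rw [Prod.ext_iff]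
      exact ⟨Fin.ext h4.1.symm, Fin.ext h4.2.symm⟩
    · intro h
      exact absurd (mem_univ _) h
  · intro s t
    rw [hF]
    simp only [sum_mul]
    rw [sum_comm]
    refine sum_congr rfl fun i hi => ?_
    obtain ⟨h2, h3⟩ := he i hi
    rw [sum_eq_single ((⟨(e i).1, by omega⟩ : Fin (L + 1)), (⟨(e i).2, by omega⟩ : Fin (L + 1)))]
    · simp
    · rintro ⟨c1, c2⟩ - hc
      rw [if_neg]
      · simp
      intro h4
      apply hc
      rw [Prod.ext_iff] at h4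
      simp only at h4
      rw [Prod.ext_iff]
      exact ⟨Fin.ext h4.1.symm, Fin.ext h4.2.symm⟩
    · intro h
      exact absurd (mem_univ _) h

theorem Ex.mono {L L' : ℕ} {A A' : ℝ} {F : ℝ → ℝ → ℂ} (h : Ex L A F) (hL : L ≤ L')
    (hA : A ≤ A') : Ex L' A' F := by
  obtain ⟨γ, hγ, hF⟩ := h
  refine Ex.of_finset univ γ (fun c => ((c.1 : ℕ), (c.2 : ℕ))) ?_ (hγ.trans hA) hF
  rintro ⟨c1, c2⟩ -
  have h1 := c1.2
  have h2 := c2.2
  constructor
  · simp only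
    omega
  · simp only
    omega

theorem Ex.zero (L : ℕ) : Ex L 0 (fun _ _ => 0) :=
  ⟨fun _ => 0, by simp, fun s t => by simp⟩

theorem Ex.mon (L a b : ℕ) (ha : a ≤ L) (hb : b ≤ L) (z : ℂ) :
    Ex L ‖z‖ (fun s t => z * (s : ℂ) ^ a * (t : ℂ) ^ b) := by
  refine Ex.of_finset ({()} : Finset Unit) (fun _ => z) (fun _ => (a, b)) ?_ ?_ ?_
  · intro i _
    exact ⟨ha, hb⟩
  · simp
  · intro s t
    simp

theorem Ex.const (L : ℕ) (z : ℂ) : Ex L ‖z‖ (fun _ _ => z) := by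
  refine (Ex.mon L 0 0 (Nat.zero_le _) (Nat.zero_le _) z).congr fun s t => ?_
  simp

theorem Ex.add {L : ℕ} {A B : ℝ} {F G : ℝ → ℝ → ℂ} (hF : Ex L A F) (hG : Ex L B G) :
    Ex L (A + B) (fun s t => F s t + G s t) := by
  obtain ⟨γ, hγ, hF⟩ := hF
  obtain ⟨δ, hδ, hG⟩ := hG
  refine ⟨fun c => γ c + δ c, ?_, ?_⟩
  · refine (sum_le_sum fun c _ => norm_add_le _ _).trans ?_
    rw [sum_add_distrib]
    exact add_le_add hγ hδ
  · intro s t
    simp only [hF, hG, ← sum_add_distrib]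
    refine sum_congr rfl fun c _ => ?_
    ring

theorem Ex.sum {L : ℕ} {ι : Type} (S : Finset ι) (A : ι → ℝ) (F : ι → ℝ → ℝ → ℂ)
    (h : ∀ i ∈ S, Ex L (A i) (F i)) : Ex L (∑ i ∈ S, A i) (fun s t => ∑ i ∈ S, F i s t) := by
  classical
  induction S using Finset.induction_on with
  | empty => simpa using Ex.zero L
  | insert a S ha ih =>
    have h1 := (h a (mem_insert_self a S)).add (ih fun i hi => h i (mem_insert_of_mem hi))
    rw [sum_insert ha]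
    refine h1.congr fun s t => ?_
    rw [sum_insert ha]

theorem Ex.mul {L M : ℕ} {A B : ℝ} {F G : ℝ → ℝ → ℂ} (hF : Ex L A F) (hG : Ex M B G) :
    Ex (L + M) (A * B) (fun s t => F s t * G s t) := by
  have hA := hF.nonneg
  obtain ⟨γ, hγ, hF⟩ := hF
  obtain ⟨δ, hδ, hG⟩ := hG
  refine Ex.of_finset (univ : Finset ((Fin (L + 1) × Fin (L + 1)) × (Fin (M + 1) × Fin (M + 1))))
    (fun c => γ c.1 * δ c.2)
    (fun c => ((c.1.1 : ℕ) + (c.2.1 : ℕ), (c.1.2 : ℕ) + (c.2.2 : ℕ))) ?_ ?_ ?_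
  · rintro ⟨⟨c1, c2⟩, ⟨d1, d2⟩⟩ -
    have h1 := c1.2
    have h2 := c2.2
    have h3 := d1.2
    have h4 := d2.2
    constructor
    · simp only
      omega
    · simp only
      omega
  · rw [Fintype.sum_prod_type]
    simp only [norm_mul]
    calc ∑ x, ∑ y, ‖γ x‖ * ‖δ y‖ = (∑ x, ‖γ x‖) * ∑ y, ‖δ y‖ := by
          rw [sum_mul_sum]
      _ ≤ A * B := mul_le_mul hγ hδ (sum_nonneg fun _ _ => norm_nonneg _) hA
  · intro s t
    simp only [hF, hG]
    rw [sum_mul_sum]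
    symm
    rw [Fintype.sum_prod_type]
    refine sum_congr rfl fun c _ => ?_
    refine sum_congr rfl fun d _ => ?_
    ring

theorem Ex.pow {L : ℕ} {A : ℝ} {F : ℝ → ℝ → ℂ} (hF : Ex L A F) (n : ℕ) :
    Ex (L * n) (A ^ n) (fun s t => F s t ^ n) := by
  induction n with
  | zero =>
    have h := Ex.const (L * 0) 1
    rw [norm_one] at h
    rw [pow_zero]
    exact h.congr fun s t => by rw [pow_zero]
  | succ n ih =>
    have h := ih.mul hF
    rw [pow_succ]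
    exact (h.mono (by rw [Nat.mul_succ]) le_rfl).congr fun s t => by rw [pow_succ]

theorem Ex.continuous {L : ℕ} {A : ℝ} {F : ℝ → ℝ → ℂ} (hF : Ex L A F) :
    Continuous fun z : ℝ × ℝ => F z.1 z.2 := by
  obtain ⟨γ, -, hF⟩ := hF
  simp only [hF]
  fun_prop

end Pool.Agent.PT
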