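import Pool.Agent.Lib.MP_c95b3b_ag_PT.ExB

/-! MP_c95b3b_ag, project (P), block (T), module Red: reduction of powers.

PROOF of `pow_red`. Take one `A0 ≥ 1` with `Ex D A0 a`, `Ex D A0 (b j)` for `j < m` (`Ex.le`), and `A1 = 2 * A0 * m` or so.
First construct `G n j` (`n : ℕ`, `j < m`) with `Ex (D * n) (A2 ^ n) (G n j)` for all `j` and
`a ^ n * u ^ n = ∑ j < m, G n j * u ^ j`: `G 0 j = 1` for `j = 0` and `0` otherwise;
`a ^ (n+1) * u ^ (n+1) = ∑ j < m, a * G n j * u ^ (j+1)`, and for `j = m - 1` replace `a * u ^ m` by `∑ b l * u ^ l`: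
`G (n+1) 0 = G n (m-1) * b 0`, `G (n+1) j = a * G n (j-1) + G n (m-1) * b j` for `0 < j < m`. So `A2 = 2 * A0` is enough.
Then `Bf n j = a ^ (N - n) * G n j` for `n ≤ N`.

PROOF of `cell_rel`. With `h = x - c`: `0 = ∑ j ≤ m, r j * (c + h) ^ j = ∑ i ≤ m, R i * h ^ i`, `R i = ∑ j ≤ m, (j.choose i) * c ^ (j - i) * r j` (terms with
`j < i` are 0), `R 0 = rv m r s t c`. Multiply by `(1/h) ^ m`: `R 0 * u ^ m = - ∑ 1 ≤ i ≤ m, R i * u ^ (m - i)`: `b j = - R (m - j)`. -/

set_option autoImplicit false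

noncomputable section

namespace Pool.Agent.PT

open Polynomial Finset

/-- the coefficients of the reduction of `a ^ n * u ^ n` -/
def redG (m : ℕ) (a : ℝ → ℝ → ℂ) (b : ℕ → ℝ → ℝ → ℂ) : ℕ → ℕ → ℝ → ℝ → ℂ
  | 0, j, _, _ => if j = 0 then 1 else 0
  | n + 1, j, s, t => (if j = 0 then 0 else a s t * redG m a b n (j - 1) s t) +
      redG m a b n (m - 1) s t * b j s t

theorem redG_ex (m D : ℕ) (hm : 1 ≤ m) (a : ℝ → ℝ → ℂ) (b : ℕ → ℝ → ℝ → ℂ) (A : ℝ)
    (ha : Ex D A a) (hb : ∀ j < m, Ex D A (b j)) (n : ℕ) :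
    ∀ j < m, Ex (D * n) ((2 * A) ^ n) (redG m a b n j) := by
  induction n with
  | zero =>
    intro j _
    rw [pow_zero]
    by_cases hj : j = 0
    · have h := Ex.const (D * 0) 1
      rw [norm_one] at h
      exact h.congr fun s t => by simp [redG, hj]
    · exact ((Ex.zero (D * 0)).le zero_le_one).congr fun s t => by simp [redG, hj]
  | succ n ih =>
    intro j hj
    have hA := ha.nonneg
    have hP : 0 ≤ (2 * A) ^ n := by positivity
    have h2 : Ex (D * (n + 1)) ((2 * A) ^ n * A)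
        (fun s t => redG m a b n (m - 1) s t * b j s t) :=
      ((ih (m - 1) (by omega)).mul (hb j hj)).mono (by rw [Nat.mul_succ]) le_rfl
    have h1 : Ex (D * (n + 1)) ((2 * A) ^ n * A)
        (fun s t => if j = 0 then 0 else a s t * redG m a b n (j - 1) s t) := by
      by_cases hj0 : j = 0
      · refine ((Ex.zero (D * (n + 1))).le (mul_nonneg hP hA)).congr fun s t => ?_
        rw [if_pos hj0]
      · refine ((ha.mul (ih (j - 1) (by omega))).mono (by rw [Nat.mul_succ, add_comm])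
          (le_of_eq (mul_comm _ _))).congr fun s t => ?_
        rw [if_neg hj0]
    refine ((h1.add h2).le (le_of_eq ?_)).congr fun s t => ?_
    · rw [pow_succ]
      ring
    · rfl

theorem redG_eq (m : ℕ) (a : ℝ → ℝ → ℂ) (b : ℕ → ℝ → ℝ → ℂ) (s t : ℝ) (u : ℂ)
    (h : a s t * u ^ (m + 1) = ∑ j ∈ range (m + 1), b j s t * u ^ j) (n : ℕ) :
    a s t ^ n * u ^ n = ∑ j ∈ range (m + 1), redG (m + 1) a b n j s t * u ^ j := by
  induction n with
  | zero =>
    rw [sum_range_succ']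
    simp [redG]
  | succ n ih =>
    have h1 : a s t ^ (n + 1) * u ^ (n + 1) =
        ∑ j ∈ range (m + 1), a s t * redG (m + 1) a b n j s t * u ^ (j + 1) := by
      calc a s t ^ (n + 1) * u ^ (n + 1) = a s t * u * (a s t ^ n * u ^ n) := by ring
        _ = _ := by
          rw [ih, mul_sum]
          refine sum_congr rfl fun j _ => ?_
          ring
    have h2 : a s t * redG (m + 1) a b n m s t * u ^ (m + 1) =
        ∑ j ∈ range (m + 1), redG (m + 1) a b n m s t * b j s t * u ^ j := by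
      calc a s t * redG (m + 1) a b n m s t * u ^ (m + 1) =
          redG (m + 1) a b n m s t * (a s t * u ^ (m + 1)) := by ring
        _ = _ := by
          rw [h, mul_sum]
          refine sum_congr rfl fun j _ => ?_
          ring
    have h3 : ∑ j ∈ range (m + 1),
        (if j = 0 then 0 else a s t * redG (m + 1) a b n (j - 1) s t) * u ^ j =
        ∑ j ∈ range m, a s t * redG (m + 1) a b n j s t * u ^ (j + 1) := by
      rw [sum_range_succ']
      simp
    rw [h1, sum_range_succ, h2, ← h3, ← sum_add_distrib]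
    refine sum_congr rfl fun j _ => ?_
    rw [← add_mul]
    rfl

theorem pow_red (m D : ℕ) (hm : 1 ≤ m) (a : ℝ → ℝ → ℂ) (b : ℕ → ℝ → ℝ → ℂ)
    (ha : ∃ A, Ex D A a) (hb : ∀ j, ∃ A, Ex D A (b j)) :
    ∃ A1 : ℝ, 1 ≤ A1 ∧ ∀ N : ℕ, ∃ Bf : ℕ → ℕ → ℝ → ℝ → ℂ,
      (∀ n ≤ N, ∀ j, Ex (D * N) (A1 ^ N) (Bf n j)) ∧
      ∀ n ≤ N, ∀ (s t : ℝ) (u : ℂ), a s t * u ^ m = ∑ j ∈ range m, b j s t * u ^ j →
        a s t ^ N * u ^ n = ∑ j ∈ range m, Bf n j s t * u ^ j := by
  obtain ⟨Aa, hAa⟩ := ha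
  choose Ab hAb using hb
  obtain ⟨A, hA⟩ : ∃ A : ℝ, A = 1 + Aa + ∑ j ∈ range m, Ab j := ⟨_, rfl⟩
  have hAa0 := hAa.nonneg
  have hAb0 : ∀ j, 0 ≤ Ab j := fun j => (hAb j).nonneg
  have hS0 : 0 ≤ ∑ j ∈ range m, Ab j := sum_nonneg fun j _ => hAb0 j
  have hA1 : 1 ≤ A := by linarith
  have hEa : Ex D A a := hAa.le (by linarith)
  have hEb : ∀ j < m, Ex D A (b j) := fun j hj => (hAb j).le (by
    have h1 := single_le_sum (f := Ab) (fun i _ => hAb0 i) (mem_range.2 hj)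
    linarith)
  refine ⟨2 * A, by linarith, fun N => ?_⟩
  refine ⟨fun n j s t => if j < m then a s t ^ (N - n) * redG m a b n j s t else 0, ?_, ?_⟩
  · intro n hn j
    by_cases hj : j < m
    · have h1 := (hEa.pow (N - n)).mul (redG_ex m D hm a b A hEa hEb n j hj)
      refine (h1.mono (L' := D * N) (A' := (2 * A) ^ N) ?_ ?_).congr fun s t => ?_
      · rw [← mul_add, Nat.sub_add_cancel hn]
      · calc A ^ (N - n) * (2 * A) ^ n ≤ (2 * A) ^ (N - n) * (2 * A) ^ n := by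
              gcongr
              linarith
          _ = (2 * A) ^ N := by rw [← pow_add, Nat.sub_add_cancel hn]
      · simp only [if_pos hj]
    · refine ((Ex.zero (D * N)).le (A' := (2 * A) ^ N) (by positivity)).congr fun s t => ?_
      simp only [if_neg hj]
  · intro n hn s t u h
    obtain ⟨m', rfl⟩ : ∃ m', m = m' + 1 := ⟨m - 1, by omega⟩
    have h1 := redG_eq m' a b s t u h n
    calc a s t ^ N * u ^ n = a s t ^ (N - n) * (a s t ^ n * u ^ n) := by
          rw [← mul_assoc, ← pow_add, Nat.sub_add_cancel hn]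
      _ = _ := by
          rw [h1, mul_sum]
          refine sum_congr rfl fun j hj => ?_
          simp only [if_pos (mem_range.1 hj)]
          ring

/-- the Taylor coefficients of `r` at `c` -/
def redR (m : ℕ) (r : ℕ → ℝ → ℝ → ℂ) (c : ℂ) (i : ℕ) (s t : ℝ) : ℂ :=
  ∑ j ∈ range (m + 1), ((j.choose i : ℂ) * c ^ (j - i)) * r j s t

theorem redR_ex (m D : ℕ) (r : ℕ → ℝ → ℝ → ℂ) (hr : ∀ j, ∃ A, Ex D A (r j)) (c : ℂ) (i : ℕ) :
    ∃ A, Ex D A (redR m r c i) := by
  choose A hA using hr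
  refine ⟨_, Ex.sum (range (m + 1)) (fun j => ‖(j.choose i : ℂ) * c ^ (j - i)‖ * A j) (fun j s t => ((j.choose i : ℂ) * c ^ (j - i)) * r j s t)
    fun j _ => ?_⟩
  exact ((Ex.const 0 ((j.choose i : ℂ) * c ^ (j - i))).mul (hA j)).mono
    (le_of_eq (zero_add D)) le_rfl

theorem redR_zero (m : ℕ) (r : ℕ → ℝ → ℝ → ℂ) (c : ℂ) (s t : ℝ) :
    redR m r c 0 s t = rv m r s t c := by
  unfold redR rv
  refine sum_congr rfl fun j _ => ?_
  rw [Nat.choose_zero_right, Nat.cast_one, one_mul, Nat.sub_zero, mul_comm]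

theorem redR_eq (m : ℕ) (r : ℕ → ℝ → ℝ → ℂ) (c : ℂ) (s t : ℝ) (x : ℂ) :
    rv m r s t x = ∑ i ∈ range (m + 1), redR m r c i s t * (x - c) ^ i := by
  unfold redR rv
  simp only [sum_mul]
  rw [sum_comm]
  refine sum_congr rfl fun j hj => ?_
  have h1 : x ^ j = ∑ i ∈ range (j + 1), (x - c) ^ i * c ^ (j - i) * (j.choose i : ℂ) := by
    rw [← add_pow, sub_add_cancel]
  have h2 : ∑ i ∈ range (j + 1), (x - c) ^ i * c ^ (j - i) * (j.choose i : ℂ) =
      ∑ i ∈ range (m + 1), (x - c) ^ i * c ^ (j - i) * (j.choose i : ℂ) := by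
    refine sum_subset (range_subset_range.2 (by rw [mem_range] at hj; omega)) ?_
    intro i _ hi
    rw [mem_range, not_lt] at hi
    rw [Nat.choose_eq_zero_of_lt (by omega), Nat.cast_zero, mul_zero]
  rw [h1, h2, mul_sum]
  refine sum_congr rfl fun i _ => ?_
  ring

theorem cell_rel (m D : ℕ) (r : ℕ → ℝ → ℝ → ℂ) (hr : ∀ j, ∃ A, Ex D A (r j)) (c : ℂ) :
    (∃ A, Ex D A (fun s t => rv m r s t c)) ∧
    ∃ b : ℕ → ℝ → ℝ → ℂ, (∀ j, ∃ A, Ex D A (b j)) ∧
      ∀ (s t : ℝ) (x : ℂ), x ≠ c → rv m r s t x = 0 →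
        rv m r s t c * ((x - c)⁻¹) ^ m = ∑ j ∈ range m, b j s t * ((x - c)⁻¹) ^ j := by
  constructor
  · obtain ⟨A, hA⟩ := redR_ex m D r hr c 0
    exact ⟨A, hA.congr fun s t => redR_zero m r c s t⟩
  · refine ⟨fun j s t => (-1) * redR m r c (m - j) s t, fun j => ?_, ?_⟩
    · obtain ⟨A, hA⟩ := redR_ex m D r hr c (m - j)
      exact ⟨_, ((Ex.const 0 (-1)).mul hA).mono (le_of_eq (zero_add D)) le_rfl⟩
    · intro s t x hx h
      have hh : x - c ≠ 0 := sub_ne_zero.2 hx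
      rw [redR_eq m r c s t x, sum_range_succ', pow_zero, mul_one, redR_zero] at h
      have h0 : rv m r s t c = - ∑ i ∈ range m, redR m r c (i + 1) s t * (x - c) ^ (i + 1) := by
        rw [add_comm] at h
        exact eq_neg_of_add_eq_zero_left h
      rw [h0, neg_mul, sum_mul, ← sum_neg_distrib]
      rw [← sum_range_reflect (fun j => (-1) * redR m r c (m - j) s t * ((x - c)⁻¹) ^ j) m]
      refine sum_congr rfl fun i hi => ?_
      rw [mem_range] at hi
      have h1 : m - (m - 1 - i) = i + 1 := by omega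
      have h2 : ((x - c)⁻¹) ^ m = ((x - c)⁻¹) ^ (m - 1 - i) * ((x - c)⁻¹) ^ (i + 1) := by
        rw [← pow_add]
        congr 1
        omega
      have h3 : (x - c) ^ (i + 1) * ((x - c)⁻¹) ^ (i + 1) = 1 := by
        rw [← mul_pow, mul_inv_cancel₀ hh, one_pow]
      rw [h1, h2]
      linear_combination (- redR m r c (i + 1) s t * ((x - c)⁻¹) ^ (m - 1 - i)) * h3

end Pool.Agent.PT
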